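import Mathlib

/-! Ring identities behind the splicing of local inverses. -/

set_option autoImplicit false

namespace Pool.Agent.MP_7ca887_an.AP

variable {A : Type*} [Ring A]

/-- `a` lies in the plateau of `b`. -/
def Ab (a b : A) : Prop := a * b = a ∧ b * a = a

theorem Ab.trans {a b c : A} (h : Ab a b) (k : Ab b c) : Ab a c := by
  constructor
  · calc a * c = a * b * c := by rw [h.1]
      _ = a := by rw [mul_assoc, k.1, h.1]
  · calc c * a = c * (b * a) := by rw [h.2]
      _ = a := by rw [← mul_assoc, k.2, h.2]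

/-- forward catalyst -/
def rho (th cr jm jn : A) : A := jn * (1 - cr) * jm * th
/-- backward catalyst -/
def sig (th cs jm jn : A) : A := th * jm * jn * (1 - cs)
/-- third nilpotent -/
def nu (a b e2 th cr jm jn : A) : A := ((1 - th) * (b * a) + rho th cr jm jn) * e2
/-- product of the first three unipotents -/
def g3 (a b e2 th cs cr jm jn : A) : A :=
  (1 - nu a b e2 th cr jm jn) * (1 + sig th cs jm jn) * (1 + rho th cr jm jn * th * (a * b))
/-- its inverse -/
def h3 (a b e2 th cs cr jm jn : A) : A :=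
  (1 - rho th cr jm jn * th * (a * b)) * (1 - sig th cs jm jn) * (1 + nu a b e2 th cr jm jn)
/-- fourth nilpotent -/
def n4 (a b e1 e2 th cs cr jm jn : A) : A := e1 * (a * b * h3 a b e2 th cs cr jm jn - 1)
/-- the correcting automorphism -/
def gF (a b e1 e2 th cs cr jm jn : A) : A :=
  (1 + n4 a b e1 e2 th cs cr jm jn) * g3 a b e2 th cs cr jm jn
/-- its inverse -/
def hF (a b e1 e2 th cs cr jm jn : A) : A :=
  h3 a b e2 th cs cr jm jn * (1 - n4 a b e1 e2 th cs cr jm jn)

theorem map_gF {B : Type*} [Ring B] (f : A →+* B) (a b e1 e2 th cs cr jm jn : A) :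
    f (gF a b e1 e2 th cs cr jm jn) =
      gF (f a) (f b) (f e1) (f e2) (f th) (f cs) (f cr) (f jm) (f jn) := by
  simp [gF, n4, h3, g3, nu, sig, rho]

theorem map_hF {B : Type*} [Ring B] (f : A →+* B) (a b e1 e2 th cs cr jm jn : A) :
    f (hF a b e1 e2 th cs cr jm jn) =
      hF (f a) (f b) (f e1) (f e2) (f th) (f cs) (f cr) (f jm) (f jn) := by
  simp [hF, n4, h3, nu, sig, rho]

theorem gF_neg (a b e1 e2 th cs cr jm jn : A) :
    gF (-a) (-b) e1 e2 th cs cr (-jm) (-jn) = gF a b e1 e2 th cs cr jm jn := by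
  simp [gF, n4, h3, g3, nu, sig, rho]

theorem hF_neg (a b e1 e2 th cs cr jm jn : A) :
    hF (-a) (-b) e1 e2 th cs cr (-jm) (-jn) = hF a b e1 e2 th cs cr jm jn := by
  simp [hF, n4, h3, nu, sig, rho]

theorem gF_zero (a b cs cr jm jn : A) : gF a b 0 0 0 cs cr jm jn = 1 := by
  simp [gF, n4, h3, g3, nu, sig, rho]

theorem unip {n : A} (h : n * n = 0) : (1 + n) * (1 - n) = 1 ∧ (1 - n) * (1 + n) = 1 := by
  constructor
  · have : (1 + n) * (1 - n) = 1 - n * n := by noncomm_ring
    rw [this, h, sub_zero]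
  · have : (1 - n) * (1 + n) = 1 - n * n := by noncomm_ring
    rw [this, h, sub_zero]

theorem gamma_alg {a b e0 e1 e2 th t cs cr jm jn : A}
    (h01 : Ab e0 e1) (h12 : Ab e1 e2) (h2t : Ab e2 th) (htt : Ab th t) (hts : Ab t cs)
    (hqp : a * b * (b * a) * th = th)
    (htp : t * (b * a * th) = b * a * th) (hqt : th * (a * b) * t = th * (a * b))
    (hx12 : th * (b * a) * th = th * jm * cr * jm * th)
    (hx3 : jm * jm * th = th)
    (hx4 : cs * rho th cr jm jn = 0)
    (hx5 : jn * rho th cr jm jn = (1 - cr) * jm * th) :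
    gF a b e1 e2 th cs cr jm jn * hF a b e1 e2 th cs cr jm jn = 1 ∧
    hF a b e1 e2 th cs cr jm jn * gF a b e1 e2 th cs cr jm jn = 1 ∧
    gF a b e1 e2 th cs cr jm jn * (b * a) * e0 = e0 ∧
    e0 * (a * b) = e0 * gF a b e1 e2 th cs cr jm jn := by
  set r := rho th cr jm jn with hr
  set s := sig th cs jm jn with hs
  set n := nu a b e2 th cr jm jn with hn
  set p := b * a with hp
  set q := a * b with hq
  have hn' : n = ((1 - th) * p + r) * e2 := rfl
  have hs' : s = th * jm * jn * (1 - cs) := rfl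
  have htr : t * r = 0 := by rw [← hts.1, mul_assoc, hx4, mul_zero]
  have hthr : th * r = 0 := by rw [← htt.1, mul_assoc, htr, mul_zero]
  have he2r : e2 * r = 0 := by rw [← h2t.1, mul_assoc, hthr, mul_zero]
  have hst : s * t = 0 := by
    have : s * t = th * jm * jn * (t - cs * t) := by rw [hs']; noncomm_ring
    rw [this, hts.2, sub_self, mul_zero]
  have hsth : s * th = 0 := by rw [← htt.2, ← mul_assoc, hst, zero_mul]
  have hss : s * s = 0 := by
    have : s * s = s * th * (jm * jn * (1 - cs)) := by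
      nth_rewrite 2 [hs']; simp only [mul_assoc]
    rw [this, hsth, zero_mul]
  have hqr : th * q * r = 0 := by rw [← hqt, mul_assoc, htr, mul_zero]
  have hrr : r * th * q * (r * th * q) = 0 := by
    have : r * th * q * (r * th * q) = r * (th * q * r) * (th * q) := by noncomm_ring
    rw [this, hqr]; simp
  have he2n : e2 * n = 0 := by
    have : e2 * n = ((e2 - e2 * th) * p + e2 * r) * e2 := by rw [hn']; noncomm_ring
    rw [this, h2t.1, he2r]; simp
  have hnn : n * n = 0 := by
    have : n * n = ((1 - th) * p + r) * (e2 * n) := by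
      nth_rewrite 1 [hn']; rw [mul_assoc]
    rw [this, he2n, mul_zero]
  have hsr : s * r = th * th - th * p * th := by
    have e1 : s * r = th * jm * (jn * r) - th * jm * jn * (cs * r) := by
      rw [hs']; noncomm_ring
    rw [e1, hx4, hx5, hx12]
    have e2 : th * jm * ((1 - cr) * jm * th) = th * (jm * jm * th) - th * jm * cr * jm * th := by
      noncomm_ring
    rw [e2, hx3]; simp
  have hsp : s * (p * e2) = 0 := by
    have : s * (p * e2) = s * (p * th) * e2 := by
      conv_lhs => rw [← h2t.2]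
      noncomm_ring
    rw [this, ← htp, ← mul_assoc, hst]; simp
  have hqpe2 : q * (p * e2) = e2 := by
    calc q * (p * e2) = q * p * th * e2 := by
          conv_lhs => rw [← h2t.2]
          noncomm_ring
      _ = e2 := by rw [hqp, h2t.2]
  have u1 := unip hrr
  have u2 := unip hss
  have u3 := unip hnn
  have hg3 : g3 a b e2 th cs cr jm jn = (1 - n) * (1 + s) * (1 + r * th * q) := rfl
  have hh3 : h3 a b e2 th cs cr jm jn = (1 - r * th * q) * (1 - s) * (1 + n) := rfl
  set G := g3 a b e2 th cs cr jm jn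
  set H := h3 a b e2 th cs cr jm jn
  have hGH : G * H = 1 := by
    have : G * H = (1 - n) * ((1 + s) * ((1 + r * th * q) * (1 - r * th * q)) * (1 - s)) * (1 + n) := by
      rw [hg3, hh3]; simp only [mul_assoc]
    rw [this, u1.1, mul_one, u2.1, mul_one, u3.2]
  have hHG : H * G = 1 := by
    have : H * G = (1 - r * th * q) * ((1 - s) * ((1 + n) * (1 - n)) * (1 + s)) * (1 + r * th * q) := by
      rw [hg3, hh3]; simp only [mul_assoc]
    rw [this, u3.1, mul_one, u2.2, mul_one, u1.2]
  have s1 : (1 + r * th * q) * (p * e2) = p * e2 + r * e2 := by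
    have : (1 + r * th * q) * (p * e2) = p * e2 + r * (th * (q * (p * e2))) := by noncomm_ring
    rw [this, hqpe2, h2t.2]
  have s2 : (1 + s) * (p * e2 + r * e2) = e2 + n := by
    have e1 : (1 + s) * (p * e2 + r * e2) = p * e2 + r * e2 + s * (p * e2) + s * r * e2 := by
      noncomm_ring
    have e2' : (th * th - th * p * th) * e2 = th * (th * e2) - th * p * (th * e2) := by noncomm_ring
    rw [e1, hsp, hsr, e2', h2t.2, h2t.2, hn']; noncomm_ring
  have s3 : G * p * e1 = e1 := by
    have e1' : G * p * e1 = (1 - n) * ((1 + s) * ((1 + r * th * q) * (p * e2))) * e1 := by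
      conv_lhs => rw [← h12.2]
      rw [hg3]; simp only [mul_assoc]
    have e2' : (1 - n) * (e2 + n) * e1 = e2 * e1 + n * e1 - n * (e2 * e1) - n * n * e1 := by
      noncomm_ring
    rw [e1', s1, s2, e2', hnn, h12.2]; simp
  have hHe : H * e1 = p * e1 := by
    calc H * e1 = H * (G * p * e1) := by rw [s3]
      _ = H * G * (p * e1) := by simp only [mul_assoc]
      _ = p * e1 := by rw [hHG, one_mul]
  have hn4 : n4 a b e1 e2 th cs cr jm jn = e1 * (q * H - 1) := rfl
  set m := n4 a b e1 e2 th cs cr jm jn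
  have hme : m * e1 = 0 := by
    have e1' : m * e1 = e1 * (q * (H * e1) - e1) := by rw [hn4]; noncomm_ring
    have e2' : q * (p * e1) = e1 := by
      calc q * (p * e1) = q * (p * e2) * e1 := by
            conv_lhs => rw [← h12.2]
            simp only [mul_assoc]
        _ = e1 := by rw [hqpe2, h12.2]
    rw [e1', hHe, e2']; simp
  have hmm : m * m = 0 := by
    have : m * m = m * e1 * (q * H - 1) := by
      rw [mul_assoc m e1, ← hn4]
    rw [this, hme, zero_mul]
  have u4 := unip hmm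
  have hg : gF a b e1 e2 th cs cr jm jn = (1 + m) * G := rfl
  have hh : hF a b e1 e2 th cs cr jm jn = H * (1 - m) := rfl
  rw [hg, hh]
  refine ⟨?_, ?_, ?_, ?_⟩
  · have : (1 + m) * G * (H * (1 - m)) = (1 + m) * (G * H) * (1 - m) := by simp only [mul_assoc]
    rw [this, hGH, mul_one, u4.1]
  · have : H * (1 - m) * ((1 + m) * G) = H * ((1 - m) * (1 + m)) * G := by simp only [mul_assoc]
    rw [this, u4.2, mul_one, hHG]
  · have e1' : (1 + m) * G * p * e0 = (1 + m) * (G * p * e1) * e0 := by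
      conv_lhs => rw [← h01.2]
      simp only [mul_assoc]
    rw [e1', s3, add_mul, one_mul, hme, add_zero, h01.2]
  · have e1' : e0 * ((1 + m) * G) = (e0 + e0 * e1 * (q * H - 1)) * G := by rw [hn4]; noncomm_ring
    have e2' : (e0 + e0 * (q * H - 1)) * G = e0 * q * (H * G) := by noncomm_ring
    rw [e1', h01.1, e2', hHG, mul_one]

/-- the local formula -/
def DF (g h j : ℕ → A) (k : ℕ) : A := g k * g (k + 2) * j (k + 3) * h (k + 1)
/-- the band -/
def dl (ch : ℕ → A) (k : ℕ) : A := ch (k + 3) - ch (k + 1)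

theorem main_alg (g h j xi ch et : ℕ → A)
    (gh : ∀ k, g k * h k = 1) (hg : ∀ k, h k * g k = 1)
    (R1 : ∀ k, g k * (j (k + 1) * j k) * et k = et k)
    (R2 : ∀ k, et k * (j k * j (k + 1)) = et k * g k)
    (R3 : ∀ k, Ab (et k) (j k * j k))
    (R4l : ∀ k, xi (k + 1) * (j k * et k) = j k * et k)
    (R4r : ∀ k, et k * j k * xi (k + 1) = et k * j k)
    (R5 : ∀ k, Ab (g k - 1) (xi (k + 2)))
    (c1 : ∀ k, Ab (xi k) (ch k)) (c2 : ∀ k, Ab (ch k) (et k)) (c3 : ∀ k, Ab (et k) (xi (k + 1)))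
    (k : ℕ) :
    xi (k + 5) * (DF g h j (k + 1) * dl ch (k + 1)) = DF g h j (k + 1) * dl ch (k + 1) ∧
    et (k + 1) * (DF g h j (k + 1) * dl ch (k + 1)) = 0 ∧
    (dl ch k + dl ch (k + 2)) * (DF g h j (k + 1) * dl ch (k + 1)) =
      DF g h j (k + 1) * dl ch (k + 1) ∧
    (DF g h j k * dl ch k + DF g h j (k + 2) * dl ch (k + 2)) *
      (DF g h j (k + 1) * dl ch (k + 1)) = dl ch (k + 1) := by
  have xe : ∀ k, Ab (xi k) (et k) := fun k => (c1 k).trans (c2 k)
  have xx : ∀ k, Ab (xi k) (xi (k + 1)) := fun k => (xe k).trans (c3 k)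
  have cc : ∀ k, Ab (ch k) (ch (k + 1)) := fun k => ((c2 k).trans (c3 k)).trans (c1 (k + 1))
  have ee : ∀ k, Ab (et k) (et (k + 1)) := fun k => (c3 k).trans (xe (k + 1))
  have R5h : ∀ k, xi (k + 2) * (h k - 1) = h k - 1 := by
    intro k
    have e : h k - 1 = -((g k - 1) * h k) := by rw [sub_mul, gh, one_mul, neg_sub]
    rw [e, mul_neg, ← mul_assoc, (R5 k).2]
  -- anything fixed by a plateau is still fixed after applying `g`
  have fixg : ∀ (x u y : A), x * (u - 1) = u - 1 → x * y = y → x * (u * y) = u * y := by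
    intro x u y h1 h2
    have : x * (u * y) = x * y + x * (u - 1) * y := by noncomm_ring
    rw [this, h1, h2]; noncomm_ring
  have ejj : ∀ k, et k * j k * (j (k + 1) * j (k + 1)) = et k * j k := by
    intro k
    rw [← R4r k, mul_assoc, ((xe (k + 1)).trans (R3 (k + 1))).1]
  have xg : ∀ k, xi k * g k = xi k * (j k * j (k + 1)) := by
    intro k
    rw [← (xe k).1, mul_assoc, ← R2, mul_assoc]
  have xjx : ∀ k, xi k * j k * xi (k + 1) = xi k * j k := by
    intro k
    rw [← (xe k).1, mul_assoc (xi k), mul_assoc (xi k), R4r]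
  set d := dl ch (k + 1) with hd
  have hd' : d = ch (k + 4) - ch (k + 2) := rfl
  set z := h (k + 2) * d with hz
  have xd : xi (k + 2) * d = 0 := by
    rw [hd', mul_sub, (c1 (k + 2)).1, ((c1 (k + 2)).trans ((cc (k + 2)).trans (cc (k + 3)))).1, sub_self]
  have ed : et (k + 4) * d = d := by
    rw [hd', mul_sub, (c2 (k + 4)).2,
      (((cc (k + 2)).trans (cc (k + 3))).trans (c2 (k + 4))).2]
  have ez : et (k + 4) * z = z := by
    apply fixg _ _ _ _ ed
    rw [← R5h (k + 2), ← mul_assoc, (xe (k + 4)).2]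
  have gz : g (k + 2) * z = d := by rw [hz, ← mul_assoc, gh, one_mul]
  have hy : DF g h j (k + 1) * d = g (k + 1) * (g (k + 3) * (j (k + 4) * z)) := by
    rw [DF, hz]; simp only [mul_assoc]
  rw [hy]
  set y := g (k + 1) * (g (k + 3) * (j (k + 4) * z)) with hyd
  have al : xi (k + 5) * y = y := by
    apply fixg
    · exact ((R5 (k + 1)).trans ((xx (k + 3)).trans (xx (k + 4)))).2
    apply fixg
    · exact (R5 (k + 3)).2
    rw [← ez, ← mul_assoc (j (k + 4)), ← mul_assoc, R4l]
  have xjjz : xi (k + 2) * (j (k + 2) * j (k + 3)) * z = 0 := by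
    rw [← xg, mul_assoc, gz, xd]
  have be : et (k + 1) * y = 0 := by
    have e1 : et (k + 1) * g (k + 1) = et (k + 1) * j (k + 1) * (xi (k + 2) * j (k + 2)) := by
      rw [← R2, ← mul_assoc, ← mul_assoc, R4r]
    have e2 : xi (k + 2) * j (k + 2) * g (k + 3) =
        xi (k + 2) * j (k + 2) * (j (k + 3) * j (k + 4)) := by
      rw [← xjx (k + 2), mul_assoc _ (xi (k + 3)), xg, ← mul_assoc]
    have e3 : xi (k + 2) * j (k + 2) * et (k + 3) = xi (k + 2) * j (k + 2) := by
      rw [← xjx (k + 2), mul_assoc _ (xi (k + 3)), (xe (k + 3)).1]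
    have e4 : xi (k + 2) * j (k + 2) * (j (k + 3) * j (k + 4)) * j (k + 4) =
        xi (k + 2) * (j (k + 2) * j (k + 3)) := by
      calc xi (k + 2) * j (k + 2) * (j (k + 3) * j (k + 4)) * j (k + 4)
          = xi (k + 2) * j (k + 2) * et (k + 3) * (j (k + 3) * j (k + 4)) * j (k + 4) := by rw [e3]
        _ = xi (k + 2) * j (k + 2) * (et (k + 3) * j (k + 3) * (j (k + 4) * j (k + 4))) := by
            simp only [mul_assoc]
        _ = xi (k + 2) * j (k + 2) * et (k + 3) * j (k + 3) := by rw [ejj]; simp only [mul_assoc]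
        _ = _ := by rw [e3, mul_assoc]
    calc et (k + 1) * y = et (k + 1) * g (k + 1) * (g (k + 3) * (j (k + 4) * z)) := by
          rw [hyd]; simp only [mul_assoc]
      _ = et (k + 1) * j (k + 1) * (xi (k + 2) * j (k + 2) * g (k + 3) * j (k + 4) * z) := by
          rw [e1]; simp only [mul_assoc]
      _ = 0 := by rw [e2, e4, xjjz, mul_zero]
  have c5y : ch (k + 5) * y = y := by rw [← al, ← mul_assoc, (c1 (k + 5)).2]
  have c1y : ch (k + 1) * y = 0 := by rw [← (c2 (k + 1)).1, mul_assoc, be, mul_zero]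
  have d0 : dl ch k * y = ch (k + 3) * y := by rw [dl, sub_mul, c1y, sub_zero]
  have d2 : dl ch (k + 2) * y = y - ch (k + 3) * y := by
    rw [dl, sub_mul]; exact congrArg (· - _) c5y
  refine ⟨al, be, by rw [add_mul, d0, d2]; abel, ?_⟩
  have gc : Ab (g (k + 1) - 1) (ch (k + 3)) := (R5 (k + 1)).trans (c1 (k + 3))
  have cgj : ch (k + 3) * (g (k + 3) * (j (k + 4) * z)) = ch (k + 3) * (j (k + 3) * z) := by
    calc ch (k + 3) * (g (k + 3) * (j (k + 4) * z))
        = ch (k + 3) * (et (k + 3) * g (k + 3)) * (j (k + 4) * z) := by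
          rw [← mul_assoc (ch (k + 3)) (et (k + 3)), (c2 (k + 3)).1]; simp only [mul_assoc]
      _ = ch (k + 3) * (et (k + 3) * j (k + 3) * (j (k + 4) * j (k + 4))) * z := by
          rw [← R2]; simp only [mul_assoc]
      _ = _ := by rw [ejj, ← mul_assoc (ch (k + 3)), (c2 (k + 3)).1, mul_assoc]
  have ga : ch (k + 3) * y = g (k + 1) * (ch (k + 3) * (j (k + 3) * z)) := by
    have e1 : ch (k + 3) * g (k + 1) = g (k + 1) * ch (k + 3) := by
      have a1 : ch (k + 3) * g (k + 1) = ch (k + 3) + ch (k + 3) * (g (k + 1) - 1) := by noncomm_ring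
      have a2 : g (k + 1) * ch (k + 3) = ch (k + 3) + (g (k + 1) - 1) * ch (k + 3) := by noncomm_ring
      rw [a1, a2, gc.1, gc.2]
    rw [hyd, ← mul_assoc, e1, mul_assoc, cgj]
  have ep : y - ch (k + 3) * y =
      g (k + 3) * (j (k + 4) * z) - ch (k + 3) * (j (k + 3) * z) := by
    have a1 : y - ch (k + 3) * y = ((g (k + 1) - 1) - ch (k + 3) * (g (k + 1) - 1)) *
        (g (k + 3) * (j (k + 4) * z)) + (g (k + 3) * (j (k + 4) * z) -
          ch (k + 3) * (g (k + 3) * (j (k + 4) * z))) := by rw [hyd]; noncomm_ring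
    rw [a1, gc.2, cgj]; simp
  set Q := g (k + 2) * (j (k + 3) * (ch (k + 3) * (j (k + 3) * z))) with hQ
  have t1 : DF g h j k * dl ch k * y = g k * Q := by
    rw [mul_assoc, d0, ga, DF, hQ]
    calc g k * g (k + 2) * j (k + 3) * h (k + 1) * (g (k + 1) * (ch (k + 3) * (j (k + 3) * z)))
        = g k * g (k + 2) * j (k + 3) * (h (k + 1) * g (k + 1)) * (ch (k + 3) * (j (k + 3) * z)) := by
          simp only [mul_assoc]
      _ = _ := by rw [hg]; simp only [mul_assoc, one_mul]
  have t2 : DF g h j (k + 2) * (g (k + 3) * (j (k + 4) * z)) = d := by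
    calc DF g h j (k + 2) * (g (k + 3) * (j (k + 4) * z))
        = g (k + 2) * g (k + 4) * j (k + 5) * (h (k + 3) * g (k + 3)) * (j (k + 4) * (et (k + 4) * z)) := by
          rw [ez, DF]; simp only [mul_assoc]
      _ = g (k + 2) * (g (k + 4) * (j (k + 5) * j (k + 4)) * et (k + 4) * z) := by
          rw [hg]; simp only [mul_assoc, one_mul]
      _ = d := by rw [R1, ez, gz]
  have t3 : DF g h j (k + 2) * ch (k + 3) = g (k + 2) * (j (k + 3) * ch (k + 3)) := by
    have a1 : h (k + 3) * et (k + 3) = j (k + 4) * j (k + 3) * et (k + 3) := by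
      calc h (k + 3) * et (k + 3) = h (k + 3) * (g (k + 3) * (j (k + 4) * j (k + 3)) * et (k + 3)) := by
            rw [R1]
        _ = h (k + 3) * g (k + 3) * (j (k + 4) * j (k + 3) * et (k + 3)) := by simp only [mul_assoc]
        _ = _ := by rw [hg, one_mul]
    have a2 : et (k + 4) * (j (k + 3) * et (k + 3)) = j (k + 3) * et (k + 3) := by
      rw [← R4l (k + 3), ← mul_assoc, (xe (k + 4)).2]
    calc DF g h j (k + 2) * ch (k + 3)
        = g (k + 2) * g (k + 4) * j (k + 5) * (h (k + 3) * et (k + 3)) * ch (k + 3) := by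
          rw [DF]; conv_lhs => rw [← (c2 (k + 3)).2]
          simp only [mul_assoc]
      _ = g (k + 2) * (g (k + 4) * (j (k + 5) * j (k + 4)) * (et (k + 4) * (j (k + 3) * et (k + 3)))) *
            ch (k + 3) := by rw [a1, a2]; simp only [mul_assoc]
      _ = g (k + 2) * (j (k + 3) * (et (k + 3) * ch (k + 3))) := by
          rw [← mul_assoc _ (et (k + 4)), R1, a2]; simp only [mul_assoc]
      _ = _ := by rw [(c2 (k + 3)).2]
  have t4 : DF g h j (k + 2) * dl ch (k + 2) * y = d - Q := by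
    rw [mul_assoc, d2, ep, mul_sub, t2, ← mul_assoc _ (ch (k + 3)), t3, hQ]; simp only [mul_assoc]
  have t5 : xi (k + 2) * Q = 0 := by
    have a1 : j (k + 3) * j (k + 3) * ch (k + 3) = ch (k + 3) := ((c2 (k + 3)).trans (R3 (k + 3))).2
    have a2 : xi (k + 2) * j (k + 2) * ch (k + 3) = xi (k + 2) * j (k + 2) := by
      rw [← xjx (k + 2), mul_assoc _ (xi (k + 3)), (c1 (k + 3)).1]
    calc xi (k + 2) * Q = xi (k + 2) * g (k + 2) * (j (k + 3) * (ch (k + 3) * (j (k + 3) * z))) := by
          rw [hQ]; simp only [mul_assoc]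
      _ = xi (k + 2) * j (k + 2) * (j (k + 3) * j (k + 3) * ch (k + 3)) * (j (k + 3) * z) := by
          rw [xg]; simp only [mul_assoc]
      _ = xi (k + 2) * (j (k + 2) * j (k + 3)) * z := by rw [a1, a2]; simp only [mul_assoc]
      _ = 0 := xjjz
  have t6 : g k * Q = Q := by
    have a1 : g k * Q = Q + (g k - 1) * Q := by noncomm_ring
    rw [a1, ← (R5 k).1, mul_assoc, t5]; simp
  rw [add_mul, t1, t4, t6]; abel

end Pool.Agent.MP_7ca887_an.AP
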