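import Pool.Agent.MP_7ca887_an.ap.Fin
import Pool.Agent.MP_7ca887_an.ap.Alg

/-! Cutoff systems and the choice of catalysts. -/

set_option autoImplicit false

open Filter Topology

namespace Pool.Agent.MP_7ca887_an.AP

variable {W : Type*} [NormedAddCommGroup W] [NormedSpace ℝ W]

/-- admissible index chains -/
def Adm (α : ℕ → ℕ) : Prop := Monotone α ∧ ∀ k, α k = 0 ∨ k ≤ α k

/-- a system of cutoffs that commute with `s` -/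
structure Cuts (W : Type*) [NormedAddCommGroup W] [NormedSpace ℝ W] (s : W →L[ℝ] W) where
  c : ℕ → W →L[ℝ] W
  c0 : c 0 = 0
  fin : ∀ n, c n ∈ FR W W
  bd : ∀ n, ‖c n‖ ≤ 2
  even : ∀ n, s * c n = c n * s
  sot : ∀ w, Tendsto (fun n => c n w) atTop (𝓝 w)
  adj : ∀ f : W →L[ℝ] ℝ, Tendsto (fun n => ‖f.comp (1 - c n)‖) atTop (𝓝 0)
  unc : ∃ C : ℝ, ∀ α β : ℕ → ℕ, Adm α → Adm β → ∀ T : ℕ → W →L[ℝ] W, (∀ k, ‖T k‖ ≤ 1) →
    ∀ S : Finset ℕ, ‖∑ k ∈ S, (c (α (k + 1)) - c (α k)) * T k * (c (β (k + 1)) - c (β k))‖ ≤ C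

variable {s : W →L[ℝ] W}

theorem Cuts.absl (𝒞 : Cuts W s) {a : W →L[ℝ] W} (ha : a ∈ FR W W) :
    Tendsto (fun n => ‖𝒞.c n * a - a‖) atTop (𝓝 0) := by
  have := FR.tendsto_left (T := fun n => 𝒞.c n - 1) (l := atTop)
    (fun w => by simpa using (𝒞.sot w).sub_const w) ha
  refine this.congr fun n => ?_
  change ‖(𝒞.c n - 1) * a‖ = _
  rw [sub_mul, one_mul]

theorem Cuts.absr' (𝒞 : Cuts W s) {a : W →L[ℝ] W} (ha : a ∈ FR W W) :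
    Tendsto (fun n => ‖a * (1 - 𝒞.c n)‖) atTop (𝓝 0) :=
  FR.tendsto_right (T := fun n => 1 - 𝒞.c n) 𝒞.adj ha

theorem Cuts.absr (𝒞 : Cuts W s) {a : W →L[ℝ] W} (ha : a ∈ FR W W) :
    Tendsto (fun n => ‖a * 𝒞.c n - a‖) atTop (𝓝 0) := by
  refine (𝒞.absr' ha).congr fun n => ?_
  rw [mul_sub, mul_one, norm_sub_rev]

/-- each cutoff absorbs the earlier ones -/
def Cuts.Sparse (𝒞 : Cuts W s) : Prop :=
  ∀ m n, m < n → ‖𝒞.c m * 𝒞.c n - 𝒞.c m‖ ≤ (1 / 4) ^ n ∧ ‖𝒞.c n * 𝒞.c m - 𝒞.c m‖ ≤ (1 / 4) ^ n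

theorem dep_choice {α : Type*} (P : ℕ → α → Prop) (Rel : ℕ → α → α → Prop) (h0 : ∃ x, P 0 x)
    (hs : ∀ k x, P k x → ∃ y, P (k + 1) y ∧ Rel k x y) :
    ∃ f : ℕ → α, ∀ k, P k (f k) ∧ Rel k (f k) (f (k + 1)) := by
  choose! nx hnx using hs
  obtain ⟨x0, hx0⟩ := h0
  let f : ℕ → α := fun k => Nat.rec x0 (fun k x => nx k x) k
  have hP : ∀ k, P k (f k) := by
    intro k
    induction k with
    | zero => exact hx0
    | succ k ih => exact (hnx k _ ih).1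
  exact ⟨f, fun k => ⟨hP k, (hnx k _ (hP k)).2⟩⟩

theorem Cuts.exists_sparse (𝒞 : Cuts W s) : ∃ 𝒟 : Cuts W s, 𝒟.Sparse := by
  have step : ∀ k x : ℕ, ∃ y, x < y ∧ ∀ i ≤ x, ‖𝒞.c i * 𝒞.c y - 𝒞.c i‖ ≤ (1 / 4) ^ (k + 1) ∧
      ‖𝒞.c y * 𝒞.c i - 𝒞.c i‖ ≤ (1 / 4) ^ (k + 1) := by
    intro k x
    have hpos : (0 : ℝ) < (1 / 4) ^ (k + 1) := by positivity
    have h1 : ∀ᶠ y in atTop, ∀ i ∈ Finset.range (x + 1),
        ‖𝒞.c i * 𝒞.c y - 𝒞.c i‖ ≤ (1 / 4) ^ (k + 1) ∧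
        ‖𝒞.c y * 𝒞.c i - 𝒞.c i‖ ≤ (1 / 4) ^ (k + 1) := by
      rw [eventually_all_finset]
      intro i _
      exact ((𝒞.absr (𝒞.fin i)).eventually (ge_mem_nhds hpos)).and
        ((𝒞.absl (𝒞.fin i)).eventually (ge_mem_nhds hpos))
    obtain ⟨y, hy1, hy2⟩ := (h1.and (eventually_gt_atTop x)).exists
    exact ⟨y, hy2, fun i hi => hy1 i (Finset.mem_range.2 (Nat.lt_succ_of_le hi))⟩
  obtain ⟨κ, hκ⟩ := dep_choice (fun k x => k = 0 → x = 0)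
    (fun k x y => x < y ∧ ∀ i ≤ x, ‖𝒞.c i * 𝒞.c y - 𝒞.c i‖ ≤ (1 / 4) ^ (k + 1) ∧
      ‖𝒞.c y * 𝒞.c i - 𝒞.c i‖ ≤ (1 / 4) ^ (k + 1)) ⟨0, fun _ => rfl⟩
    (fun k x _ => by
      obtain ⟨y, hy⟩ := step k x
      exact ⟨y, fun h => absurd h (Nat.succ_ne_zero k), hy⟩)
  have hm : StrictMono κ := strictMono_nat_of_lt_succ fun k => (hκ k).2.1
  have h0 : κ 0 = 0 := (hκ 0).1 rfl
  have adm : ∀ α, Adm α → Adm (κ ∘ α) := by
    intro α hα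
    refine ⟨hm.monotone.comp hα.1, fun k => ?_⟩
    rcases hα.2 k with h | h
    · left; simp [h, h0]
    · right; exact h.trans (hm.le_apply)
  refine ⟨{ c := fun n => 𝒞.c (κ n)
            c0 := by rw [h0, 𝒞.c0]
            fin := fun n => 𝒞.fin _
            bd := fun n => 𝒞.bd _
            even := fun n => 𝒞.even _
            sot := fun w => (𝒞.sot w).comp hm.tendsto_atTop
            adj := fun f => (𝒞.adj f).comp hm.tendsto_atTop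
            unc := ?_ }, ?_⟩
  · obtain ⟨C, hC⟩ := 𝒞.unc
    exact ⟨C, fun α β hα hβ T hT S => hC _ _ (adm α hα) (adm β hβ) T hT S⟩
  · intro m n hmn
    obtain ⟨n, rfl⟩ : ∃ n', n = n' + 1 := ⟨n - 1, by omega⟩
    exact (hκ n).2.2 _ (hm.monotone (by omega))

/-- the relations that the catalysts have to satisfy up to `δ` -/
def Atom (c J : ℕ → W →L[ℝ] W) (θ a b : W →L[ℝ] W) (lo : ℕ) (δ : ℝ) (t s' r μ ν : ℕ) : Prop :=
  lo < t ∧ t < s' ∧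
  ‖c t * (b * a * θ) - b * a * θ‖ ≤ δ ∧ ‖θ * (a * b) * c t - θ * (a * b)‖ ≤ δ ∧
  ‖θ * (b * a) * θ - θ * J μ * c r * J μ * θ‖ ≤ δ ∧ ‖J μ * J μ * θ - θ‖ ≤ δ ∧
  ‖c s' * rho θ (c r) (J μ) (J ν) - 0‖ ≤ δ ∧
  ‖J ν * rho θ (c r) (J μ) (J ν) - (1 - c r) * J μ * θ‖ ≤ δ

theorem sq_left {J : ℕ → W →L[ℝ] W} (sot : ∀ w, Tendsto (fun m => J m (J m w)) atTop (𝓝 w))
    {a : W →L[ℝ] W} (ha : a ∈ FR W W) :
    Tendsto (fun m => ‖J m * J m * a - a‖) atTop (𝓝 0) := by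
  have := FR.tendsto_left (T := fun n => J n * J n - 1) (l := atTop)
    (fun w => by simpa using (sot w).sub_const w) ha
  refine this.congr fun n => ?_
  change ‖(J n * J n - 1) * a‖ = _
  rw [sub_mul, one_mul]

theorem cat_exists (𝒞 : Cuts W s) {J : ℕ → W →L[ℝ] W} {K : ℝ} (hK : ∀ m, ‖J m‖ ≤ K)
    (sot : ∀ w, Tendsto (fun m => J m (J m w)) atTop (𝓝 w))
    {θ : W →L[ℝ] W} (hθ : θ ∈ FR W W) (lo : ℕ) {δ : ℝ} (hδ : 0 < δ) :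
    ∀ᶠ n in (hyperfilter ℕ : Filter ℕ), ∀ᶠ m in (hyperfilter ℕ : Filter ℕ),
      ∃ t s' r μ ν, Atom 𝒞.c J θ (J n) (J m) lo δ t s' r μ ν := by
  have hU : (hyperfilter ℕ : Filter ℕ) ≤ atTop := Nat.hyperfilter_le_atTop
  have lim : ∀ {a : W →L[ℝ] W}, a ∈ FR W W → ∃ τ ∈ FR W W, ∀ {z : W →L[ℝ] W}, z ∈ FR W W →
      Tendsto (fun m => ‖(a * J m - τ) * z‖) (hyperfilter ℕ : Filter ℕ) (𝓝 0) := by
    intro a ha
    obtain ⟨τ, hτ, h⟩ := FR.ulim (hyperfilter ℕ) J K hK ha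
    exact ⟨τ, hτ, fun hz => FR.tendsto_left (T := fun m => a * J m - τ)
      (fun w => by simpa using (h w).sub_const (τ w)) hz⟩
  have h5 : 0 < δ / 5 := by positivity
  have h2 : 0 < δ / 2 := by positivity
  have hJθ : ∀ m, ‖J m * θ‖ ≤ K * ‖θ‖ := fun m =>
    (norm_mul_le _ _).trans (by gcongr; exact hK m)
  obtain ⟨τ, hτ, hτ'⟩ := lim hθ
  obtain ⟨τ2, -, hτ2⟩ := lim hτ
  filter_upwards [(hτ2 hθ).eventually (ge_mem_nhds h5)] with n hn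
  filter_upwards [(hτ' (FR.mul_left (J n) hθ)).eventually (ge_mem_nhds h5)] with m hm
  obtain ⟨t, ⟨ht1, ht2⟩, ht3⟩ := ((((𝒞.absl (FR.mul_left (J m * J n) hθ)).eventually
    (ge_mem_nhds hδ)).and ((𝒞.absr (FR.mul_right (J n * J m) hθ)).eventually
    (ge_mem_nhds hδ))).and (eventually_gt_atTop lo)).exists
  obtain ⟨τs, hτs, hτs'⟩ := lim (𝒞.fin (t + 1))
  have r1 := ((𝒞.absr' hτ).mul_const (K * ‖θ‖))
  have r2 := ((𝒞.absr' hτs).mul_const (K * ‖θ‖))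
  rw [zero_mul] at r1 r2
  obtain ⟨r, hr1, hr2⟩ := ((r1.eventually (ge_mem_nhds h5)).and
    (r2.eventually (ge_mem_nhds h2))).exists
  have m1 := (hτ' (𝒞.fin r)).mul_const (K * ‖θ‖)
  rw [zero_mul] at m1
  obtain ⟨μ, ⟨hμ1, hμ2⟩, hμ3⟩ := (((m1.eventually (ge_mem_nhds h5)).and
    ((hτ2 hθ).eventually (ge_mem_nhds h5))).and
    (hU ((sq_left sot hθ).eventually (ge_mem_nhds hδ)))).exists
  have hz : (1 - 𝒞.c r) * J μ * θ ∈ FR W W := FR.mul_left _ hθ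
  obtain ⟨ν, hν1, hν2⟩ := (((hτs' hz).eventually (ge_mem_nhds h2)).and
    (hU ((sq_left sot hz).eventually (ge_mem_nhds hδ)))).exists
  refine ⟨t, t + 1, r, μ, ν, ht3, Nat.lt_succ_self t, ht1, ht2, ?_, hμ3, ?_, ?_⟩
  · have e : θ * (J m * J n) * θ - θ * J μ * 𝒞.c r * J μ * θ =
        (θ * J m - τ) * (J n * θ) + (τ * J n - τ2) * θ - (τ * J μ - τ2) * θ +
          τ * (1 - 𝒞.c r) * (J μ * θ) - (θ * J μ - τ) * 𝒞.c r * (J μ * θ) := by noncomm_ring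
    have a1 : ‖τ * (1 - 𝒞.c r) * (J μ * θ)‖ ≤ δ / 5 :=
      (norm_mul_le _ _).trans ((mul_le_mul_of_nonneg_left (hJθ μ) (norm_nonneg _)).trans hr1)
    have a2 : ‖(θ * J μ - τ) * 𝒞.c r * (J μ * θ)‖ ≤ δ / 5 :=
      (norm_mul_le _ _).trans ((mul_le_mul_of_nonneg_left (hJθ μ) (norm_nonneg _)).trans hμ1)
    rw [e]
    have := norm_sub_le_of_le (norm_add_le_of_le (norm_sub_le_of_le (norm_add_le_of_le hm hn) hμ2) a1) a2
    linarith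
  · have e : 𝒞.c (t + 1) * rho θ (𝒞.c r) (J μ) (J ν) - 0 =
        (𝒞.c (t + 1) * J ν - τs) * ((1 - 𝒞.c r) * J μ * θ) + τs * (1 - 𝒞.c r) * (J μ * θ) := by
      rw [rho]; noncomm_ring
    have a1 : ‖τs * (1 - 𝒞.c r) * (J μ * θ)‖ ≤ δ / 2 :=
      (norm_mul_le _ _).trans ((mul_le_mul_of_nonneg_left (hJθ μ) (norm_nonneg _)).trans hr2)
    rw [e]
    have := norm_add_le_of_le hν1 a1
    linarith
  · have e : J ν * rho θ (𝒞.c r) (J μ) (J ν) = J ν * J ν * ((1 - 𝒞.c r) * J μ * θ) := by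
      rw [rho]; simp only [mul_assoc]
    rw [e]; exact hν2

theorem gF_fin {a b e1 e2 th cs cr jm jn : W →L[ℝ] W} (h1 : e1 ∈ FR W W) (h2 : e2 ∈ FR W W)
    (ht : th ∈ FR W W) : gF a b e1 e2 th cs cr jm jn - 1 ∈ FR W W := by
  have key : ∀ x y : W →L[ℝ] W, x - 1 ∈ FR W W → y - 1 ∈ FR W W → x * y - 1 ∈ FR W W := by
    intro x y hx hy
    have : x * y - 1 = (x - 1) * y + (y - 1) := by noncomm_ring
    rw [this]; exact add_mem (FR.mul_right _ hx) hy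
  unfold gF g3
  refine key _ _ ?_ (key _ _ (key _ _ ?_ ?_) ?_)
  · rw [add_sub_cancel_left]; exact FR.mul_right _ h1
  · rw [sub_sub_cancel_left]; exact neg_mem (FR.mul_left _ h2)
  · rw [add_sub_cancel_left, sig, mul_assoc, mul_assoc]; exact FR.mul_right _ ht
  · rw [add_sub_cancel_left]; exact FR.mul_right _ (FR.mul_left _ ht)

end Pool.Agent.MP_7ca887_an.AP
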