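import Pool.Agent.MP_7ca887_an.ap.Alg

/-! Gluing the localized pieces to two global operators. -/

set_option autoImplicit false

open Filter Topology Finset

namespace Pool.Agent.MP_7ca887_an.AP

variable {W : Type*} [NormedAddCommGroup W] [NormedSpace ℝ W]

theorem sot_lim [CompleteSpace W] (P : ℕ → W →L[ℝ] W) (B : ℝ) (hB : ∀ n, ‖P n‖ ≤ B)
    (hd : ∀ w ε, 0 < ε → ∃ v, ‖w - v‖ ≤ ε ∧ CauchySeq fun n => P n v) :
    ∃ T : W →L[ℝ] W, ∀ w, Tendsto (fun n => P n w) atTop (𝓝 (T w)) := by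
  have hB0 : 0 ≤ B := (norm_nonneg _).trans (hB 0)
  have hc : ∀ w, CauchySeq fun n => P n w := by
    intro w
    rw [Metric.cauchySeq_iff]
    intro ε hε
    obtain ⟨v, hv, hv'⟩ := hd w (ε / (4 * (B + 1))) (by positivity)
    obtain ⟨M, hM⟩ := Metric.cauchySeq_iff.1 hv' (ε / 2) (by positivity)
    refine ⟨M, fun m hm n hn => ?_⟩
    have h1 := hM m hm n hn
    rw [dist_eq_norm] at h1 ⊢
    have h2 : ∀ k, ‖P k (w - v)‖ ≤ ε / 4 := fun k => by
      calc ‖P k (w - v)‖ ≤ ‖P k‖ * ‖w - v‖ := (P k).le_opNorm _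
        _ ≤ (B + 1) * (ε / (4 * (B + 1))) := by
            gcongr; exact (hB k).trans (by linarith)
        _ = ε / 4 := by field_simp
    have e : P m w - P n w = (P m v - P n v) + P m (w - v) - P n (w - v) := by
      simp only [map_sub]; abel
    rw [e]
    have := norm_sub_le_of_le (norm_add_le_of_le (le_refl ‖P m v - P n v‖) (h2 m)) (h2 n)
    linarith
  choose f hf using fun w => cauchySeq_tendsto_of_complete (hc w)
  refine ⟨ContinuousLinearMap.ofTendstoOfBoundedRange (l := atTop) f P (tendsto_pi_nhds.2 hf) ?_, hf⟩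
  exact isBounded_iff_forall_norm_le.2 ⟨B, by rintro _ ⟨n, rfl⟩; exact hB n⟩

theorem sot_le {P : ℕ → W →L[ℝ] W} {T : W →L[ℝ] W} (h : ∀ w, Tendsto (fun n => P n w) atTop (𝓝 (T w)))
    {e : ℝ} (he : ∀ n, ‖P n‖ ≤ e) : ‖T‖ ≤ e := by
  refine ContinuousLinearMap.opNorm_le_bound _ ((norm_nonneg _).trans (he 0)) fun w => ?_
  exact le_of_tendsto' (h w).norm fun n => ((P n).le_opNorm w).trans (by gcongr; exact he n)

theorem geo (S : Finset ℕ) : ∑ t ∈ S, ((1 : ℝ) / 2) ^ t ≤ 2 := by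
  exact (summable_geometric_two.sum_le_tsum S fun _ _ => by positivity).trans tsum_geometric_two.le

theorem half_anti {k l : ℕ} (h : k ≤ l) : ((1 : ℝ) / 2) ^ l ≤ (1 / 2) ^ k :=
  pow_le_pow_of_le_one (by norm_num) (by norm_num) h

theorem geo_sum {x : ℕ → W →L[ℝ] W} {e : ℝ} (S : Finset ℕ) (h : ∀ t, ‖x t‖ ≤ e * (1 / 2) ^ t) :
    ‖∑ t ∈ S, x t‖ ≤ 2 * e := by
  have he : 0 ≤ e := by simpa using (norm_nonneg _).trans (h 0)
  calc ‖∑ t ∈ S, x t‖ ≤ ∑ t ∈ S, e * (1 / 2) ^ t := norm_sum_le_of_le _ fun t _ => h t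
    _ = e * ∑ t ∈ S, (1 / 2) ^ t := by rw [Finset.mul_sum]
    _ ≤ e * 2 := by gcongr; exact geo S
    _ = 2 * e := by ring

/-- sum of the earlier pieces of the same parity -/
def Hd {A : Type*} [Ring A] (a : ℕ → A) : ℕ → A
  | 0 => 0
  | 1 => 0
  | k + 2 => Hd a k + a k

theorem glue [CompleteSpace W] (D ch xi et a : ℕ → W →L[ℝ] W) (ha : ∀ k, a k = D k * dl ch k)
    {C B ε : ℝ} (hε : 0 ≤ ε) (hε1 : ε ≤ 1) (hD : ∀ k, ‖D k‖ ≤ C)
    (unc : ∀ r (S : Finset ℕ),
      ‖∑ t ∈ S, (dl ch (2 * t + r) + dl ch (2 * t + r + 2)) * a (2 * t + r + 1)‖ ≤ B)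
    (e1 : ∀ k, ‖xi (k + 5) * a (k + 1) - a (k + 1)‖ ≤ ε * (1 / 2) ^ k)
    (e2 : ∀ k, ‖et (k + 1) * a (k + 1)‖ ≤ ε * (1 / 2) ^ k)
    (e3 : ∀ k, ‖(dl ch k + dl ch (k + 2)) * a (k + 1) - a (k + 1)‖ ≤ ε * (1 / 2) ^ k)
    (e4 : ∀ k, ‖(a k + a (k + 2)) * a (k + 1) - dl ch (k + 1)‖ ≤ ε * (1 / 2) ^ k)
    (z1 : ch 1 = 0) (z2 : ch 2 = 0) (z3 : ch 3 = 0)
    (sc : ∀ w, Tendsto (fun k => ch k w) atTop (𝓝 w))
    (sx : ∀ w, Tendsto (fun k => xi k w) atTop (𝓝 w))
    (up : ∀ k l, k ≤ l → ‖ch l * xi k - xi k‖ ≤ ε * (1 / 2) ^ l)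
    (dn : ∀ k l, l ≤ k → ‖ch l * et k - ch l‖ ≤ ε * (1 / 4) ^ k) :
    ∃ u v : W →L[ℝ] W,
      (∀ w, Tendsto (fun n => (∑ t ∈ range n, a (2 * t + 0 + 1)) w) atTop (𝓝 (u w))) ∧
      ‖v * u - 1‖ ≤ 2 * ((6 * C + 5) * (B + 2) * ε) ∧ ‖u * v - 1‖ ≤ 2 * ((6 * C + 5) * (B + 2) * ε) := by
  have hC : 0 ≤ C := (norm_nonneg _).trans (hD 0)
  have hB : 0 ≤ B := (norm_nonneg _).trans (unc 0 ∅)
  have ps : ∀ r (S : Finset ℕ), ‖∑ t ∈ S, a (2 * t + r + 1)‖ ≤ B + 2 := by
    intro r S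
    have e : ∑ t ∈ S, a (2 * t + r + 1) =
        ∑ t ∈ S, (dl ch (2 * t + r) + dl ch (2 * t + r + 2)) * a (2 * t + r + 1) -
        ∑ t ∈ S, ((dl ch (2 * t + r) + dl ch (2 * t + r + 2)) * a (2 * t + r + 1) -
          a (2 * t + r + 1)) := by
      rw [← Finset.sum_sub_distrib]; simp
    have h2 := geo_sum (e := ε) S (fun t => (e3 (2 * t + r)).trans
      (mul_le_mul_of_nonneg_left (half_anti (by omega : t ≤ 2 * t + r)) hε))
    rw [e]
    exact (norm_sub_le_of_le (unc r S) h2).trans (by linarith)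
  have ab : ∀ k, ‖a (k + 1)‖ ≤ B + 2 := fun k => by simpa using ps k {0}
  have a0 : a 0 = 0 := by rw [ha, dl, z3, z1]; simp
  have ab' : ∀ k, ‖a k‖ ≤ B + 2 := by
    rintro (_ | k)
    · rw [a0, norm_zero]; positivity
    · exact ab k
  have ax : ∀ k l, k ≤ l + 1 → ‖a l * xi k‖ ≤ 2 * C * ε * (1 / 2) ^ l := by
    intro k l h
    have e : a l * xi k = D l * ((ch (l + 3) * xi k - xi k) - (ch (l + 1) * xi k - xi k)) := by
      rw [ha, dl]; noncomm_ring
    have h1 := (up k (l + 3) (by omega)).trans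
      (mul_le_mul_of_nonneg_left (half_anti (by omega : l ≤ l + 3)) hε)
    have h2 := (up k (l + 1) (by omega)).trans
      (mul_le_mul_of_nonneg_left (half_anti (by omega : l ≤ l + 1)) hε)
    rw [e]
    refine (norm_mul_le _ _).trans ?_
    calc _ ≤ C * (ε * (1 / 2) ^ l + ε * (1 / 2) ^ l) :=
          mul_le_mul (hD l) (norm_sub_le_of_le h1 h2) (norm_nonneg _) hC
      _ = _ := by ring
  have exT : ∀ r, ∃ T : W →L[ℝ] W,
      ∀ w, Tendsto (fun n => (∑ t ∈ range n, a (2 * t + r + 1)) w) atTop (𝓝 (T w)) := by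
    intro r
    refine sot_lim _ (B + 2) (fun n => ps r _) fun w η hη => ?_
    obtain ⟨k, hk⟩ := (Metric.tendsto_atTop.1 (sx w) η hη)
    refine ⟨xi k w, by rw [← dist_eq_norm, dist_comm]; exact (hk k le_rfl).le, ?_⟩
    have hs : Summable fun t => a (2 * t + r + 1) (xi k w) := by
      refine (summable_geometric_two.mul_left (2 * C * ε * ‖w‖)).of_norm_bounded_eventually_nat ?_
      filter_upwards [eventually_ge_atTop k] with t ht
      calc ‖a (2 * t + r + 1) (xi k w)‖ = ‖(a (2 * t + r + 1) * xi k) w‖ := rfl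
        _ ≤ ‖a (2 * t + r + 1) * xi k‖ * ‖w‖ := ContinuousLinearMap.le_opNorm _ _
        _ ≤ 2 * C * ε * (1 / 2) ^ t * ‖w‖ := by
            gcongr
            exact (ax k _ (by omega)).trans
              (mul_le_mul_of_nonneg_left (half_anti (by omega)) (by positivity))
        _ = _ := by ring
    simpa only [_root_.sum_apply] using hs.hasSum.tendsto_sum_nat.cauchySeq
  choose T hT using exT
  have Tb : ∀ r, ‖T r‖ ≤ B + 2 := fun r => sot_le (hT r) fun n => ps r _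
  have Trec : ∀ r, T r = a (r + 1) + T (r + 2) := by
    intro r
    ext w
    refine tendsto_nhds_unique ((hT r w).comp (tendsto_add_atTop_nat 1)) ?_
    refine ((hT (r + 2) w).const_add (a (r + 1) w)).congr fun n => ?_
    simp only [Function.comp, Finset.sum_range_succ', _root_.add_apply]
    rw [add_comm]
    congr 2
    · refine Finset.sum_congr rfl fun t _ => ?_
      congr 1; ring
    · simp
  have Tx : ∀ k, ‖T (k + 3) * xi (k + 5)‖ ≤ 2 * (2 * C * ε * (1 / 2) ^ k) := by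
    intro k
    refine sot_le (P := fun n => (∑ t ∈ range n, a (2 * t + (k + 3) + 1)) * xi (k + 5))
      (T := T (k + 3) * xi (k + 5)) (fun w => hT (k + 3) (xi (k + 5) w)) fun n => ?_
    rw [Finset.sum_mul]
    refine geo_sum _ fun t => (ax _ _ (by omega)).trans ?_
    rw [mul_assoc _ ((1 / 2 : ℝ) ^ k), ← pow_add]
    exact mul_le_mul_of_nonneg_left (half_anti (by omega)) (by positivity)
  have full : ∀ k, Hd a (k + 2) + a (k + 2) + T (k + 2 + 1) = Hd a k + a k + T (k + 1) := by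
    intro k
    rw [Trec (k + 1), Hd, add_assoc]
  have f0 : Hd a 0 + a 0 + T (0 + 1) = T 1 := by simp [Hd, a0]
  have f1 : Hd a 1 + a 1 + T (1 + 1) = T 0 := by rw [Trec 0]; simp [Hd]
  have fullr : ∀ r t, Hd a (2 * t + r) + a (2 * t + r) + T (2 * t + r + 1) =
      Hd a r + a r + T (r + 1) := by
    intro r t
    induction t with
    | zero => simp
    | succ t ih => rw [show 2 * (t + 1) + r = 2 * t + r + 2 by ring, full, ih]
  have Hb : ∀ k, ‖Hd a k‖ ≤ 3 * (B + 2) := by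
    intro k
    have e : Hd a k = (Hd a k + a k + T (k + 1)) - a k - T (k + 1) := by abel
    have h1 : ‖Hd a k + a k + T (k + 1)‖ ≤ B + 2 := by
      obtain ⟨t, rfl | rfl⟩ := Nat.even_or_odd' k
      · have := fullr 0 t; rw [add_zero, f0] at this; rw [this]; exact Tb _
      · rw [fullr 1 t, f1]; exact Tb _
    rw [e]
    exact (norm_sub_le_of_le (norm_sub_le_of_le h1 (ab' k)) (Tb _)).trans (by linarith)
  have He : ∀ (z : W →L[ℝ] W) (e : ℝ), 0 ≤ e → ∀ k, (∀ l, l + 2 ≤ k → ‖a l * z‖ ≤ e) →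
      ‖Hd a k * z‖ ≤ k * e := by
    intro z e he k
    induction k using Nat.twoStepInduction with
    | zero => intro _; simp [Hd]
    | one => intro _; simpa [Hd] using he
    | more k ih _ =>
      intro h
      rw [Hd, add_mul]
      refine (norm_add_le_of_le (ih fun l hl => h l (by omega)) (h k le_rfl)).trans ?_
      push_cast; nlinarith
  have Hz : ∀ k, ‖Hd a k * (1 - et (k + 1))‖ ≤ 2 * C * ε * (1 / 2) ^ k := by
    intro k
    refine (He _ (2 * C * ε * (1 / 4) ^ (k + 1)) (by positivity) k fun l hl => ?_).trans ?_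
    · have e : a l * (1 - et (k + 1)) = D l * ((ch (l + 1) * et (k + 1) - ch (l + 1)) -
          (ch (l + 3) * et (k + 1) - ch (l + 3))) := by rw [ha, dl]; noncomm_ring
      rw [e]
      refine (norm_mul_le _ _).trans ?_
      calc _ ≤ C * (ε * (1 / 4) ^ (k + 1) + ε * (1 / 4) ^ (k + 1)) :=
            mul_le_mul (hD l) (norm_sub_le_of_le (dn _ _ (by omega)) (dn _ _ (by omega)))
              (norm_nonneg _) hC
        _ = _ := by ring
    · have h1 : (k : ℝ) ≤ 2 ^ k := by exact_mod_cast (Nat.lt_two_pow_self (n := k)).le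
      have h2 : (2 : ℝ) ^ k * (1 / 4) ^ k = (1 / 2) ^ k := by rw [← mul_pow]; norm_num
      have h3 : (k : ℝ) * (1 / 4) ^ (k + 1) ≤ (1 / 2) ^ k := by
        rw [← h2]
        exact mul_le_mul h1 (pow_le_pow_of_le_one (by norm_num) (by norm_num) (Nat.le_succ k))
          (by positivity) (by positivity)
      calc (k : ℝ) * (2 * C * ε * (1 / 4) ^ (k + 1)) = 2 * C * ε * (k * (1 / 4) ^ (k + 1)) := by ring
        _ ≤ _ := by gcongr
  have loc : ∀ k, ‖(Hd a k + a k + T (k + 1)) * a (k + 1) - dl ch (k + 1)‖ ≤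
      (6 * C + 5) * (B + 2) * ε * (1 / 2) ^ k := by
    intro k
    have e : (Hd a k + a k + T (k + 1)) * a (k + 1) - dl ch (k + 1) =
        Hd a k * (1 - et (k + 1)) * a (k + 1) + Hd a k * (et (k + 1) * a (k + 1)) +
        ((a k + a (k + 2)) * a (k + 1) - dl ch (k + 1)) + T (k + 3) * xi (k + 5) * a (k + 1) -
        T (k + 3) * (xi (k + 5) * a (k + 1) - a (k + 1)) := by
      rw [Trec (k + 1)]; noncomm_ring
    have p : (0 : ℝ) ≤ ε * (1 / 2) ^ k := by positivity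
    have h1 : ‖Hd a k * (1 - et (k + 1)) * a (k + 1)‖ ≤ 2 * C * ε * (1 / 2) ^ k * (B + 2) :=
      (norm_mul_le _ _).trans (mul_le_mul (Hz k) (ab k) (norm_nonneg _) (by positivity))
    have h2 : ‖Hd a k * (et (k + 1) * a (k + 1))‖ ≤ 3 * (B + 2) * (ε * (1 / 2) ^ k) :=
      (norm_mul_le _ _).trans (mul_le_mul (Hb k) (e2 k) (norm_nonneg _) (by positivity))
    have h4 : ‖T (k + 3) * xi (k + 5) * a (k + 1)‖ ≤ 2 * (2 * C * ε * (1 / 2) ^ k) * (B + 2) :=
      (norm_mul_le _ _).trans (mul_le_mul (Tx k) (ab k) (norm_nonneg _) (by positivity))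
    have h5 : ‖T (k + 3) * (xi (k + 5) * a (k + 1) - a (k + 1))‖ ≤ (B + 2) * (ε * (1 / 2) ^ k) :=
      (norm_mul_le _ _).trans (mul_le_mul (Tb _) (e1 k) (norm_nonneg _) (by positivity))
    rw [e]
    refine (norm_sub_le_of_le (norm_add_le_of_le (norm_add_le_of_le (norm_add_le_of_le h1 h2)
      (e4 k)) h4) h5).trans ?_
    nlinarith [mul_nonneg hB p]
  have fin : ∀ r, ch (r + 2) = 0 → ‖(Hd a r + a r + T (r + 1)) * T r - 1‖ ≤
      2 * ((6 * C + 5) * (B + 2) * ε) := by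
    intro r hr
    set V := Hd a r + a r + T (r + 1) with hV
    refine sot_le (P := fun n => ∑ t ∈ range n, (V * a (2 * t + r + 1) - dl ch (2 * t + r + 1)))
      (fun w => ?_) fun n => geo_sum _ fun t => ?_
    · have tel : ∀ n, ∑ t ∈ range n, dl ch (2 * t + r + 1) = ch (2 * n + r + 2) := by
        intro n
        induction n with
        | zero => simpa using hr.symm
        | succ n ih =>
          rw [Finset.sum_range_succ, ih, dl, show 2 * (n + 1) + r + 2 = 2 * n + r + 1 + 3 by ring]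
          abel
      have t1 : Tendsto (fun n => ch (2 * n + r + 2) w) atTop (𝓝 w) :=
        (sc w).comp (tendsto_atTop_mono (fun n => by change n ≤ _; omega) tendsto_id)
      have t2 := (V.continuous.tendsto _).comp (hT r w)
      refine (t2.sub t1).congr fun n => ?_
      rw [Finset.sum_sub_distrib, tel, ← Finset.mul_sum]; rfl
    · rw [hV, ← fullr r t]
      exact (loc _).trans (mul_le_mul_of_nonneg_left (half_anti (by omega)) (by positivity))
  refine ⟨T 0, T 1, hT 0, ?_, ?_⟩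
  · have := fin 0 z2; rwa [f0] at this
  · have := fin 1 z3; rwa [f1] at this

end Pool.Agent.MP_7ca887_an.AP
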