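import Pool.Agent.MP_7ca887_an.ap.Quo
import Pool.Agent.MP_7ca887_an.ap.Glue

/-! The abstract splicing theorem. -/

set_option autoImplicit false

open Filter Topology Finset

namespace Pool.Agent.MP_7ca887_an.AP

variable {W : Type*} [NormedAddCommGroup W] [NormedSpace ℝ W] {s : W →L[ℝ] W}

theorem ord {c J : ℕ → W →L[ℝ] W} {N : ℕ} {f : ℕ → St (W →L[ℝ] W)}
    (hf : ∀ k, Inv c J N k (f k) ∧ Step c J N k (f k) (f (k + 1))) {k l a a' : ℕ} (ha : a ≤ 5)
    (h : k < l ∨ (k = l ∧ a < a')) :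
    ix (f k).b a = 0 ∨ (ix (f k).b a < ix (f l).b a' ∧ N + l ≤ ix (f l).b a') := by
  by_cases hb : (f k).b = 0
  · left; simp [ix, hb]
  right
  have big : ∀ k, (f k).b ≠ 0 → N + k ≤ (f k).b := by
    intro k hb
    by_cases hk : k ≤ 3
    · exact absurd ((hf k).1.2.1 hk).1 hb
    · exact (hf k).1.2.2.1 (by omega)
  have key : ∀ l, k < l → (f l).b ≠ 0 ∧ (f k).b + 5 < (f l).b := by
    intro l hl
    induction l, hl using Nat.le_induction with
    | base =>
      have h2 : (f (k + 1)).b ≠ 0 := fun h => hb ((hf k).2.2.2.1 h)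
      exact ⟨h2, (hf k).2.2.2.2.1 h2⟩
    | succ l _ ih =>
      have h2 : (f (l + 1)).b ≠ 0 := fun h => ih.1 ((hf l).2.2.2.1 h)
      have := (hf l).2.2.2.2.1 h2
      exact ⟨h2, by omega⟩
  rcases h with h | ⟨rfl, h⟩
  · obtain ⟨h1, h2⟩ := key l h
    have := big l h1
    simp only [ix, hb, h1, if_false]; omega
  · have := big k hb
    simp only [ix, hb, if_false]; omega

/-- conjugation by an involution -/
def conj {A : Type*} [Ring A] (s : A) (hs : s * s = 1) : A →+* A where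
  toFun x := s * x * s
  map_one' := by rw [mul_one, hs]
  map_mul' x y := by
    calc s * (x * y) * s = s * x * (s * s) * y * s := by rw [hs]; simp only [mul_assoc, one_mul]
      _ = _ := by simp only [mul_assoc]
  map_zero' := by simp
  map_add' x y := by rw [mul_add, add_mul]

theorem aa_odd {c J : ℕ → W →L[ℝ] W} (hs : s * s = 1) (hc : ∀ n, s * c n = c n * s)
    (hJ : ∀ m, s * J m = -(J m * s)) (f : ℕ → St (W →L[ℝ] W)) (k : ℕ) :
    s * aa c J f k = -(aa c J f k * s) := by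
  have e1 : ∀ n, conj s hs (c n) = c n := fun n => by
    change s * c n * s = c n
    rw [hc, mul_assoc, hs, mul_one]
  have e2 : ∀ n, conj s hs (J n) = -J n := fun n => by
    change s * J n * s = -J n
    rw [hJ, neg_mul, mul_assoc, hs, mul_one]
  have e3 : ∀ x y, conj s hs (gOf c J x y) = gOf c J x y := fun x y => by
    simp only [gOf, map_gF, e1, e2, gF_neg]
  have e4 : ∀ x y, conj s hs (hOf c J x y) = hOf c J x y := fun x y => by
    simp only [hOf, map_hF, e1, e2, hF_neg]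
  have e5 : conj s hs (aa c J f k) = -aa c J f k := by
    simp only [aa, Dd, DF, dl, lv, map_mul, map_sub, e1, e2, e3, e4, mul_neg, neg_mul]
  have e6 : s * aa c J f k * s = -aa c J f k := e5
  calc s * aa c J f k = s * aa c J f k * s * s := by rw [mul_assoc _ s s, hs, mul_one]
    _ = _ := by rw [e6, neg_mul]

theorem core [CompleteSpace W] (hs : s * s = 1) (𝒞 : Cuts W s) {J : ℕ → W →L[ℝ] W} {K : ℝ}
    (hK : ∀ m, ‖J m‖ ≤ K) (odd : ∀ m, s * J m = -(J m * s))
    (sot : ∀ w, Tendsto (fun m => J m (J m w)) atTop (𝓝 w))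
    (adj : ∀ f : W →L[ℝ] ℝ, Tendsto (fun m => ‖f.comp (1 - J m * J m)‖) atTop (𝓝 0)) :
    ∃ u : W →L[ℝ] W, IsUnit u ∧ s * u = -(u * s) := by
  obtain ⟨𝒟, hD⟩ := 𝒞.exists_sparse
  choose F hF using sys_exists 𝒟 hK sot adj
  obtain ⟨C, hC⟩ := local_est hD hK F hF
  obtain ⟨C0, hC0⟩ := 𝒟.unc
  have hCpos : 0 ≤ C := (norm_nonneg _).trans (hC 0 0).1
  set B := 2 * ((C + 1) * C0) with hB
  have lim : Tendsto (fun N : ℕ => (C + 1) * ((1 : ℝ) / 2) ^ N) atTop (𝓝 0) := by
    simpa using (tendsto_pow_atTop_nhds_zero_of_lt_one (r := (1 : ℝ) / 2) (by norm_num)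
      (by norm_num)).const_mul (C + 1)
  have lim2 := (lim.const_mul ((6 * C + 5) * (B + 2))).const_mul 2
  rw [mul_zero, mul_zero] at lim2
  obtain ⟨N, hN1, hN2⟩ := ((lim.eventually (ge_mem_nhds one_pos)).and
    (lim2.eventually (gt_mem_nhds one_pos))).exists
  set ε := (C + 1) * ((1 : ℝ) / 2) ^ N with hε
  have hf := hF N
  replace hC := hC N
  generalize F N = f at hf hC
  have w1 : ∀ k, C * wt N k ≤ ε * (1 / 2) ^ k := fun k => by
    rw [hε, wt, pow_add, mul_assoc]; gcongr; linarith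
  have w2 : ∀ k, wt N k ≤ ε * (1 / 2) ^ k := fun k => by
    rw [hε, wt, pow_add, mul_assoc]
    exact le_mul_of_one_le_left (by positivity) (by linarith)
  have adm : ∀ r, Adm fun t => ix (f (2 * t + r)).b 1 := by
    intro r
    constructor
    · refine monotone_nat_of_le_succ fun t => ?_
      rcases ord hf (k := 2 * t + r) (l := 2 * (t + 1) + r) (a := 1) (a' := 1) (by norm_num)
        (Or.inl (by omega)) with h | h
      · rw [h]; exact Nat.zero_le _
      · exact h.1.le
    · intro t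
      dsimp only
      rcases ord hf (k := 2 * t + r) (l := 2 * t + r) (a := 0) (a' := 1) (by norm_num)
        (Or.inr ⟨rfl, by norm_num⟩) with h | h
      · left; unfold ix at h ⊢; split_ifs at h ⊢ <;> omega
      · right; omega
  have inf : ∀ a, Tendsto (fun k => ix (f k).b a) atTop atTop := by
    intro a
    refine tendsto_atTop_mono' _ ?_ tendsto_id
    filter_upwards [eventually_gt_atTop 3] with k hk
    have := (hf k).1.2.2.1 hk
    change k ≤ _
    unfold ix; split_ifs <;> omega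
  have zz : ∀ k, k ≤ 3 → lv 𝒟.c f 1 k = 0 := fun k hk => by
    simp [lv, ix, ((hf k).1.2.1 hk).1, 𝒟.c0]
  have one : ∀ r r' (S : Finset ℕ) (T : ℕ → W →L[ℝ] W), (∀ t, ‖T t‖ ≤ C) →
      ‖∑ t ∈ S, dl (lv 𝒟.c f 1) (2 * t + r) * (T t * dl (lv 𝒟.c f 1) (2 * t + r'))‖ ≤
        (C + 1) * C0 := by
    intro r r' S T hT
    have hp : 0 < C + 1 := by linarith
    have := hC0 _ _ (adm (r + 1)) (adm (r' + 1)) (fun t => (C + 1)⁻¹ • T t) (fun t => by
      rw [norm_smul, norm_inv, Real.norm_of_nonneg hp.le, inv_mul_le_iff₀ hp]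
      linarith [hT t]) S
    have e : ∑ t ∈ S, dl (lv 𝒟.c f 1) (2 * t + r) * (T t * dl (lv 𝒟.c f 1) (2 * t + r')) =
        (C + 1) • ∑ t ∈ S, (𝒟.c (ix (f (2 * (t + 1) + (r + 1))).b 1) -
          𝒟.c (ix (f (2 * t + (r + 1))).b 1)) * ((C + 1)⁻¹ • T t) *
          (𝒟.c (ix (f (2 * (t + 1) + (r' + 1))).b 1) - 𝒟.c (ix (f (2 * t + (r' + 1))).b 1)) := by
      rw [Finset.smul_sum]
      refine Finset.sum_congr rfl fun t _ => ?_
      rw [mul_smul_comm, smul_mul_assoc, smul_smul, mul_inv_cancel₀ hp.ne', one_smul, mul_assoc,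
        show 2 * (t + 1) + (r + 1) = 2 * t + r + 3 by ring,
        show 2 * (t + 1) + (r' + 1) = 2 * t + r' + 3 by ring]
      rfl
    rw [e, norm_smul, Real.norm_of_nonneg hp.le]
    gcongr
  obtain ⟨u, v, hu, h1, h2⟩ := glue (Dd 𝒟.c J f) (lv 𝒟.c f 1) (lv 𝒟.c f 0) (lv 𝒟.c f 2)
    (aa 𝒟.c J f) (fun _ => rfl) (C := C) (B := B) (ε := ε) (by positivity) hN1
    (fun k => (hC k).1)
    (fun r S => by
      have a1 := one r (r + 1) S (fun t => Dd 𝒟.c J f (2 * t + r + 1)) fun t => (hC _).1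
      have a2 := one (r + 2) (r + 1) S (fun t => Dd 𝒟.c J f (2 * t + r + 1)) fun t => (hC _).1
      have a3 := norm_add_le_of_le a1 a2
      rw [← Finset.sum_add_distrib] at a3
      simp only [← add_mul, ← add_assoc] at a3
      unfold aa
      refine le_trans ?_ (show (C + 1 + C + 1) * C0 ≤ B by rw [hB]; linarith)
      generalize Dd 𝒟.c J f = D at a3 ⊢
      generalize dl (lv 𝒟.c f 1) = d at a3 ⊢
      exact a3)
    (fun k => (hC k).2.1.trans (w1 k)) (fun k => (hC k).2.2.1.trans (w1 k))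
    (fun k => (hC k).2.2.2.1.trans (w1 k)) (fun k => (hC k).2.2.2.2.trans (w1 k))
    (zz 1 (by norm_num)) (zz 2 (by norm_num)) (zz 3 (by norm_num))
    (fun w => (𝒟.sot w).comp (inf 1)) (fun w => (𝒟.sot w).comp (inf 0))
    (fun k l h => (chain hD (ord hf (k := k) (l := l) (a := 0) (a' := 1) (by norm_num)
      (by omega))).2.trans (w2 l))
    (fun k l h => by
      have hq : ((1 : ℝ) / 4) ^ (N + k) ≤ ε * (1 / 4) ^ k := by
        rw [pow_add, hε]
        refine mul_le_mul_of_nonneg_right ?_ (by positivity)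
        exact (pow_le_pow_left₀ (by norm_num) (by norm_num) N).trans
          (le_mul_of_one_le_left (by positivity) (by linarith))
      rcases ord hf (k := l) (l := k) (a := 1) (a' := 2) (by norm_num) (by omega) with h0 | h0
      · simp only [lv, h0, 𝒟.c0, zero_mul, sub_zero, norm_zero]; positivity
      · exact (hD _ _ h0.1).1.trans
          ((pow_le_pow_of_le_one (by norm_num) (by norm_num) h0.2).trans hq))
  have unit : ∀ x : W →L[ℝ] W, ‖x - 1‖ < 1 → IsUnit x := fun x hx => by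
    have := isUnit_one_sub_of_norm_lt_one (x := 1 - x) (by rwa [norm_sub_rev])
    simpa using this
  obtain ⟨p, hp⟩ := (unit _ (h1.trans_lt hN2)).exists_left_inv
  obtain ⟨q, hq⟩ := (unit _ (h2.trans_lt hN2)).exists_right_inv
  refine ⟨u, ?_, ?_⟩
  · rw [← mul_assoc] at hp
    rw [mul_assoc] at hq
    have e : p * v = v * q := left_inv_eq_right_inv hp hq
    exact ⟨⟨u, v * q, hq, e ▸ hp⟩, rfl⟩
  · ext w
    refine tendsto_nhds_unique ((s.continuous.tendsto _).comp (hu w)) ?_
    refine (hu (s w)).neg.congr fun n => ?_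
    have ho := aa_odd hs 𝒟.even odd f
    generalize aa 𝒟.c J f = a at ho ⊢
    have e : s * ∑ t ∈ range n, a (2 * t + 0 + 1) = -((∑ t ∈ range n, a (2 * t + 0 + 1)) * s) := by
      rw [Finset.mul_sum, Finset.sum_mul, ← Finset.sum_neg_distrib]
      exact Finset.sum_congr rfl fun t _ => ho _
    exact (congrArg (fun x : W →L[ℝ] W => x w) e).symm

end Pool.Agent.MP_7ca887_an.AP
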