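import Pool.Agent.MP_7ca887_an.ap.Cut
import Pool.Agent.MP_7ca887_an.ap.Core

/-! Chains of cutoffs on a subspace with the approximation property, and on a product of two. -/

set_option autoImplicit false

open Filter Topology Finset
open scoped ENNReal

namespace Pool.Agent.MP_7ca887_an.AP

variable {p : ℝ≥0∞} [Fact (1 ≤ p)] {X Y : Type*} [NormedAddCommGroup X] [NormedSpace ℝ X]
  [NormedAddCommGroup Y] [NormedSpace ℝ Y]

/-- a chain of finite rank cutoffs on a subspace -/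
structure Half (ι : X →L[ℝ] El p) where
  φ : ℕ → X →L[ℝ] X
  φ0 : φ 0 = 0
  fin : ∀ n, φ n ∈ FR X X
  bd : ∀ n x, ‖φ n x‖ ≤ 2 * ‖x‖
  near : ∀ n x, ‖x - φ n x‖ ≤ (1 / 2) ^ n * ‖x‖ + ‖ι x - Pn p n (ι x)‖
  adj : ∀ f : X →L[ℝ] ℝ, Tendsto (fun n => ‖f.comp (1 - φ n)‖) atTop (𝓝 0)
  low : ∀ α, Adm α → ∀ (S : Finset ℕ) (x : X),
    ∑ k ∈ S, ‖(φ (α (k + 1)) - φ (α k)) x‖ ^ p.toReal ≤ (12 * ‖x‖) ^ p.toReal
  up : ∀ α, Adm α → ∀ (S : Finset ℕ) (y : ℕ → X) (M : ℝ), 0 ≤ M →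
    ∑ k ∈ S, ‖y k‖ ^ p.toReal ≤ M ^ p.toReal → ‖∑ k ∈ S, (φ (α (k + 1)) - φ (α k)) (y k)‖ ≤ 5 * M

theorem geo_fin (S : Finset ℕ) : ∑ k ∈ S, ((1 : ℝ) / 2) ^ k ≤ 2 := by
  obtain ⟨n, hn⟩ := S.exists_nat_subset_range
  exact (Finset.sum_le_sum_of_subset_of_nonneg hn fun k _ _ => by positivity).trans
    (sum_geometric_two_le n)

theorem add_rpow_le {a b q : ℝ} (ha : 0 ≤ a) (hb : 0 ≤ b) (hq : 0 ≤ q) :
    (a + b) ^ q ≤ 2 ^ q * (a ^ q + b ^ q) := by
  have h1 : (a + b) ^ q ≤ (2 * max a b) ^ q := by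
    gcongr; linarith [le_max_left a b, le_max_right a b]
  rw [Real.mul_rpow (by norm_num) (le_max_of_le_left ha)] at h1
  refine h1.trans (mul_le_mul_of_nonneg_left ?_ (by positivity))
  rcases le_total a b with h | h
  · rw [max_eq_right h]; linarith [Real.rpow_nonneg ha q]
  · rw [max_eq_left h]; linarith [Real.rpow_nonneg hb q]

theorem half_exists (hp1 : p ≠ 1) (hp : p ≠ ⊤) [CompleteSpace X] (ι : X →L[ℝ] El p)
    (hι : ∀ x, ‖ι x‖ = ‖x‖) (hX : HasAP X) : Nonempty (Half ι) := by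
  have hq := one_le_toReal hp
  have hq0 : 0 < p.toReal := by linarith
  obtain ⟨f, hf⟩ := dep_choice (α := (X →L[ℝ] X) × (El p →L[ℝ] El p) × (ℕ → ℝ) × ℕ)
    (fun n d => (n = 0 → d.1 = 0 ∧ d.2.1 = 0) ∧ d.1 ∈ FR X X ∧ (∀ i, 0 ≤ d.2.2.1 i ∧ d.2.2.1 i ≤ 1) ∧
      (∀ i < n, d.2.2.1 i = 1) ∧ (∀ i, d.2.2.2 ≤ i → d.2.2.1 i = 0) ∧
      (∀ z i, d.2.1 z i = d.2.2.1 i * z i) ∧ ‖d.2.1.comp ι - ι.comp d.1‖ ≤ (1 / 2) ^ n)
    (fun _ d e => ∀ i, d.2.2.1 i ≤ e.2.2.1 i)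
    ⟨⟨0, 0, 0, 0⟩, fun _ => ⟨rfl, rfl⟩, zero_mem _, by simp, by simp, by simp, by simp, by simp⟩
    (by
      rintro k ⟨φ, T, π, r⟩ ⟨-, -, h1, -, h3, -, -⟩
      obtain ⟨φ', hφ', T', ⟨π', r', g1, g2, g3, g4⟩, g5⟩ := cut_exists hp1 hp ι hι hX (max r (k + 1))
        (ε := (1 / 2) ^ (k + 1)) (by positivity)
      refine ⟨⟨φ', T', π', r'⟩, ⟨fun h => by omega, hφ', g1,
        fun i hi => g2 i (lt_max_of_lt_right hi), g3, g4, g5⟩, fun i => ?_⟩
      rcases lt_or_ge i r with h | h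
      · exact (h1 i).2.trans (g2 i (lt_max_of_lt_left h)).ge
      · exact (h3 i h).le.trans (g1 i).1)
  obtain ⟨φ, hφ⟩ : ∃ φ : ℕ → X →L[ℝ] X, φ = fun n => (f n).1 := ⟨_, rfl⟩
  obtain ⟨T, hT⟩ : ∃ T : ℕ → El p →L[ℝ] El p, T = fun n => (f n).2.1 := ⟨_, rfl⟩
  obtain ⟨π, hπ⟩ : ∃ π : ℕ → ℕ → ℝ, π = fun n => (f n).2.2.1 := ⟨_, rfl⟩
  have φ0 : φ 0 = 0 := by rw [hφ]; exact ((hf 0).1.1 rfl).1
  have T0 : T 0 = 0 := by rw [hT]; exact ((hf 0).1.1 rfl).2
  have fin : ∀ n, φ n ∈ FR X X := by rw [hφ]; exact fun n => (hf n).1.2.1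
  have π01 : ∀ n i, 0 ≤ π n i ∧ π n i ≤ 1 := by rw [hπ]; exact fun n => (hf n).1.2.2.1
  have π1 : ∀ n, ∀ i < n, π n i = 1 := by rw [hπ]; exact fun n => (hf n).1.2.2.2.1
  have Tπ : ∀ n z i, T n z i = π n i * z i := by rw [hπ, hT]; exact fun n => (hf n).1.2.2.2.2.2.1
  have er : ∀ n x, ‖T n (ι x) - ι (φ n x)‖ ≤ (1 / 2) ^ n * ‖x‖ := by
    rw [hφ, hT]
    exact fun n x => (ContinuousLinearMap.le_of_opNorm_le _ (hf n).1.2.2.2.2.2.2 x)
  have πm : ∀ i, Monotone fun n => π n i := by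
    rw [hπ]; exact fun i => monotone_nat_of_le_succ fun n => (hf n).2 i
  clear hφ hT hπ hf f
  have era : ∀ α, Adm α → ∀ k x, ‖T (α k) (ι x) - ι (φ (α k) x)‖ ≤ (1 / 2) ^ k * ‖x‖ := by
    intro α hα k x
    rcases hα.2 k with h | h
    · rw [h, φ0, T0]; simp
    · exact (er _ x).trans (mul_le_mul_of_nonneg_right
        (pow_le_pow_of_le_one (by norm_num) (by norm_num) h) (norm_nonneg _))
  have erb : ∀ α, Adm α → ∀ k x, ‖ι ((φ (α (k + 1)) - φ (α k)) x) - (T (α (k + 1)) - T (α k)) (ι x)‖ ≤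
      2 * (1 / 2) ^ k * ‖x‖ := by
    intro α hα k x
    have h1 := era α hα k x
    have h2 := era α hα (k + 1) x
    have e : ι ((φ (α (k + 1)) - φ (α k)) x) - (T (α (k + 1)) - T (α k)) (ι x) =
        (T (α k) (ι x) - ι (φ (α k) x)) - (T (α (k + 1)) (ι x) - ι (φ (α (k + 1)) x)) := by
      simp only [_root_.sub_apply, map_sub]; abel
    rw [e]
    refine (norm_sub_le _ _).trans ?_
    have : (0 : ℝ) ≤ (1 / 2) ^ k * ‖x‖ := by positivity
    rw [pow_succ] at h2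
    nlinarith
  have b0 : ∀ α, Adm α → ∀ k i, 0 ≤ π (α (k + 1)) i - π (α k) i :=
    fun α hα k i => sub_nonneg.2 (πm i (hα.1 (Nat.le_succ k)))
  have b1 : ∀ α, Adm α → ∀ (S : Finset ℕ) i, ∑ k ∈ S, (π (α (k + 1)) i - π (α k) i) ≤ 1 :=
    fun α hα S i => band_sum (x := fun k => π (α k) i) ((πm i).comp hα.1) (π01 _ i).1
      (fun k => (π01 _ i).2) S
  have b2 : ∀ (α : ℕ → ℕ) k z i, (T (α (k + 1)) - T (α k)) z i = (π (α (k + 1)) i - π (α k) i) * z i := by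
    intro α k z i
    rw [_root_.sub_apply, lp.coeFn_sub, Pi.sub_apply, Tπ, Tπ, sub_mul]
  have tail : ∀ n z, ‖z - T n z‖ ≤ ‖z - Pn p n z‖ := by
    intro n z
    refine norm_le_of_abs fun i => ?_
    rw [lp.coeFn_sub, Pi.sub_apply, lp.coeFn_sub, Pi.sub_apply, Tπ, Pn_apply]
    split_ifs with h
    · rw [π1 n i h]; simp
    · rw [← one_sub_mul, abs_mul, sub_zero]
      exact mul_le_of_le_one_left (abs_nonneg _) (abs_le.2 ⟨by linarith [π01 n i], by linarith [π01 n i]⟩)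
  refine ⟨⟨φ, φ0, fin, fun n x => ?_, fun n x => ?_, fun g0 => ?_, fun α hα S x => ?_,
    fun α hα S y M hM hy => ?_⟩⟩
  · have h1 : ‖T n (ι x)‖ ≤ ‖ι x‖ := norm_le_of_abs fun i => by
      rw [Tπ, abs_mul, abs_of_nonneg (π01 n i).1]
      exact mul_le_of_le_one_left (abs_nonneg _) (π01 n i).2
    have h2 := norm_sub_norm_le (ι (φ n x)) (T n (ι x))
    have h3 := er n x
    have h4 : ((1 : ℝ) / 2) ^ n * ‖x‖ ≤ ‖x‖ :=
      mul_le_of_le_one_left (norm_nonneg _) (pow_le_one₀ (by norm_num) (by norm_num))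
    rw [norm_sub_rev] at h3
    rw [hι] at h1 h2
    linarith
  · rw [← hι (x - φ n x), map_sub]
    have := norm_sub_le_norm_sub_add_norm_sub (ι x) (T n (ι x)) (ι (φ n x))
    linarith [er n x, tail n (ι x)]
  · obtain ⟨g, rfl⟩ := ext_dual ι hι g0
    have lim : Tendsto (fun n : ℕ => ‖g.comp (1 - Pn p n)‖ + ‖g‖ * ((1 : ℝ) / 2) ^ n) atTop (𝓝 0) := by
      simpa using (shrink_dual hp1 hp g).add ((tendsto_pow_atTop_nhds_zero_of_lt_one (r := (1 : ℝ) / 2)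
        (by norm_num) (by norm_num)).const_mul ‖g‖)
    refine squeeze_zero (fun _ => norm_nonneg _) (fun n => ?_) lim
    refine ContinuousLinearMap.opNorm_le_bound _ (by positivity) fun x => ?_
    have e0 : Pn p n (ι x - T n (ι x)) = 0 := by
      ext i
      rw [Pn_apply, lp.coeFn_sub, Pi.sub_apply, Tπ]
      split_ifs with h
      · rw [π1 n i h]; simp
      · rfl
    have e : ((g.comp ι).comp (1 - φ n)) x =
        (g.comp (1 - Pn p n)) (ι x - T n (ι x)) + g (T n (ι x) - ι (φ n x)) := by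
      rw [ContinuousLinearMap.comp_apply g (1 - Pn p n), _root_.sub_apply, e0]
      simp
    have h1 : ‖ι x - T n (ι x)‖ ≤ ‖x‖ := by
      rw [← hι x]
      refine norm_le_of_abs fun i => ?_
      rw [lp.coeFn_sub, Pi.sub_apply, Tπ, ← one_sub_mul, abs_mul]
      exact mul_le_of_le_one_left (abs_nonneg _) (abs_le.2 ⟨by linarith [π01 n i], by linarith [π01 n i]⟩)
    rw [e, add_mul, mul_assoc]
    refine (norm_add_le _ _).trans (add_le_add ?_ ?_)
    · exact (ContinuousLinearMap.le_opNorm _ _).trans (by gcongr)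
    · exact (g.le_opNorm _).trans (by gcongr; exact er n x)
  · have h1 := low_est hp S _ (b0 α hα) (b1 α hα S) (ι x) (fun k => (T (α (k + 1)) - T (α k)) (ι x))
      (fun k i => b2 α k _ i)
    have h2 : ∀ k, ‖(φ (α (k + 1)) - φ (α k)) x‖ ^ p.toReal ≤
        2 ^ p.toReal * (‖(T (α (k + 1)) - T (α k)) (ι x)‖ ^ p.toReal +
          (1 / 2) ^ k * (2 * ‖x‖) ^ p.toReal) := by
      intro k
      have a1 : ‖(φ (α (k + 1)) - φ (α k)) x‖ ≤
          ‖(T (α (k + 1)) - T (α k)) (ι x)‖ + (1 / 2) ^ k * (2 * ‖x‖) := by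
        have := norm_sub_norm_le (ι ((φ (α (k + 1)) - φ (α k)) x)) ((T (α (k + 1)) - T (α k)) (ι x))
        rw [hι] at this
        linarith [erb α hα k x]
      refine (Real.rpow_le_rpow (norm_nonneg _) a1 hq0.le).trans
        ((add_rpow_le (norm_nonneg _) (by positivity) hq0.le).trans ?_)
      gcongr
      rw [Real.mul_rpow (by positivity) (by positivity)]
      gcongr
      exact Real.rpow_le_self_of_le_one (by positivity) (pow_le_one₀ (by norm_num) (by norm_num)) hq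
    refine (Finset.sum_le_sum fun k _ => h2 k).trans ?_
    rw [← Finset.mul_sum, Finset.sum_add_distrib, ← Finset.sum_mul]
    have h3 : ‖ι x‖ ^ p.toReal ≤ (2 * ‖x‖) ^ p.toReal := by
      rw [hι]; gcongr; linarith [norm_nonneg x]
    have h4 : (3 : ℝ) ≤ 3 ^ p.toReal := by
      simpa using Real.rpow_le_rpow_of_exponent_le (show (1 : ℝ) ≤ 3 by norm_num) hq
    have h5 : (12 * ‖x‖) ^ p.toReal = 2 ^ p.toReal * (3 ^ p.toReal * (2 * ‖x‖) ^ p.toReal) := by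
      rw [← Real.mul_rpow (by norm_num) (by positivity), ← Real.mul_rpow (by norm_num) (by positivity)]
      congr 1; ring
    rw [h5]
    have h6 : 0 ≤ (2 * ‖x‖) ^ p.toReal := by positivity
    gcongr
    nlinarith [geo_fin S]
  · have h1 := up_est hp S _ (b0 α hα) (b1 α hα S) (fun k => ι (y k))
      (fun k => (T (α (k + 1)) - T (α k)) (ι (y k))) (fun k i => b2 α k _ i)
    simp only [hι] at h1
    have h2 := (Real.rpow_le_rpow_iff (norm_nonneg _) hM hq0).1 (h1.trans hy)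
    have h3 : ∀ k ∈ S, ‖y k‖ ≤ M := fun k hk => (Real.rpow_le_rpow_iff (norm_nonneg _) hM hq0).1
      ((Finset.single_le_sum (f := fun k => ‖y k‖ ^ p.toReal) (fun k _ => by positivity) hk).trans hy)
    have h4 : ‖ι (∑ k ∈ S, (φ (α (k + 1)) - φ (α k)) (y k)) -
        ∑ k ∈ S, (T (α (k + 1)) - T (α k)) (ι (y k))‖ ≤ 4 * M := by
      rw [map_sum, ← Finset.sum_sub_distrib]
      calc _ ≤ ∑ k ∈ S, (1 / 2) ^ k * (2 * M) := norm_sum_le_of_le _ fun k hk =>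
            (erb α hα k (y k)).trans (by
              have : (0 : ℝ) ≤ (1 / 2) ^ k := by positivity
              nlinarith [h3 k hk])
        _ ≤ 4 * M := by rw [← Finset.sum_mul]; nlinarith [geo_fin S]
    have h5 := norm_sub_norm_le (ι (∑ k ∈ S, (φ (α (k + 1)) - φ (α k)) (y k)))
      (∑ k ∈ S, (T (α (k + 1)) - T (α k)) (ι (y k)))
    rw [hι] at h5
    linarith

theorem Half.sot (hp : p ≠ ⊤) {ι : X →L[ℝ] El p} (H : Half ι) (x : X) :
    Tendsto (fun n => H.φ n x) atTop (𝓝 x) := by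
  rw [tendsto_iff_norm_sub_tendsto_zero]
  have lim : Tendsto (fun n : ℕ => ((1 : ℝ) / 2) ^ n * ‖x‖ + ‖ι x - Pn p n (ι x)‖) atTop (𝓝 0) := by
    simpa using ((tendsto_pow_atTop_nhds_zero_of_lt_one (r := (1 : ℝ) / 2)
      (by norm_num) (by norm_num)).mul_const ‖x‖).add ((Pn_tendsto hp (ι x)).const_sub (ι x)).norm
  exact squeeze_zero (fun _ => norm_nonneg _) (fun n => by rw [norm_sub_rev]; exact H.near n x) lim

/-- the grading of the product -/
def sg (X Y : Type*) [NormedAddCommGroup X] [NormedSpace ℝ X] [NormedAddCommGroup Y] [NormedSpace ℝ Y] :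
    X × Y →L[ℝ] X × Y := (1 : X →L[ℝ] X).prodMap (-1 : Y →L[ℝ] Y)

theorem sg_sq : sg X Y * sg X Y = 1 := by ext <;> simp [sg]

theorem adj_prod {a : ℕ → X →L[ℝ] X} {b : ℕ → Y →L[ℝ] Y}
    (ha : ∀ f : X →L[ℝ] ℝ, Tendsto (fun n => ‖f.comp (1 - a n)‖) atTop (𝓝 0))
    (hb : ∀ f : Y →L[ℝ] ℝ, Tendsto (fun n => ‖f.comp (1 - b n)‖) atTop (𝓝 0)) (f : X × Y →L[ℝ] ℝ) :
    Tendsto (fun n => ‖f.comp (1 - (a n).prodMap (b n))‖) atTop (𝓝 0) := by
  have lim := (ha (f.comp (ContinuousLinearMap.inl ℝ X Y))).add (hb (f.comp (ContinuousLinearMap.inr ℝ X Y)))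
  rw [add_zero] at lim
  refine squeeze_zero (fun _ => norm_nonneg _) (fun n => ?_) lim
  refine ContinuousLinearMap.opNorm_le_bound _ (by positivity) fun w => ?_
  have e : (f.comp (1 - (a n).prodMap (b n))) w =
      ((f.comp (ContinuousLinearMap.inl ℝ X Y)).comp (1 - a n)) w.1 +
      ((f.comp (ContinuousLinearMap.inr ℝ X Y)).comp (1 - b n)) w.2 := by
    simp only [ContinuousLinearMap.comp_apply, ← map_add]
    congr 1
    ext <;> simp
  rw [e, add_mul]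
  refine (norm_add_le _ _).trans (add_le_add ?_ ?_)
  · exact (ContinuousLinearMap.le_opNorm _ _).trans (by gcongr; exact norm_fst_le w)
  · exact (ContinuousLinearMap.le_opNorm _ _).trans (by gcongr; exact norm_snd_le w)

theorem fin_prod {X' Y' : Type*} [NormedAddCommGroup X'] [NormedSpace ℝ X'] [NormedAddCommGroup Y']
    [NormedSpace ℝ Y'] {a : X →L[ℝ] X'} {b : Y →L[ℝ] Y'} (ha : a ∈ FR X X') (hb : b ∈ FR Y Y') :
    a.prodMap b ∈ FR (X × Y) (X' × Y') := by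
  have e : a.prodMap b = (ContinuousLinearMap.inl ℝ X' Y').comp (a.comp (ContinuousLinearMap.fst ℝ X Y)) +
      (ContinuousLinearMap.inr ℝ X' Y').comp (b.comp (ContinuousLinearMap.snd ℝ X Y)) := by
    ext <;> simp
  rw [e]
  exact add_mem (FR.comp_left _ (FR.comp_right _ ha)) (FR.comp_left _ (FR.comp_right _ hb))

/-- the cutoff system of a product -/
noncomputable def Half.cuts (hp : p ≠ ⊤) {ι : X →L[ℝ] El p} {κ : Y →L[ℝ] El p} (H : Half ι) (G : Half κ) :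
    Cuts (X × Y) (sg X Y) where
  c n := (H.φ n).prodMap (G.φ n)
  c0 := by rw [H.φ0, G.φ0]; ext <;> simp
  fin n := fin_prod (H.fin n) (G.fin n)
  bd n := ContinuousLinearMap.opNorm_le_bound _ (by norm_num) fun w =>
    max_le ((H.bd n _).trans (by gcongr; exact norm_fst_le w))
      ((G.bd n _).trans (by gcongr; exact norm_snd_le w))
  even n := by ext <;> simp [sg]
  sot w := (H.sot hp w.1).prodMk_nhds (G.sot hp w.2)
  adj := adj_prod H.adj G.adj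
  unc := by
    have hq := one_le_toReal hp
    have hq0 : 0 < p.toReal := by linarith
    refine ⟨120, fun α β hα hβ T hT S => ?_⟩
    refine ContinuousLinearMap.opNorm_le_bound _ (by norm_num) fun w => ?_
    obtain ⟨y, hy⟩ : ∃ y : ℕ → X × Y, ∀ k, y k = T k ((H.φ (β (k + 1)) - H.φ (β k)) w.1,
      (G.φ (β (k + 1)) - G.φ (β k)) w.2) := ⟨_, fun _ => rfl⟩
    have h1 : ∑ k ∈ S, ‖y k‖ ^ p.toReal ≤ (24 * ‖w‖) ^ p.toReal := by
      have a1 : ∀ k, ‖y k‖ ^ p.toReal ≤ ‖(H.φ (β (k + 1)) - H.φ (β k)) w.1‖ ^ p.toReal +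
          ‖(G.φ (β (k + 1)) - G.φ (β k)) w.2‖ ^ p.toReal := by
        intro k
        have := ((T k).le_of_opNorm_le (hT k) ((H.φ (β (k + 1)) - H.φ (β k)) w.1,
          (G.φ (β (k + 1)) - G.φ (β k)) w.2))
        rw [one_mul, ← hy] at this
        refine (Real.rpow_le_rpow (norm_nonneg _) this hq0.le).trans ?_
        rw [Prod.norm_mk]
        rcases max_choice ‖(H.φ (β (k + 1)) - H.φ (β k)) w.1‖ ‖(G.φ (β (k + 1)) - G.φ (β k)) w.2‖ with h | h
        · rw [h]; exact le_add_of_nonneg_right (by positivity)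
        · rw [h]; exact le_add_of_nonneg_left (by positivity)
      refine (Finset.sum_le_sum fun k _ => a1 k).trans ?_
      rw [Finset.sum_add_distrib]
      have a2 := (H.low β hβ S w.1).trans (show _ ≤ (12 * ‖w‖) ^ p.toReal by gcongr; exact norm_fst_le w)
      have a3 := (G.low β hβ S w.2).trans (show _ ≤ (12 * ‖w‖) ^ p.toReal by gcongr; exact norm_snd_le w)
      have a4 : (2 : ℝ) ≤ 2 ^ p.toReal := by
        simpa using Real.rpow_le_rpow_of_exponent_le (show (1 : ℝ) ≤ 2 by norm_num) hq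
      have a5 : (24 * ‖w‖) ^ p.toReal = 2 ^ p.toReal * (12 * ‖w‖) ^ p.toReal := by
        rw [← Real.mul_rpow (by norm_num) (by positivity)]
        congr 1; ring
      have a6 : 0 ≤ (12 * ‖w‖) ^ p.toReal := by positivity
      nlinarith
    have h2 := H.up α hα S (fun k => (y k).1) (24 * ‖w‖) (by positivity)
      ((Finset.sum_le_sum fun k _ => by gcongr; exact norm_fst_le _).trans h1)
    have h3 := G.up α hα S (fun k => (y k).2) (24 * ‖w‖) (by positivity)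
      ((Finset.sum_le_sum fun k _ => by gcongr; exact norm_snd_le _).trans h1)
    have e : (∑ k ∈ S, ((H.φ (α (k + 1))).prodMap (G.φ (α (k + 1))) - (H.φ (α k)).prodMap (G.φ (α k))) *
        T k * ((H.φ (β (k + 1))).prodMap (G.φ (β (k + 1))) - (H.φ (β k)).prodMap (G.φ (β k)))) w =
        (∑ k ∈ S, (H.φ (α (k + 1)) - H.φ (α k)) (y k).1, ∑ k ∈ S, (G.φ (α (k + 1)) - G.φ (α k)) (y k).2) := by
      rw [_root_.sum_apply]
      refine Prod.ext ?_ ?_
      · rw [Prod.fst_sum]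
        exact Finset.sum_congr rfl fun k _ => by rw [hy]; rfl
      · rw [Prod.snd_sum]
        exact Finset.sum_congr rfl fun k _ => by rw [hy]; rfl
    rw [e, Prod.norm_mk]
    exact max_le (by linarith) (by linarith)

theorem odd_inv {R : Type*} [Ring R] (s : R) (u : Rˣ) (h : s * u = -(u * s)) :
    s * ↑u⁻¹ = -(↑u⁻¹ * s) := by
  have : (↑u⁻¹ : R) * (s * u) * ↑u⁻¹ = ↑u⁻¹ * (-(u * s)) * ↑u⁻¹ := by rw [h]
  simp only [mul_assoc, Units.mul_inv, mul_one, mul_neg, neg_mul, Units.inv_mul_cancel_left] at this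
  rw [this, neg_neg]

theorem zero_of_eq_neg {x : X} (h : x = -x) : x = 0 := by
  have : (2 : ℝ) • x = 0 := by rw [two_smul]; nth_rewrite 2 [h]; exact add_neg_cancel x
  simpa using this

theorem iso_of_odd {u : X × Y →L[ℝ] X × Y} (hu : IsUnit u) (odd : sg X Y * u = -(u * sg X Y)) :
    Nonempty (X ≃L[ℝ] Y) := by
  obtain ⟨u, rfl⟩ := hu
  have off : ∀ v : X × Y →L[ℝ] X × Y, sg X Y * v = -(v * sg X Y) →
      (∀ x, (v (x, 0)).1 = 0) ∧ ∀ y, (v (0, y)).2 = 0 := by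
    intro v hv
    refine ⟨fun x => zero_of_eq_neg ?_, fun y => zero_of_eq_neg ?_⟩
    · have h : (v (x, 0)).1 = -(v (x, -0)).1 := congrArg (fun T : X × Y →L[ℝ] X × Y => (T (x, 0)).1) hv
      rwa [neg_zero] at h
    · have h : -(v (0, y)).2 = -(v (0, -y)).2 := congrArg (fun T : X × Y →L[ℝ] X × Y => (T (0, y)).2) hv
      have e : ((0 : X), -y) = -((0 : X), y) := by simp
      rw [e, map_neg] at h
      exact neg_inj.1 h
  obtain ⟨a1, -⟩ := off _ odd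
  obtain ⟨-, b2⟩ := off _ (odd_inv _ u odd)
  refine ⟨ContinuousLinearEquiv.equivOfInverse
    ((ContinuousLinearMap.snd ℝ X Y).comp ((u : X × Y →L[ℝ] X × Y).comp (ContinuousLinearMap.inl ℝ X Y)))
    ((ContinuousLinearMap.fst ℝ X Y).comp ((↑u⁻¹ : X × Y →L[ℝ] X × Y).comp (ContinuousLinearMap.inr ℝ X Y)))
    (fun x => ?_) (fun y => ?_)⟩
  · have e : ((0 : X), ((u : X × Y →L[ℝ] X × Y) (x, 0)).2) = (u : X × Y →L[ℝ] X × Y) (x, 0) :=
      Prod.ext (a1 x).symm rfl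
    change ((↑u⁻¹ : X × Y →L[ℝ] X × Y) (0, ((u : X × Y →L[ℝ] X × Y) (x, 0)).2)).1 = x
    rw [e, ← mul_apply_eq_comp, Units.inv_mul]; rfl
  · have e : (((↑u⁻¹ : X × Y →L[ℝ] X × Y) (0, y)).1, (0 : Y)) = (↑u⁻¹ : X × Y →L[ℝ] X × Y) (0, y) :=
      Prod.ext rfl (b2 y).symm
    change ((u : X × Y →L[ℝ] X × Y) (((↑u⁻¹ : X × Y →L[ℝ] X × Y) (0, y)).1, 0)).2 = y
    rw [e, ← mul_apply_eq_comp, Units.mul_inv]; rfl

end Pool.Agent.MP_7ca887_an.AP
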