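import Mathlib

/-! Measurability of quantifiers over a random closed set. -/

set_option autoImplicit false

open Filter Topology Metric TopologicalSpace

namespace Pool.Agent.MP_7ca887_an.AP

variable {Ω A B : Type*} [MeasurableSpace Ω] [PseudoMetricSpace A] [PseudoMetricSpace B]

/-- the event that `Z` meets an open set is measurable -/
def Hit (Z : Ω → Set A) : Prop := ∀ O, IsOpen O → MeasurableSet {ω | (Z ω ∩ O).Nonempty}

theorem exists_ball [SeparableSpace A] [Nonempty A] {u : A} {s : Set A} (hs : s ∈ 𝓝 u) :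
    ∃ i j : ℕ, u ∈ ball (denseSeq A i) (1 / (j + 1)) ∧ ball (denseSeq A i) (1 / (j + 1)) ⊆ s := by
  obtain ⟨ε, hε, h⟩ := Metric.mem_nhds_iff.1 hs
  obtain ⟨j, hj⟩ := exists_nat_one_div_lt (half_pos hε)
  obtain ⟨i, hi⟩ := (denseRange_denseSeq A).exists_dist_lt u (ε := 1 / (j + 1)) (by positivity)
  refine ⟨i, j, hi, fun v hv => h ?_⟩
  rw [mem_ball] at hv ⊢
  linarith [dist_triangle_right v u (denseSeq A i)]

theorem Hit.of_balls [SeparableSpace A] [Nonempty A] {Z : Ω → Set A}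
    (h : ∀ c r, 0 < r → MeasurableSet {ω | (Z ω ∩ ball c r).Nonempty}) : Hit Z := by
  intro O hO
  have e : {ω | (Z ω ∩ O).Nonempty} = ⋃ i : ℕ, ⋃ j : ℕ, ⋃ _ : ball (denseSeq A i) (1 / (j + 1)) ⊆ O,
      {ω | (Z ω ∩ ball (denseSeq A i) (1 / (j + 1))).Nonempty} := by
    ext ω
    simp only [Set.mem_ofPred_eq, Set.mem_iUnion]
    constructor
    · rintro ⟨u, hu, huO⟩
      obtain ⟨i, j, h1, h2⟩ := exists_ball (hO.mem_nhds huO)
      exact ⟨i, j, h2, u, hu, h1⟩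
    · rintro ⟨i, j, h2, u, hu, h1⟩
      exact ⟨u, hu, h2 h1⟩
  rw [e]
  exact .iUnion fun i => .iUnion fun j => .iUnion fun _ => h _ _ (by positivity)

theorem Hit.prod [SeparableSpace A] [Nonempty A] [SeparableSpace B] [Nonempty B] {Z : Ω → Set A}
    {Z' : Ω → Set B} (h : Hit Z) (h' : Hit Z') : Hit fun ω => Z ω ×ˢ Z' ω := by
  refine Hit.of_balls fun c r _ => ?_
  have e : {ω | (Z ω ×ˢ Z' ω ∩ ball c r).Nonempty} =
      {ω | (Z ω ∩ ball c.1 r).Nonempty} ∩ {ω | (Z' ω ∩ ball c.2 r).Nonempty} := by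
    ext ω
    rw [show ball c r = ball c.1 r ×ˢ ball c.2 r from (ball_prod_same c.1 c.2 r).symm]
    simp only [Set.mem_ofPred_eq, Set.prod_inter_prod, Set.prod_nonempty_iff, Set.mem_inter_iff]
  rw [e]
  exact (h _ isOpen_ball).inter (h' _ isOpen_ball)

theorem Hit.pi [SeparableSpace A] [Nonempty A] {Z : Ω → Set A} (h : Hit Z) (n : ℕ) :
    Hit fun ω => {u : Fin n → A | ∀ j, u j ∈ Z ω} := by
  refine Hit.of_balls fun c r hr => ?_
  have e : {ω | ({u : Fin n → A | ∀ j, u j ∈ Z ω} ∩ ball c r).Nonempty} =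
      ⋂ j, {ω | (Z ω ∩ ball (c j) r).Nonempty} := by
    ext ω
    simp only [Set.mem_ofPred_eq, Set.mem_iInter, ball_pi c hr]
    constructor
    · rintro ⟨u, h1, h2⟩ j
      exact ⟨u j, h1 j, h2 j (Set.mem_univ _)⟩
    · intro h
      choose u h1 h2 using h
      exact ⟨u, h1, fun j _ => h2 j⟩
  rw [e]
  exact .iInter fun j => h _ isOpen_ball

theorem Hit.all {Z : Ω → Set A} (h : Hit Z) {C : Set A} (hC : IsClosed C) :
    MeasurableSet {ω | ∀ z ∈ Z ω, z ∈ C} := by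
  have e : {ω | ∀ z ∈ Z ω, z ∈ C} = {ω | (Z ω ∩ Cᶜ).Nonempty}ᶜ := by
    ext ω
    simp [Set.Nonempty]
  rw [e]
  exact (h _ hC.isOpen_compl).compl

theorem Hit.robust [SeparableSpace A] [Nonempty A] {Z : Ω → Set A} (h : Hit Z) {G : Ω → A → Prop}
    (hm : ∀ u, MeasurableSet {ω | G ω u}) (hc : ∀ ω, IsClosed {u | G ω u}) :
    MeasurableSet {ω | ∃ u ∈ Z ω, ∀ᶠ v in 𝓝 u, G ω v} := by
  have e : {ω | ∃ u ∈ Z ω, ∀ᶠ v in 𝓝 u, G ω v} = ⋃ i : ℕ, ⋃ j : ℕ,
      {ω | (Z ω ∩ ball (denseSeq A i) (1 / (j + 1))).Nonempty} ∩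
      ⋂ e : ℕ, ⋂ _ : denseSeq A e ∈ ball (denseSeq A i) (1 / (j + 1)), {ω | G ω (denseSeq A e)} := by
    ext ω
    simp only [Set.mem_ofPred_eq, Set.mem_iUnion, Set.mem_inter_iff, Set.mem_iInter]
    constructor
    · rintro ⟨u, hu, hG⟩
      obtain ⟨i, j, h1, h2⟩ := exists_ball hG
      exact ⟨i, j, ⟨u, hu, h1⟩, fun e he => h2 he⟩
    · rintro ⟨i, j, ⟨u, hu, h1⟩, h2⟩
      refine ⟨u, hu, mem_of_superset (isOpen_ball.mem_nhds h1) ?_⟩
      refine ((denseRange_denseSeq A).open_subset_closure_inter isOpen_ball).trans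
        (closure_minimal ?_ (hc ω))
      rintro _ ⟨h3, e, rfl⟩
      exact h2 e h3
  rw [e]
  exact .iUnion fun i => .iUnion fun j => (h _ isOpen_ball).inter
    (.iInter fun e => .iInter fun _ => hm _)

end Pool.Agent.MP_7ca887_an.AP
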