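import Pool.Agent.MP_7ca887_an.ap.Chain
import Pool.Agent.MP_7ca887_an.ap.Hit

/-! The countable condition on a pair of subspaces and its measurability. -/

set_option autoImplicit false

open Filter Topology Finset TopologicalSpace
open scoped ENNReal

namespace Pool.Agent.MP_7ca887_an.AP

section cond

variable {A : Type*} [NormedAddCommGroup A] [NormedSpace ℝ A]

/-- `T` is bounded at `z` and its square is close to the identity at `z` -/
def Cond (P T : A →L[ℝ] A) (K ε : ℝ) (z : A) : Prop :=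
  ‖T z‖ ≤ K * ‖z‖ ∧ ‖T (T z) - z‖ ≤ ε * ‖z‖ + K * ‖z - P z‖ ∧ ‖P (T (T z) - z)‖ ≤ ε * ‖z‖

theorem Cond.closed {B : Type*} [TopologicalSpace B] (P : A →L[ℝ] A) (K ε : ℝ) {T : B → A →L[ℝ] A}
    {z : B → A} (hT : Continuous T) (hz : Continuous z) : IsClosed {b | Cond P (T b) K ε (z b)} := by
  have h1 : Continuous fun b => T b (z b) := hT.clm_apply hz
  have h2 : Continuous fun b => T b (T b (z b)) := hT.clm_apply h1
  refine (isClosed_le h1.norm (by fun_prop)).inter ((isClosed_le (h2.sub hz).norm (by fun_prop)).inter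
    (isClosed_le (P.continuous.comp (h2.sub hz)).norm (by fun_prop)))

theorem Cond.stable {P : A →L[ℝ] A} (hP : ∀ z, ‖P z‖ ≤ ‖z‖) (T : A →L[ℝ] A) {ε : ℝ} (hε : 0 < ε) :
    ∀ᶠ T' in 𝓝 T, ∀ K δ z, Cond P T K δ z → Cond P T' (K + 1) (δ + ε) z := by
  have t1 : Tendsto (fun T' : A →L[ℝ] A => ‖T' - T‖) (𝓝 T) (𝓝 0) := tendsto_norm_sub_self T
  have t2 : Tendsto (fun T' : A →L[ℝ] A => ‖T' * T' - T * T‖) (𝓝 T) (𝓝 0) :=
    (tendsto_norm_sub_self (T * T)).comp ((continuous_id.mul continuous_id).tendsto T)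
  filter_upwards [t1.eventually (ge_mem_nhds zero_lt_one), t2.eventually (ge_mem_nhds hε)]
    with T' h1 h2 K δ z ⟨c1, c2, c3⟩
  have a1 : ‖T' z - T z‖ ≤ 1 * ‖z‖ := (T' - T).le_of_opNorm_le h1 z
  have a2 : ‖T' (T' z) - T (T z)‖ ≤ ε * ‖z‖ := (T' * T' - T * T).le_of_opNorm_le h2 z
  refine ⟨?_, ?_, ?_⟩
  · linarith [norm_sub_norm_le (T' z) (T z)]
  · linarith [norm_sub_le_norm_sub_add_norm_sub (T' (T' z)) (T (T z)) z, norm_nonneg (z - P z)]
  · have e : P (T' (T' z) - z) = P (T' (T' z) - T (T z)) + P (T (T z) - z) := by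
      rw [← map_add, sub_add_sub_cancel]
    rw [e]
    linarith [norm_add_le (P (T' (T' z) - T (T z))) (P (T (T z) - z)), hP (T' (T' z) - T (T z))]

end cond

variable {p : ℝ≥0∞} [Fact (1 ≤ p)] {X Y X' Y' : Type*} [NormedAddCommGroup X] [NormedSpace ℝ X]
  [NormedAddCommGroup Y] [NormedSpace ℝ Y] [NormedAddCommGroup X'] [NormedSpace ℝ X']
  [NormedAddCommGroup Y'] [NormedSpace ℝ Y']

/-- the operator with the given values on the first unit vectors -/
noncomputable def fo (p : ℝ≥0∞) [Fact (1 ≤ p)] {n : ℕ} (v : Fin n → Y) : El p →L[ℝ] Y :=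
  ∑ j : Fin n, (co p j).smulRight (v j)

/-- off-diagonal operator -/
noncomputable def od (U : X →L[ℝ] Y') (V : Y →L[ℝ] X') : X × Y →L[ℝ] X' × Y' :=
  (ContinuousLinearMap.inl ℝ X' Y').comp (V.comp (ContinuousLinearMap.snd ℝ X Y)) +
    (ContinuousLinearMap.inr ℝ X' Y').comp (U.comp (ContinuousLinearMap.fst ℝ X Y))

@[simp] theorem od_apply (U : X →L[ℝ] Y') (V : Y →L[ℝ] X') (w : X × Y) : od U V w = (V w.2, U w.1) := by
  simp [od]

theorem od_fin {U : X →L[ℝ] Y'} {V : Y →L[ℝ] X'} (hU : U ∈ FR X Y') (hV : V ∈ FR Y X') :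
    od U V ∈ FR (X × Y) (X' × Y') :=
  add_mem (FR.comp_left _ (FR.comp_right _ hV)) (FR.comp_left _ (FR.comp_right _ hU))

theorem od_odd (U : X →L[ℝ] Y) (V : Y →L[ℝ] X) : sg X Y * od U V = -(od U V * sg X Y) := by
  ext <;> simp [sg]

theorem fo_fin {n : ℕ} (v : Fin n → Y) : fo p v ∈ FR (El p) Y :=
  Submodule.sum_mem _ fun _ _ => FR.one _ _

theorem fo_apply {n : ℕ} (v : Fin n → Y) (z : El p) : fo p v z = ∑ j : Fin n, z j • v j := by
  simp [fo]

theorem fo_un (n : ℕ) (U : El p →L[ℝ] Y) : fo p (fun j : Fin n => U (un p j)) = U.comp (Pn p n) := by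
  ext1 z
  rw [fo_apply, ContinuousLinearMap.comp_apply, Pn_eq, map_sum, Finset.sum_range]
  simp

/-- the ambient operator of a finite list of pairs -/
noncomputable def opA (p : ℝ≥0∞) [Fact (1 ≤ p)] {n : ℕ} (u : Fin n → X × Y) : El p × El p →L[ℝ] X × Y :=
  od (fo p fun j => (u j).2) (fo p fun j => (u j).1)

theorem opA_cont (n : ℕ) : Continuous fun u : Fin n → X × Y => opA p u := by
  have h1 : Continuous fun u : Fin n → X × Y => fo p fun j => (u j).1 :=
    continuous_finsetSum _ fun j _ =>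
      (ContinuousLinearMap.smulRightL ℝ (El p) X (co p j)).continuous.comp (by fun_prop)
  have h2 : Continuous fun u : Fin n → X × Y => fo p fun j => (u j).2 :=
    continuous_finsetSum _ fun j _ =>
      (ContinuousLinearMap.smulRightL ℝ (El p) Y (co p j)).continuous.comp (by fun_prop)
  exact (continuous_const.clm_comp (h1.clm_comp continuous_const)).add
    (continuous_const.clm_comp (h2.clm_comp continuous_const))

/-- coordinate projection of the square -/
noncomputable def PP (p : ℝ≥0∞) [Fact (1 ≤ p)] (m : ℕ) : El p × El p →L[ℝ] El p × El p :=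
  (Pn p m).prodMap (Pn p m)

theorem norm_PP_le (m : ℕ) (z : El p × El p) : ‖PP p m z‖ ≤ ‖z‖ :=
  max_le_max (norm_Pn_le m z.1) (norm_Pn_le m z.2)

theorem PP_tendsto (hp : p ≠ ⊤) (z : El p × El p) : Tendsto (fun m => PP p m z) atTop (𝓝 z) :=
  (Pn_tendsto hp z.1).prodMk_nhds (Pn_tendsto hp z.2)

theorem PP_adj (hp1 : p ≠ 1) (hp : p ≠ ⊤) (g : El p × El p →L[ℝ] ℝ) :
    Tendsto (fun m => ‖g.comp (1 - PP p m)‖) atTop (𝓝 0) :=
  adj_prod (shrink_dual hp1 hp) (shrink_dual hp1 hp) g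

theorem sep (hp : p ≠ ⊤) : SeparableSpace (El p) := by
  rw [← isSeparable_univ_iff]
  refine ((Set.countable_range (un p)).isSeparable.span (R := ℝ)).closure.mono fun z _ => ?_
  refine mem_closure_of_tendsto (Pn_tendsto hp z) (Eventually.of_forall fun n => ?_)
  rw [Pn_eq]
  exact Submodule.sum_mem _ fun i _ => Submodule.smul_mem _ _ (Submodule.subset_span ⟨i, rfl⟩)

/-- the countable condition -/
def Good (Z : Set (El p × El p)) : Prop :=
  ∃ K : ℕ, ∀ m : ℕ, ∃ n : ℕ, ∃ u ∈ {u : Fin n → El p × El p | ∀ j, u j ∈ Z}, ∀ᶠ v in 𝓝 u,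
    ∀ z ∈ Z, z ∈ {z | Cond (PP p m) (opA p v) K (1 / (m + 1)) z}

theorem good_meas (hp : p ≠ ⊤) {Ω : Type*} [MeasurableSpace Ω] {Z : Ω → Set (El p × El p)} (h : Hit Z) :
    MeasurableSet {ω | Good (Z ω)} := by
  have := sep hp
  have e : {ω | Good (Z ω)} = ⋃ K : ℕ, ⋂ m : ℕ, ⋃ n : ℕ,
      {ω | ∃ u ∈ {u : Fin n → El p × El p | ∀ j, u j ∈ Z ω}, ∀ᶠ v in 𝓝 u,
        ∀ z ∈ Z ω, z ∈ {z | Cond (PP p m) (opA p v) K (1 / (m + 1)) z}} := by
    ext ω
    simp only [Set.mem_iUnion, Set.mem_iInter]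
    rfl
  rw [e]
  refine .iUnion fun K => .iInter fun m => .iUnion fun n => ?_
  refine (h.pi n).robust (fun v => h.all (Cond.closed _ _ _ continuous_const continuous_id)) fun ω => ?_
  simp only [Set.ofPred_forall]
  exact isClosed_iInter fun z => isClosed_iInter fun _ => Cond.closed _ _ _ (opA_cont n) continuous_const

end Pool.Agent.MP_7ca887_an.AP
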