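import Pool.Agent.MP_7ca887_an.ap.Lp

/-! A subspace with the approximation property has finite rank operators that are close to
diagonal cutoffs of the sequence space. -/

set_option autoImplicit false

open Filter Topology Finset
open scoped ENNReal

namespace Pool.Agent.MP_7ca887_an.AP

/-- the approximation property -/
def HasAP (X : Type*) [NormedAddCommGroup X] [NormedSpace ℝ X] : Prop :=
  ∀ K : Set X, IsCompact K → ∀ ε : ℝ, 0 < ε → ∃ T : X →L[ℝ] X,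
    FiniteDimensional ℝ (LinearMap.range (T : X →ₗ[ℝ] X)) ∧ ∀ x ∈ K, ‖T x - x‖ ≤ ε

variable {p : ℝ≥0∞} [Fact (1 ≤ p)] {X : Type*} [NormedAddCommGroup X] [NormedSpace ℝ X]

/-- diagonal cutoffs with plateau `l` -/
def Mu (l : ℕ) (T : El p →L[ℝ] El p) : Prop :=
  ∃ (π : ℕ → ℝ) (r : ℕ), (∀ i, 0 ≤ π i ∧ π i ≤ 1) ∧ (∀ i < l, π i = 1) ∧ (∀ i, r ≤ i → π i = 0) ∧
    ∀ z i, T z i = π i * z i

theorem mu_Pn {l n : ℕ} (h : l ≤ n) : Mu l (Pn p n) :=
  ⟨fun i => if i < n then 1 else 0, n, fun i => by dsimp only; split_ifs <;> norm_num,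
    fun i hi => if_pos (by omega), fun i hi => if_neg (by omega),
    fun z i => by rw [Pn_apply]; dsimp only; split_ifs <;> simp⟩

theorem Mu.convex (l : ℕ) : Convex ℝ {T : El p →L[ℝ] El p | Mu l T} := by
  rintro S ⟨π, r, h1, h2, h3, h4⟩ T ⟨π', r', h1', h2', h3', h4'⟩ a b ha hb hab
  refine ⟨fun i => a * π i + b * π' i, max r r', fun i => ⟨?_, ?_⟩, fun i hi => ?_, fun i hi => ?_,
    fun z i => ?_⟩
  · have := (h1 i).1; have := (h1' i).1; positivity
  · nlinarith [h1 i, h1' i]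
  · simp only [h2 i hi, h2' i hi]; linarith
  · simp only [h3 i (le_of_max_le_left hi), h3' i (le_of_max_le_right hi)]; ring
  · simp only [_root_.add_apply, _root_.smul_apply, lp.coeFn_add, lp.coeFn_smul, Pi.add_apply,
      Pi.smul_apply, h4, h4', smul_eq_mul]; ring

theorem bip (hp1 : p ≠ 1) (hp : p ≠ ⊤) [CompleteSpace X] (ι : X →L[ℝ] El p) (hι : ∀ x, ‖ι x‖ = ‖x‖)
    (Ψ : (X →L[ℝ] El p) →L[ℝ] ℝ) (n : ℕ) (hn : ∀ S, Ψ ((Pn p n).comp S) = Ψ S) {c c' : ℝ}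
    (hc0 : 0 ≤ c) (hc : ∀ S, |Ψ S| ≤ c * ‖S‖) (hcc : c < c') :
    ∃ F : Finset X, (∀ x ∈ F, ‖x‖ ≤ 1) ∧
      ∀ (S : X →L[ℝ] El p) (M : ℝ), 0 < M → (∀ x ∈ F, ‖S x‖ ≤ M) → |Ψ S| ≤ c' * M := by
  classical
  choose y hy using fun i => reflexive hp1 hp ι hι
    (Ψ.comp ((ContinuousLinearMap.smulRightL ℝ X (El p)).flip (un p i)))
  have rep : ∀ S : X →L[ℝ] El p, Ψ S = ∑ i ∈ range n, S (y i) i := by
    intro S
    have e : (Pn p n).comp S = ∑ i ∈ range n, ((co p i).comp S).smulRight (un p i) := by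
      ext1 x; simp [Pn_eq]
    rw [← hn, e, map_sum]
    exact Finset.sum_congr rfl fun i _ => hy i ((co p i).comp S)
  by_contra hcon
  push Not at hcon
  have ex : ∀ G : Finset X, ∃ S : X →L[ℝ] El p, (∀ x ∈ G, ‖x‖ ≤ 1 → ‖S x‖ ≤ 1) ∧ c' < |Ψ S| := by
    intro G
    obtain ⟨S, M, hM, h1, h2⟩ := hcon (G.filter fun x => ‖x‖ ≤ 1) fun x hx => (Finset.mem_filter.1 hx).2
    refine ⟨M⁻¹ • S, fun x hx hx1 => ?_, ?_⟩
    · rw [_root_.smul_apply, norm_smul, norm_inv, Real.norm_of_nonneg hM.le, inv_mul_le_iff₀ hM, mul_one]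
      exact h1 x (Finset.mem_filter.2 ⟨hx, hx1⟩)
    · rw [map_smul, smul_eq_mul, abs_mul, abs_inv, abs_of_pos hM, lt_inv_mul_iff₀ hM, mul_comm]
      exact h2
  choose S hS1 hS2 using ex
  let 𝒰 : Ultrafilter (Finset X) := Ultrafilter.of atTop
  have hU : (𝒰 : Filter (Finset X)) ≤ atTop := Ultrafilter.of_le _
  have ev : ∀ x, ∀ᶠ G in (𝒰 : Filter (Finset X)), ‖S G x‖ ≤ ‖x‖ := by
    intro x
    by_cases hx : x = 0
    · simp [hx]
    have hn : 0 < ‖x‖ := norm_pos_iff.2 hx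
    filter_upwards [(eventually_ge_atTop {‖x‖⁻¹ • x}).filter_mono hU] with G hG
    have := hS1 G (‖x‖⁻¹ • x) (hG (Finset.mem_singleton_self _)) (by simp [norm_smul, hn.ne'])
    rwa [map_smul, norm_smul, norm_inv, norm_norm, inv_mul_le_iff₀ hn, mul_one] at this
  choose g hg using fun i => ulim 𝒰 (fun G => (co p i).comp (S G)) 1 fun x => by
    filter_upwards [ev x] with G hG
    rw [one_mul]; exact (abs_apply_le _ i).trans hG
  let T : X →L[ℝ] El p := ∑ i ∈ range n, (g i).smulRight (un p i)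
  have hT : ∀ x, T x = ∑ i ∈ range n, g i x • un p i := fun x => by simp [T]
  have hT1 : ‖T‖ ≤ 1 := by
    refine ContinuousLinearMap.opNorm_le_bound _ zero_le_one fun x => ?_
    have t : Tendsto (fun G => Pn p n (S G x)) 𝒰 (𝓝 (T x)) := by
      simp only [Pn_eq, hT]
      exact tendsto_finsetSum _ fun i _ => (hg i x).smul_const _
    rw [one_mul]
    refine le_of_tendsto t.norm ?_
    filter_upwards [ev x] with G hG using (norm_Pn_le _ _).trans hG
  have t : Tendsto (fun G => Ψ (S G)) 𝒰 (𝓝 (Ψ T)) := by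
    simp only [rep]
    refine tendsto_finsetSum _ fun i hi => ?_
    rw [hT, sum_un_apply, if_pos (Finset.mem_range.1 hi)]
    exact hg i (y i)
  have h1 : c' ≤ |Ψ T| := ge_of_tendsto' t.abs fun G => (hS2 G).le
  have h2 := (hc T).trans (mul_le_of_le_one_right hc0 hT1)
  linarith

theorem ap_vanish (hp1 : p ≠ 1) (hp : p ≠ ⊤) [CompleteSpace X] (ι : X →L[ℝ] El p)
    (hι : ∀ x, ‖ι x‖ = ‖x‖) (hX : HasAP X) (Φ : (X →L[ℝ] El p) →L[ℝ] ℝ)
    (h0 : ∀ φ ∈ FR X X, Φ (ι.comp φ) = 0) {u : ℝ} (hu : 0 < u) (l : ℕ) :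
    ∃ n, l ≤ n ∧ Φ ((Pn p n).comp ι) < u := by
  classical
  choose m hm using fun k : ℕ => shrink hp1 hp Φ (ε := (1 / 4) ^ k) (by positivity)
  obtain ⟨b, hb⟩ := dep_choice (fun k x => (k = 0 → x = 0) ∧ (0 < k → m k ≤ x)) (fun _ x y => x < y)
    ⟨0, fun _ => rfl, fun h => absurd h (lt_irrefl _)⟩
    (fun k x _ => ⟨max (x + 1) (m (k + 1)), ⟨fun h => by omega, fun _ => le_max_right _ _⟩, by omega⟩)
  have bm : StrictMono b := strictMono_nat_of_lt_succ fun k => (hb k).2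
  let Ψ : ℕ → (X →L[ℝ] El p) →L[ℝ] ℝ := fun k =>
    Φ.comp (ContinuousLinearMap.compL ℝ X (El p) (El p) (Pn p (b (k + 1)) - Pn p (b k)))
  have Ψe : ∀ k S, Ψ k S = Φ ((Pn p (b (k + 1)) - Pn p (b k)).comp S) := fun _ _ => rfl
  set A := ‖Φ‖ + 1 with hA
  have hA1 : 1 ≤ A := by linarith [Φ.opNorm_nonneg]
  have P0 : Pn p 0 = 0 := by simp [Pn]
  have bd : ∀ k S, |Ψ k S| ≤ A * (1 / 4) ^ k * ‖S‖ := by
    intro k S
    rw [Ψe]
    rcases Nat.eq_zero_or_pos k with rfl | hk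
    · rw [(hb 0).1.1 rfl, P0, sub_zero, pow_zero, mul_one]
      refine (Φ.le_opNorm _).trans (mul_le_mul (by linarith) ?_ (norm_nonneg _) (by linarith))
      exact ContinuousLinearMap.opNorm_le_bound _ (norm_nonneg _) fun x =>
        (norm_Pn_le _ _).trans (S.le_opNorm x)
    · refine (hm k _ _ ((hb k).1.2 hk) (hb k).2.le S).trans ?_
      rw [mul_assoc]
      exact le_mul_of_one_le_left (by positivity) hA1
  have fac : ∀ k S, Ψ k ((Pn p (b (k + 1))).comp S) = Ψ k S := by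
    intro k S
    rw [Ψe, Ψe]
    congr 1
    ext x i
    have := (hb k).2
    simp only [ContinuousLinearMap.comp_apply, _root_.sub_apply, lp.coeFn_sub, Pi.sub_apply, Pn_apply]
    split_ifs <;> first | rfl | omega
  choose F hF1 hF2 using fun k => bip hp1 hp ι hι (Ψ k) (b (k + 1)) (fac k) (by positivity) (bd k)
    (c' := 2 * A * (1 / 4) ^ k) (by nlinarith [pow_pos (show (0 : ℝ) < 1 / 4 by norm_num) k])
  let K0 : Set X := ⋃ k, (fun x => ((1 : ℝ) / 2) ^ k • x) '' (F k : Set X)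
  have tb : TotallyBounded K0 := by
    rw [Metric.totallyBounded_iff]
    intro ε hε
    obtain ⟨n, hn⟩ := exists_pow_lt_of_lt_one hε (show (1 : ℝ) / 2 < 1 by norm_num)
    refine ⟨insert 0 (⋃ k ∈ range n, (fun x => ((1 : ℝ) / 2) ^ k • x) '' (F k : Set X)),
      (Set.Finite.biUnion (range n).finite_toSet fun k _ => (F k).finite_toSet.image _).insert _, ?_⟩
    rintro _ ⟨_, ⟨k, rfl⟩, x, hx, rfl⟩
    simp only [Set.mem_iUnion]
    by_cases hk : k < n
    · exact ⟨_, Or.inr (Set.mem_biUnion (Finset.mem_range.2 hk) ⟨x, hx, rfl⟩), Metric.mem_ball_self hε⟩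
    · refine ⟨0, Or.inl rfl, ?_⟩
      rw [mem_ball_zero_iff, norm_smul, Real.norm_of_nonneg (by positivity)]
      refine lt_of_le_of_lt ?_ hn
      exact (mul_le_of_le_one_right (by positivity) (hF1 k x hx)).trans
        (pow_le_pow_of_le_one (by norm_num) (by norm_num) (not_lt.1 hk))
  have hη : 0 < u / (8 * A) := by positivity
  obtain ⟨φ, hφ, hφK⟩ := hX (closure K0) (tb.closure.isCompact_of_isClosed isClosed_closure) _ hη
  have hφF := FR.of_finiteDimensional hφ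
  have each : ∀ k, |Ψ k (ι.comp (1 - φ))| ≤ u / 4 * (1 / 2) ^ k := by
    intro k
    refine (hF2 k _ (2 ^ k * (u / (8 * A))) (by positivity) fun x hx => ?_).trans (le_of_eq ?_)
    · have h1 := hφK _ (subset_closure (Set.mem_iUnion.2 ⟨k, x, hx, rfl⟩))
      dsimp only at h1
      rw [map_smul, ← smul_sub, norm_smul, Real.norm_of_nonneg (by positivity), norm_sub_rev, one_div,
        inv_pow, inv_mul_le_iff₀ (by positivity)] at h1
      rw [ContinuousLinearMap.comp_apply, hι]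
      exact h1
    · have : ((1 : ℝ) / 4) ^ k * 2 ^ k = (1 / 2) ^ k := by rw [← mul_pow]; norm_num
      rw [← this]; field_simp; norm_num
  have tel : ∀ n S, Φ ((Pn p (b n)).comp S) = ∑ k ∈ range n, Ψ k S := by
    intro n S
    induction n with
    | zero => rw [(hb 0).1.1 rfl, P0]; simp
    | succ n ih => rw [Finset.sum_range_succ, ← ih, Ψe, ← map_add]; congr 1; ext1 x; simp
  have b1 : ∀ n, Φ ((Pn p (b n)).comp (ι.comp (1 - φ))) ≤ u / 2 := by
    intro n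
    rw [tel]
    calc _ ≤ ∑ k ∈ range n, u / 4 * (1 / 2) ^ k :=
          Finset.sum_le_sum fun k _ => (le_abs_self _).trans (each k)
      _ = u / 4 * ∑ k ∈ range n, (1 / 2) ^ k := by rw [Finset.mul_sum]
      _ ≤ u / 4 * 2 := by gcongr; exact sum_geometric_two_le n
      _ = u / 2 := by ring
  have t1 := (FR.tendsto_left (T := fun n => Pn p n - 1) (l := atTop)
    (fun w => by simpa using (Pn_tendsto hp w).sub_const w) (FR.comp_left ι hφF)).const_mul ‖Φ‖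
  rw [mul_zero] at t1
  obtain ⟨n, hn1, hn2⟩ := (((t1.comp bm.tendsto_atTop).eventually (gt_mem_nhds (half_pos hu))).and
    (bm.tendsto_atTop.eventually_ge_atTop l)).exists
  refine ⟨b n, hn2, ?_⟩
  have e : (Pn p (b n)).comp ι = (Pn p (b n)).comp (ι.comp (1 - φ)) +
      (Pn p (b n) - 1).comp (ι.comp φ) + ι.comp φ := by ext1 x; simp
  have h3 := (le_abs_self _).trans (Φ.le_opNorm ((Pn p (b n) - 1).comp (ι.comp φ)))
  rw [e, map_add, map_add, h0 φ hφF]
  have := b1 n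
  simp only [Function.comp] at hn1
  linarith

theorem cut_exists (hp1 : p ≠ 1) (hp : p ≠ ⊤) [CompleteSpace X] (ι : X →L[ℝ] El p)
    (hι : ∀ x, ‖ι x‖ = ‖x‖) (hX : HasAP X) (l : ℕ) {ε : ℝ} (hε : 0 < ε) :
    ∃ φ ∈ FR X X, ∃ T, Mu l T ∧ ‖T.comp ι - ι.comp φ‖ ≤ ε := by
  by_contra hcon
  push Not at hcon
  let C : Set (X →L[ℝ] El p) := {S | ∃ φ ∈ FR X X, ∃ T, Mu l T ∧ S = T.comp ι - ι.comp φ}
  have hC : Convex ℝ C := by
    rintro _ ⟨φ, hφ, T, hT, rfl⟩ _ ⟨φ', hφ', T', hT', rfl⟩ a b ha hb hab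
    refine ⟨a • φ + b • φ', add_mem (Submodule.smul_mem _ _ hφ) (Submodule.smul_mem _ _ hφ'),
      a • T + b • T', Mu.convex l hT hT' ha hb hab, ?_⟩
    ext1 x; simp [smul_sub]; abel
  obtain ⟨Φ, u, h1, h2⟩ := geometric_hahn_banach_open (convex_ball (0 : X →L[ℝ] El p) ε)
    Metric.isOpen_ball hC (Set.disjoint_left.2 (by
      rintro _ hS ⟨φ, hφ, T, hT, rfl⟩
      rw [mem_ball_zero_iff] at hS
      exact absurd (hcon φ hφ T hT) (not_lt.2 hS.le)))
  have hu : 0 < u := by simpa using h1 0 (Metric.mem_ball_self hε)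
  have h0 : ∀ φ ∈ FR X X, Φ (ι.comp φ) = 0 := by
    intro φ hφ
    by_contra hne
    have := h2 _ ⟨(Φ ((Pn p l).comp ι) / Φ (ι.comp φ)) • φ, Submodule.smul_mem _ _ hφ, _,
      mu_Pn le_rfl, rfl⟩
    rw [map_sub, ContinuousLinearMap.comp_smul, map_smul, smul_eq_mul, div_mul_cancel₀ _ hne] at this
    linarith
  obtain ⟨n, hn, hlt⟩ := ap_vanish hp1 hp ι hι hX Φ h0 hu l
  have := h2 _ ⟨0, zero_mem _, _, mu_Pn hn, rfl⟩
  simp only [ContinuousLinearMap.comp_zero, sub_zero] at this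
  linarith

end Pool.Agent.MP_7ca887_an.AP
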