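import Mathlib

/-! Finite rank operators and limits along ultrafilters. -/

set_option autoImplicit false

open Filter Topology

namespace Pool.Agent.MP_7ca887_an.AP

variable {U V W : Type*} [NormedAddCommGroup U] [NormedSpace ℝ U] [NormedAddCommGroup V]
  [NormedSpace ℝ V] [NormedAddCommGroup W] [NormedSpace ℝ W]

/-- finite rank operators: the span of the operators of rank at most one -/
def FR (V W : Type*) [NormedAddCommGroup V] [NormedSpace ℝ V] [NormedAddCommGroup W]
    [NormedSpace ℝ W] : Submodule ℝ (V →L[ℝ] W) :=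
  Submodule.span ℝ {T | ∃ (f : V →L[ℝ] ℝ) (w : W), T = f.smulRight w}

theorem FR.one (f : V →L[ℝ] ℝ) (w : W) : f.smulRight w ∈ FR V W :=
  Submodule.subset_span ⟨f, w, rfl⟩

theorem FR.ind {P : (V →L[ℝ] W) → Prop} (h1 : ∀ (f : V →L[ℝ] ℝ) (w : W), P (f.smulRight w))
    (h0 : P 0) (ha : ∀ S T, P S → P T → P (S + T)) {T : V →L[ℝ] W} (hT : T ∈ FR V W) : P T := by
  have key : ∀ c : ℝ, P (c • T) := by
    induction hT using Submodule.span_induction with
    | mem x hx =>
      obtain ⟨f, w, rfl⟩ := hx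
      intro c
      have : c • f.smulRight w = f.smulRight (c • w) := by
        ext x; simp [smul_smul, mul_comm]
      rw [this]; exact h1 _ _
    | zero => intro c; simpa using h0
    | add x y _ _ hx hy => intro c; rw [smul_add]; exact ha _ _ (hx c) (hy c)
    | smul a x _ hx => intro c; rw [smul_smul]; exact hx _
  simpa using key 1

theorem FR.comp_left (S : W →L[ℝ] U) {T : V →L[ℝ] W} (hT : T ∈ FR V W) : S.comp T ∈ FR V U := by
  refine FR.ind (P := fun T => S.comp T ∈ FR V U) ?_ ?_ ?_ hT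
  · intro f w
    have : S.comp (f.smulRight w) = f.smulRight (S w) := by ext x; simp
    rw [this]; exact FR.one _ _
  · simp
  · intro a b ha hb; rw [ContinuousLinearMap.comp_add]; exact add_mem ha hb

theorem FR.comp_right (S : U →L[ℝ] V) {T : V →L[ℝ] W} (hT : T ∈ FR V W) : T.comp S ∈ FR U W := by
  refine FR.ind (P := fun T => T.comp S ∈ FR U W) ?_ ?_ ?_ hT
  · intro f w
    have : (f.smulRight w).comp S = (f.comp S).smulRight w := by ext x; simp
    rw [this]; exact FR.one _ _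
  · simp
  · intro a b ha hb; rw [ContinuousLinearMap.add_comp]; exact add_mem ha hb

theorem FR.mul_left (S : V →L[ℝ] V) {T : V →L[ℝ] V} (hT : T ∈ FR V V) : S * T ∈ FR V V :=
  FR.comp_left S hT

theorem FR.mul_right (S : V →L[ℝ] V) {T : V →L[ℝ] V} (hT : T ∈ FR V V) : T * S ∈ FR V V :=
  FR.comp_right S hT

theorem FR.finiteDimensional {T : V →L[ℝ] W} (hT : T ∈ FR V W) :
    FiniteDimensional ℝ (LinearMap.range (T : V →ₗ[ℝ] W)) := by
  refine FR.ind (P := fun T => FiniteDimensional ℝ (LinearMap.range (T : V →ₗ[ℝ] W))) ?_ ?_ ?_ hT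
  · intro f w
    refine Submodule.finiteDimensional_of_le (S₂ := Submodule.span ℝ {w}) ?_
    rintro _ ⟨x, rfl⟩
    exact Submodule.smul_mem _ _ (Submodule.mem_span_singleton_self w)
  · refine Submodule.finiteDimensional_of_le (S₂ := ⊥) ?_
    rintro _ ⟨x, rfl⟩; simp
  · intro a b ha hb
    refine Submodule.finiteDimensional_of_le
      (S₂ := LinearMap.range (a : V →ₗ[ℝ] W) ⊔ LinearMap.range (b : V →ₗ[ℝ] W)) ?_
    rintro _ ⟨x, rfl⟩
    exact Submodule.add_mem_sup ⟨x, rfl⟩ ⟨x, rfl⟩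

theorem FR.of_finiteDimensional {T : V →L[ℝ] W}
    (hT : FiniteDimensional ℝ (LinearMap.range (T : V →ₗ[ℝ] W))) : T ∈ FR V W := by
  set G := LinearMap.range (T : V →ₗ[ℝ] W)
  let b := Module.finBasis ℝ G
  let T' : V →L[ℝ] G := T.codRestrict G (fun x => ⟨x, rfl⟩)
  have : T = ∑ i, ((LinearMap.toContinuousLinearMap (b.coord i)).comp T').smulRight (b i : W) := by
    ext x
    have h := congrArg (fun g : G => (g : W)) (b.sum_repr (T' x))
    simp only [Submodule.coe_sum, Submodule.coe_smul] at h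
    simp only [ContinuousLinearMap.sum_apply, ContinuousLinearMap.smulRight_apply,
      ContinuousLinearMap.comp_apply, LinearMap.coe_toContinuousLinearMap', Module.Basis.coord_apply]
    exact h.symm
  rw [this]
  exact Submodule.sum_mem _ fun i _ => FR.one _ _

/-- pointwise null families are norm null on finite rank operators -/
theorem FR.tendsto_left {J : Type*} {l : Filter J} {T : J → W →L[ℝ] U}
    (hT : ∀ w, Tendsto (fun j => T j w) l (𝓝 0)) {a : V →L[ℝ] W} (ha : a ∈ FR V W) :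
    Tendsto (fun j => ‖(T j).comp a‖) l (𝓝 0) := by
  refine FR.ind (P := fun a => Tendsto (fun j => ‖(T j).comp a‖) l (𝓝 0)) ?_ ?_ ?_ ha
  · intro f w
    have e : ∀ j, ‖(T j).comp (f.smulRight w)‖ = ‖f‖ * ‖T j w‖ := by
      intro j
      have : (T j).comp (f.smulRight w) = f.smulRight (T j w) := by ext x; simp
      rw [this, ContinuousLinearMap.norm_smulRight_apply]
    simp only [e]
    simpa using (hT w).norm.const_mul ‖f‖
  · simpa using tendsto_const_nhds
  · intro a b ha hb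
    refine squeeze_zero (fun _ => norm_nonneg _) (fun j => ?_) (by simpa using ha.add hb)
    rw [ContinuousLinearMap.comp_add]; exact norm_add_le _ _

theorem FR.tendsto_right {J : Type*} {l : Filter J} {T : J → U →L[ℝ] V}
    (hT : ∀ f : V →L[ℝ] ℝ, Tendsto (fun j => ‖f.comp (T j)‖) l (𝓝 0)) {a : V →L[ℝ] W}
    (ha : a ∈ FR V W) : Tendsto (fun j => ‖a.comp (T j)‖) l (𝓝 0) := by
  refine FR.ind (P := fun a => Tendsto (fun j => ‖a.comp (T j)‖) l (𝓝 0)) ?_ ?_ ?_ ha
  · intro f w
    have e : ∀ j, ‖(f.smulRight w).comp (T j)‖ = ‖f.comp (T j)‖ * ‖w‖ := by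
      intro j
      have : (f.smulRight w).comp (T j) = (f.comp (T j)).smulRight w := by ext x; simp
      rw [this, ContinuousLinearMap.norm_smulRight_apply]
    simp only [e]
    simpa using (hT f).mul_const ‖w‖
  · simpa using tendsto_const_nhds
  · intro a b ha hb
    refine squeeze_zero (fun _ => norm_nonneg _) (fun j => ?_) (by simpa using ha.add hb)
    rw [ContinuousLinearMap.add_comp]; exact norm_add_le _ _

/-- limit of functionals along an ultrafilter -/
theorem ulim {J : Type*} (𝒰 : Ultrafilter J) (h : J → V →L[ℝ] ℝ) (C : ℝ)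
    (hb : ∀ x, ∀ᶠ j in (𝒰 : Filter J), |h j x| ≤ C * ‖x‖) :
    ∃ g : V →L[ℝ] ℝ, ∀ x, Tendsto (fun j => h j x) 𝒰 (𝓝 (g x)) := by
  have ex : ∀ x, ∃ r : ℝ, Tendsto (fun j => h j x) 𝒰 (𝓝 r) := by
    intro x
    obtain ⟨r, -, hr⟩ := (isCompact_Icc (a := -(C * ‖x‖)) (b := C * ‖x‖)).ultrafilter_le_nhds
      (𝒰.map fun j => h j x) (by
        rw [Ultrafilter.coe_map, le_principal_iff, mem_map]
        filter_upwards [hb x] with j hj using abs_le.1 hj)
    exact ⟨r, hr⟩
  choose g hg using ex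
  let L : V →ₗ[ℝ] ℝ :=
    { toFun := g
      map_add' := fun x y => tendsto_nhds_unique (hg (x + y)) (by simpa using (hg x).add (hg y))
      map_smul' := fun c x => tendsto_nhds_unique (hg (c • x)) (by simpa using (hg x).const_mul c) }
  refine ⟨L.mkContinuous C fun x => ?_, hg⟩
  exact le_of_tendsto (hg x).abs (hb x)

/-- a finite rank operator composed with a bounded family has a finite rank pointwise limit -/
theorem FR.ulim {J : Type*} (𝒰 : Ultrafilter J) (T : J → U →L[ℝ] V) (K : ℝ) (hK : ∀ j, ‖T j‖ ≤ K)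
    {a : V →L[ℝ] W} (ha : a ∈ FR V W) :
    ∃ τ ∈ FR U W, ∀ x, Tendsto (fun j => a (T j x)) 𝒰 (𝓝 (τ x)) := by
  refine FR.ind (P := fun a => ∃ τ ∈ FR U W, ∀ x, Tendsto (fun j => a (T j x)) 𝒰 (𝓝 (τ x)))
    ?_ ?_ ?_ ha
  · intro f w
    obtain ⟨g, hg⟩ := AP.ulim 𝒰 (fun j => f.comp (T j)) (‖f‖ * K) (fun x => by
      refine Eventually.of_forall fun j => ?_
      calc |(f.comp (T j)) x| ≤ ‖f‖ * ‖T j x‖ := f.le_opNorm _
        _ ≤ ‖f‖ * (K * ‖x‖) := by
          gcongr; exact ((T j).le_opNorm x).trans (by gcongr; exact hK j)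
        _ = _ := by ring)
    exact ⟨g.smulRight w, FR.one _ _, fun x => by simpa using (hg x).smul_const w⟩
  · exact ⟨0, zero_mem _, fun x => by simp⟩
  · rintro a b ⟨s, hs, hs'⟩ ⟨t, ht, ht'⟩
    exact ⟨s + t, add_mem hs ht, fun x => by simpa using (hs' x).add (ht' x)⟩

end Pool.Agent.MP_7ca887_an.AP
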