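import Pool.Agent.MP_7ca887_an.ap.Code

/-! The countable condition holds exactly for isomorphic subspaces with the approximation property. -/

set_option autoImplicit false

open Filter Topology Finset
open scoped ENNReal

namespace Pool.Agent.MP_7ca887_an.AP

variable {p : ℝ≥0∞} [Fact (1 ≤ p)] {X Y : Type*} [NormedAddCommGroup X] [NormedSpace ℝ X]
  [NormedAddCommGroup Y] [NormedSpace ℝ Y]

theorem hasAP_of_bdd {T : ℕ → X →L[ℝ] X} (fin : ∀ n, T n ∈ FR X X) {C : ℝ} (hC : 0 ≤ C)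
    (bd : ∀ n x, ‖T n x‖ ≤ C * ‖x‖) (sot : ∀ x, Tendsto (fun n => T n x) atTop (𝓝 x)) : HasAP X := by
  intro K hK ε hε
  have key : ∀ᶠ n in atTop, ∀ x ∈ K, ‖T n x - x‖ ≤ ε := by
    refine hK.induction_on (p := fun s => ∀ᶠ n in atTop, ∀ x ∈ s, ‖T n x - x‖ ≤ ε) (by simp)
      (fun s t hst h => h.mono fun n hn x hx => hn x (hst hx))
      (fun s t hs ht => (hs.and ht).mono fun n hn x hx => hx.elim (hn.1 x) (hn.2 x)) fun x _ => ?_
    refine ⟨Metric.ball x (ε / 2 / (C + 1)),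
      mem_nhdsWithin_of_mem_nhds (Metric.ball_mem_nhds _ (by positivity)), ?_⟩
    filter_upwards [(tendsto_iff_norm_sub_tendsto_zero.1 (sot x)).eventually (ge_mem_nhds (half_pos hε))]
      with n hn y hy
    rw [mem_ball_iff_norm, lt_div_iff₀ (by positivity)] at hy
    have e : T n y - y = T n (y - x) + (T n x - x) - (y - x) := by rw [map_sub]; abel
    rw [e]
    have h1 := norm_sub_le (T n (y - x) + (T n x - x)) (y - x)
    have h2 := norm_add_le (T n (y - x)) (T n x - x)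
    linarith [bd n (y - x)]
  obtain ⟨n, hn⟩ := key.exists
  exact ⟨T n, FR.finiteDimensional (fin n), hn⟩

theorem HasAP.equiv (h : HasAP X) (e : X ≃L[ℝ] Y) : HasAP Y := by
  intro K hK ε hε
  obtain ⟨T, hT, hTK⟩ := h (e.symm '' K) (hK.image e.symm.continuous) (ε / (‖(e : X →L[ℝ] Y)‖ + 1))
    (by positivity)
  refine ⟨(e : X →L[ℝ] Y).comp (T.comp (e.symm : Y →L[ℝ] X)),
    FR.finiteDimensional (FR.comp_left _ (FR.comp_right _ (FR.of_finiteDimensional hT))), fun y hy => ?_⟩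
  have h1 := hTK _ ⟨y, hy, rfl⟩
  have h2 := (e : X →L[ℝ] Y).le_opNorm (T (e.symm y) - e.symm y)
  rw [le_div_iff₀ (by positivity)] at h1
  simp only [map_sub, ContinuousLinearEquiv.coe_coe, ContinuousLinearEquiv.apply_symm_apply] at h2
  refine h2.trans ?_
  linarith [norm_nonneg (T (e.symm y) - e.symm y)]

theorem FR.extend {Z : Type*} [NormedAddCommGroup Z] [NormedSpace ℝ Z] (ι : X →L[ℝ] Z)
    (hι : ∀ x, ‖ι x‖ = ‖x‖) {U : X →L[ℝ] Y} (hU : U ∈ FR X Y) : ∃ V ∈ FR Z Y, V.comp ι = U := by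
  refine FR.ind (P := fun U => ∃ V ∈ FR Z Y, V.comp ι = U) ?_ ⟨0, zero_mem _, by simp⟩ ?_ hU
  · intro f w
    obtain ⟨g, rfl⟩ := ext_dual ι hι f
    exact ⟨g.smulRight w, FR.one _ _, by ext x; simp⟩
  · rintro _ _ ⟨a, ha, rfl⟩ ⟨b, hb, rfl⟩
    exact ⟨a + b, add_mem ha hb, ContinuousLinearMap.add_comp _ _ _⟩

theorem norm_emb {ι : X →L[ℝ] El p} {κ : Y →L[ℝ] El p} (hι : ∀ x, ‖ι x‖ = ‖x‖) (hκ : ∀ y, ‖κ y‖ = ‖y‖)
    (w : X × Y) : ‖ι.prodMap κ w‖ = ‖w‖ := by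
  change max ‖ι w.1‖ ‖κ w.2‖ = max ‖w.1‖ ‖w.2‖
  rw [hι, hκ]

theorem tail_mono {m n : ℕ} (h : m ≤ n) (z : El p) : ‖z - Pn p n z‖ ≤ ‖z - Pn p m z‖ := by
  refine norm_le_of_abs fun i => ?_
  rw [lp.coeFn_sub, Pi.sub_apply, lp.coeFn_sub, Pi.sub_apply, Pn_apply, Pn_apply]
  split_ifs <;> first | omega | simp

theorem of_good (hp1 : p ≠ 1) (hp : p ≠ ⊤) [CompleteSpace X] [CompleteSpace Y] {ι : X →L[ℝ] El p}
    {κ : Y →L[ℝ] El p} (hι : ∀ x, ‖ι x‖ = ‖x‖) (hκ : ∀ y, ‖κ y‖ = ‖y‖)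
    (h : Good (Set.range ι ×ˢ Set.range κ)) : Nonempty (X ≃L[ℝ] Y) ∧ HasAP X := by
  obtain ⟨K, hK⟩ := h
  have hE := norm_emb hι hκ
  have ex : ∀ m : ℕ, ∃ U ∈ FR X Y, ∃ V ∈ FR Y X, ∀ w, ‖od U V w‖ ≤ K * ‖w‖ ∧
      ‖od U V (od U V w) - w‖ ≤ 1 / (m + 1) * ‖w‖ + K * ‖ι.prodMap κ w - PP p m (ι.prodMap κ w)‖ ∧
      ‖PP p m (ι.prodMap κ (od U V (od U V w) - w))‖ ≤ 1 / (m + 1) * ‖w‖ := by
    intro m
    obtain ⟨n, u, hu, hc⟩ := hK m
    choose x hx using fun j => (hu j).1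
    choose y hy using fun j => (hu j).2
    refine ⟨(fo p y).comp ι, FR.comp_right _ (fo_fin y), (fo p x).comp κ, FR.comp_right _ (fo_fin x),
      fun w => ?_⟩
    have e : ∀ w, opA p u (ι.prodMap κ w) = ι.prodMap κ (od ((fo p y).comp ι) ((fo p x).comp κ) w) := by
      intro w
      simp [opA, fo_apply, hx, hy]
    have := hc.self_of_nhds (ι.prodMap κ w) ⟨⟨_, rfl⟩, ⟨_, rfl⟩⟩
    simp only [Set.mem_ofPred_eq, Cond, e, ← map_sub (ι.prodMap κ), hE] at this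
    exact this
  choose U hU V hV hJ using ex
  have lim0 : Tendsto (fun m : ℕ => (1 : ℝ) / (m + 1)) atTop (𝓝 0) := tendsto_one_div_add_atTop_nhds_zero_nat
  have sot : ∀ w, Tendsto (fun m => od (U m) (V m) (od (U m) (V m) w)) atTop (𝓝 w) := by
    intro w
    rw [tendsto_iff_norm_sub_tendsto_zero]
    refine squeeze_zero (fun _ => norm_nonneg _) (fun m => (hJ m w).2.1) ?_
    simpa using (lim0.mul_const ‖w‖).add
      ((((PP_tendsto hp (ι.prodMap κ w)).const_sub (ι.prodMap κ w)).norm).const_mul (K : ℝ))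
  have sq : ∀ m w, ‖od (U m) (V m) (od (U m) (V m) w)‖ ≤ K * K * ‖w‖ := fun m w =>
    (hJ m _).1.trans (by rw [mul_assoc]; gcongr; exact (hJ m w).1)
  have adj : ∀ f : X × Y →L[ℝ] ℝ,
      Tendsto (fun m => ‖f.comp (1 - od (U m) (V m) * od (U m) (V m))‖) atTop (𝓝 0) := by
    intro f
    obtain ⟨g, rfl⟩ := ext_dual (ι.prodMap κ) hE f
    have lim := ((PP_adj hp1 hp g).mul_const (K * K + 1 : ℝ)).add (lim0.const_mul ‖g‖)
    rw [zero_mul, mul_zero, add_zero] at lim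
    refine squeeze_zero (fun _ => norm_nonneg _) (fun m => ?_) lim
    refine ContinuousLinearMap.opNorm_le_bound _ (by positivity) fun w => ?_
    have e : ((g.comp (ι.prodMap κ)).comp (1 - od (U m) (V m) * od (U m) (V m))) w =
        -((g.comp (1 - PP p m)) (ι.prodMap κ (od (U m) (V m) (od (U m) (V m) w) - w)) +
          g (PP p m (ι.prodMap κ (od (U m) (V m) (od (U m) (V m) w) - w)))) := by
      rw [ContinuousLinearMap.comp_apply g (1 - PP p m), ← map_add, _root_.sub_apply, sub_add_cancel,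
        one_apply_eq_self, ← map_neg, ← map_neg, neg_sub]
      rfl
    have h1 : ‖od (U m) (V m) (od (U m) (V m) w) - w‖ ≤ (K * K + 1) * ‖w‖ := by
      linarith [norm_sub_le (od (U m) (V m) (od (U m) (V m) w)) w, sq m w]
    rw [e, norm_neg, add_mul, mul_assoc, mul_assoc]
    refine (norm_add_le _ _).trans (add_le_add ?_ ?_)
    · exact (ContinuousLinearMap.le_opNorm _ _).trans (by rw [hE]; gcongr)
    · exact (g.le_opNorm _).trans (by gcongr; exact (hJ m w).2.2)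
  have apX : HasAP X := hasAP_of_bdd (T := fun m => (V m).comp (U m)) (fun m => FR.comp_left _ (hU m))
    (C := K * K) (by positivity)
    (fun m x => by simpa using (norm_fst_le _).trans (sq m (x, 0)))
    (fun x => by simpa [Function.comp_def] using (continuous_fst.tendsto _).comp (sot (x, 0)))
  have apY : HasAP Y := hasAP_of_bdd (T := fun m => (U m).comp (V m)) (fun m => FR.comp_left _ (hV m))
    (C := K * K) (by positivity)
    (fun m y => by simpa using (norm_snd_le _).trans (sq m (0, y)))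
    (fun y => by simpa [Function.comp_def] using (continuous_snd.tendsto _).comp (sot (0, y)))
  obtain ⟨H⟩ := half_exists hp1 hp ι hι apX
  obtain ⟨G⟩ := half_exists hp1 hp κ hκ apY
  obtain ⟨u, hu, odd⟩ := core sg_sq (H.cuts hp G) (J := fun m => od (U m) (V m)) (K := K)
    (fun m => ContinuousLinearMap.opNorm_le_bound _ (by positivity) fun w => (hJ m w).1)
    (fun m => od_odd _ _) sot adj
  exact ⟨iso_of_odd hu odd, apX⟩

theorem cut_sq {W : Type*} [NormedAddCommGroup W] [NormedSpace ℝ W] {s : W →L[ℝ] W} (𝒞 : Cuts W s)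
    {J : W →L[ℝ] W} (hJ : J * J = 1) :
    (∀ w, Tendsto (fun l => (1 - J * 𝒞.c l * (J * 𝒞.c l)) w) atTop (𝓝 0)) ∧
    ∀ f : W →L[ℝ] ℝ, Tendsto (fun l => ‖f.comp (1 - J * 𝒞.c l * (J * 𝒞.c l))‖) atTop (𝓝 0) := by
  have e1 : ∀ l, 1 - J * 𝒞.c l * (J * 𝒞.c l) = J * 𝒞.c l * J * (1 - 𝒞.c l) + J * (1 - 𝒞.c l) * J := by
    intro l; rw [mul_sub, mul_sub, sub_mul, mul_one, mul_one, hJ, mul_assoc _ J]; abel
  have e2 : ∀ l, 1 - J * 𝒞.c l * (J * 𝒞.c l) = (1 - 𝒞.c l) + J * (1 - 𝒞.c l) * (J * 𝒞.c l) := by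
    intro l; rw [mul_sub, sub_mul, mul_one, ← mul_assoc J J, hJ, one_mul]; abel
  refine ⟨fun w => ?_, fun f => ?_⟩
  · have t : ∀ w, Tendsto (fun l => ‖(1 - 𝒞.c l) w‖) atTop (𝓝 0) := fun w => by
      simpa using ((𝒞.sot w).const_sub w).norm
    have lim := ((t w).const_mul (‖J‖ * 2 * ‖J‖)).add ((t (J w)).const_mul ‖J‖)
    rw [mul_zero, mul_zero, add_zero] at lim
    rw [tendsto_zero_iff_norm_tendsto_zero]
    refine squeeze_zero (fun _ => norm_nonneg _) (fun l => ?_) lim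
    rw [e1, _root_.add_apply]
    refine (norm_add_le _ _).trans (add_le_add ?_ (J.le_opNorm _))
    refine (J * 𝒞.c l * J).le_of_opNorm_le ((norm_mul_le _ _).trans ?_) _
    gcongr
    exact (norm_mul_le _ _).trans (by gcongr; exact 𝒞.bd l)
  · have lim := (𝒞.adj f).add ((𝒞.adj (f.comp J)).mul_const (‖J‖ * 2))
    rw [zero_mul, add_zero] at lim
    refine squeeze_zero (fun _ => norm_nonneg _) (fun l => ?_) lim
    rw [e2, ContinuousLinearMap.comp_add]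
    refine (norm_add_le _ _).trans (add_le_add le_rfl ?_)
    refine (((f.comp J).comp (1 - 𝒞.c l)).opNorm_comp_le (J * 𝒞.c l)).trans ?_
    gcongr
    exact (norm_mul_le _ _).trans (by gcongr; exact 𝒞.bd l)

theorem good_of (hp1 : p ≠ 1) (hp : p ≠ ⊤) [CompleteSpace X] [CompleteSpace Y] {ι : X →L[ℝ] El p}
    {κ : Y →L[ℝ] El p} (hι : ∀ x, ‖ι x‖ = ‖x‖) (hκ : ∀ y, ‖κ y‖ = ‖y‖) (e : X ≃L[ℝ] Y) (apX : HasAP X) :
    Good (Set.range ι ×ˢ Set.range κ) := by
  have hE := norm_emb hι hκ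
  obtain ⟨H⟩ := half_exists hp1 hp ι hι apX
  obtain ⟨G⟩ := half_exists hp1 hp κ hκ (apX.equiv e)
  obtain ⟨J, hJ⟩ : ∃ J, J = od (e : X →L[ℝ] Y) (e.symm : Y →L[ℝ] X) := ⟨_, rfl⟩
  have JJ : J * J = 1 := by rw [hJ]; ext <;> simp
  obtain ⟨sot, adj⟩ := cut_sq (H.cuts hp G) JJ
  have bdc := (H.cuts hp G).bd
  have finc := (H.cuts hp G).fin
  have near : ∀ m l w, m ≤ l → ‖w - (H.cuts hp G).c l w‖ ≤
      (1 / 2) ^ l * ‖w‖ + ‖ι.prodMap κ w - PP p m (ι.prodMap κ w)‖ := by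
    intro m l w hml
    refine max_le ((H.near l w.1).trans (add_le_add ?_ ?_)) ((G.near l w.2).trans (add_le_add ?_ ?_))
    · gcongr; exact norm_fst_le w
    · exact (tail_mono hml _).trans (le_max_left _ _)
    · gcongr; exact norm_snd_le w
    · exact (tail_mono hml _).trans (le_max_right _ _)
  have Jc : ∀ l, J * (H.cuts hp G).c l =
      od ((e : X →L[ℝ] Y).comp (H.φ l)) ((e.symm : Y →L[ℝ] X).comp (G.φ l)) := by
    intro l; rw [hJ]; ext <;> simp [Half.cuts]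
  generalize (H.cuts hp G).c = c at sot adj bdc finc near Jc
  obtain ⟨K, hK⟩ := exists_nat_ge (‖J‖ * 2 + 1 + ‖J‖ * 2 * (‖J‖ * 2))
  have hL : ∀ l, ‖J * c l‖ ≤ ‖J‖ * 2 := fun l => (norm_mul_le _ _).trans (by gcongr; exact bdc l)
  have hR : ∀ l w, ‖(1 - J * c l * (J * c l)) w‖ ≤ K * ‖w‖ := by
    intro l w
    have h1 : ‖J * c l * (J * c l)‖ ≤ ‖J‖ * 2 * (‖J‖ * 2) :=
      (norm_mul_le _ _).trans (by gcongr <;> exact hL l)
    have h2 := (J * c l * (J * c l)).le_of_opNorm_le h1 w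
    have h3 := norm_sub_le w ((J * c l * (J * c l)) w)
    have h4 := mul_le_mul_of_nonneg_right hK (norm_nonneg w)
    have h5 : 0 ≤ ‖J‖ * 2 * ‖w‖ := by positivity
    change ‖w - (J * c l * (J * c l)) w‖ ≤ _
    linarith
  refine ⟨K + 1, fun m => ?_⟩
  obtain ⟨ε, hε⟩ : ∃ ε : ℝ, ε = 1 / (m + 1) / 4 := ⟨_, rfl⟩
  have ε0 : 0 < ε := by rw [hε]; positivity
  have lim : Tendsto (fun l : ℕ => (K : ℝ) * (1 / 2) ^ l) atTop (𝓝 0) := by
    simpa using (tendsto_pow_atTop_nhds_zero_of_lt_one (r := (1 : ℝ) / 2) (by norm_num)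
      (by norm_num)).const_mul (K : ℝ)
  obtain ⟨l0, a1, a2⟩ := ((lim.eventually (ge_mem_nhds ε0)).and (eventually_ge_atTop m)).exists
  obtain ⟨l, b1, b2⟩ := (((FR.tendsto_left sot (finc l0)).eventually (ge_mem_nhds ε0)).and
    ((FR.tendsto_right adj (FR.comp_right (ι.prodMap κ) (fin_prod (Pn_fin m) (Pn_fin m)))).eventually
      (ge_mem_nhds ε0))).exists
  obtain ⟨U, hU, eU⟩ := FR.extend ι hι (FR.comp_left (e : X →L[ℝ] Y) (H.fin l))
  obtain ⟨V, hV, eV⟩ := FR.extend κ hκ (FR.comp_left (e.symm : Y →L[ℝ] X) (G.fin l))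
  have eA : ∀ w, od (κ.comp U) (ι.comp V) (ι.prodMap κ w) = ι.prodMap κ ((J * c l) w) := by
    intro w; rw [Jc, ← eU, ← eV]; simp
  have cA : ∀ z ∈ Set.range ι ×ˢ Set.range κ, Cond (PP p m) (od (κ.comp U) (ι.comp V)) K (2 * ε) z := by
    rintro ⟨_, _⟩ ⟨⟨x, rfl⟩, ⟨y, rfl⟩⟩
    obtain ⟨w, hw⟩ : ∃ w : X × Y, (ι x, κ y) = ι.prodMap κ w := ⟨(x, y), rfl⟩
    rw [hw]
    have c0 : (J * c l) ((J * c l) w) - w = -(1 - J * c l * (J * c l)) w := (neg_sub _ _).symm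
    simp only [Cond, eA, ← map_sub (ι.prodMap κ), hE, c0, map_neg, norm_neg]
    have h0 : 0 ≤ ε * ‖w‖ := by positivity
    refine ⟨((J * c l).le_of_opNorm_le (hL l) w).trans ?_, ?_, ?_⟩
    · gcongr; nlinarith [norm_nonneg J]
    · have c1 : (1 - J * c l * (J * c l)) w =
          (1 - J * c l * (J * c l)) (c l0 w) + (1 - J * c l * (J * c l)) (w - c l0 w) := by
        rw [← map_add, add_sub_cancel]
      have c2 : ‖(1 - J * c l * (J * c l)) (c l0 w)‖ ≤ ε * ‖w‖ :=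
        ContinuousLinearMap.le_of_opNorm_le _ b1 w
      have c3 := (hR l (w - c l0 w)).trans (mul_le_mul_of_nonneg_left (near m l0 w a2) (Nat.cast_nonneg K))
      have c4 := mul_le_mul_of_nonneg_right a1 (norm_nonneg w)
      rw [c1]
      refine (norm_add_le _ _).trans ?_
      linarith
    · have c2 : ‖PP p m (ι.prodMap κ ((1 - J * c l * (J * c l)) w))‖ ≤ ε * ‖w‖ :=
        ContinuousLinearMap.le_of_opNorm_le _ b2 w
      linarith
  have st := (Cond.stable (norm_PP_le (p := p) m) (od (κ.comp U) (ι.comp V))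
    (ε := 2 * ε) (by positivity)).eventually_nhds
  have t : Tendsto (fun n => (od (κ.comp U) (ι.comp V)).comp (PP p n)) atTop
      (𝓝 (od (κ.comp U) (ι.comp V))) := by
    rw [tendsto_iff_norm_sub_tendsto_zero]
    refine (FR.tendsto_right (PP_adj hp1 hp) (od_fin (FR.comp_left κ hU) (FR.comp_left ι hV))).congr
      fun n => ?_
    rw [norm_sub_rev, ContinuousLinearMap.comp_sub]; rfl
  obtain ⟨n, hn⟩ := (t.eventually st).exists
  refine ⟨n, fun j => (ι (V (un p j)), κ (U (un p j))), fun j => ⟨⟨_, rfl⟩, ⟨_, rfl⟩⟩, ?_⟩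
  have eo : opA p (fun j : Fin n => (ι (V (un p j)), κ (U (un p j)))) =
      (od (κ.comp U) (ι.comp V)).comp (PP p n) := by
    have f1 := fo_un n (κ.comp U)
    have f2 := fo_un n (ι.comp V)
    change od (fo p fun j : Fin n => (κ.comp U) (un p j)) (fo p fun j : Fin n => (ι.comp V) (un p j)) = _
    rw [f1, f2]
    exact ContinuousLinearMap.ext fun z => by simp [PP]
  rw [← eo] at hn
  filter_upwards [((opA_cont n).tendsto _).eventually hn] with v hv z hz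
  have := hv _ _ z (cA z hz)
  rw [show 2 * ε + 2 * ε = 1 / (m + 1) by rw [hε]; ring] at this
  simpa using this

end Pool.Agent.MP_7ca887_an.AP
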