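import Pool.Agent.MP_7ca887_an.ap.Cat

/-! Coordinate projections of the sequence space, band estimates, shrinking, reflexivity. -/

set_option autoImplicit false

open Filter Topology Finset
open scoped ENNReal

namespace Pool.Agent.MP_7ca887_an.AP

/-- the sequence space -/
abbrev El (p : ℝ≥0∞) := lp (fun _ : ℕ => ℝ) p

variable {p : ℝ≥0∞} [Fact (1 ≤ p)]

/-- coordinate functional -/
noncomputable def co (p : ℝ≥0∞) [Fact (1 ≤ p)] (i : ℕ) : El p →L[ℝ] ℝ := lp.evalCLM ℝ (fun _ : ℕ => ℝ) p i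

@[simp] theorem co_apply (i : ℕ) (z : El p) : co p i z = z i := rfl

/-- unit vector -/
noncomputable def un (p : ℝ≥0∞) (i : ℕ) : El p := lp.single p i (1 : ℝ)

/-- projection on the first `n` coordinates -/
noncomputable def Pn (p : ℝ≥0∞) [Fact (1 ≤ p)] (n : ℕ) : El p →L[ℝ] El p :=
  ∑ i ∈ range n, (co p i).smulRight (un p i)

theorem p_ne_zero : p ≠ 0 := (zero_lt_one.trans_le (Fact.out : 1 ≤ p)).ne'

theorem abs_apply_le (z : El p) (i : ℕ) : |z i| ≤ ‖z‖ := lp.norm_apply_le_norm p_ne_zero z i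

theorem Pn_eq (n : ℕ) (z : El p) : Pn p n z = ∑ i ∈ range n, z i • un p i := by
  simp [Pn]

omit [Fact (1 ≤ p)] in
theorem sum_un_apply (n : ℕ) (a : ℕ → ℝ) (j : ℕ) :
    (∑ i ∈ range n, a i • un p i : El p) j = if j < n then a j else 0 := by
  rw [lp.coeFn_sum, Finset.sum_apply]
  simp only [lp.coeFn_smul, Pi.smul_apply, un, lp.single_apply, Pi.single_apply, smul_eq_mul, mul_ite,
    mul_one, mul_zero, Finset.sum_ite_eq, Finset.mem_range]

theorem Pn_apply (n : ℕ) (z : El p) (j : ℕ) : Pn p n z j = if j < n then z j else 0 := by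
  rw [Pn_eq, sum_un_apply]

theorem Pn_fin (n : ℕ) : Pn p n ∈ FR (El p) (El p) := Submodule.sum_mem _ fun _ _ => FR.one _ _

theorem norm_le_of_abs {x y : El p} (h : ∀ i, |x i| ≤ |y i|) : ‖x‖ ≤ ‖y‖ := lp.norm_mono p_ne_zero h

theorem norm_Pn_le (n : ℕ) (z : El p) : ‖Pn p n z‖ ≤ ‖z‖ :=
  norm_le_of_abs fun i => by rw [Pn_apply]; split_ifs <;> simp

theorem Pn_tendsto (hp : p ≠ ⊤) (z : El p) : Tendsto (fun n => Pn p n z) atTop (𝓝 z) := by
  refine (lp.hasSum_single hp z).tendsto_sum_nat.congr fun n => ?_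
  rw [Pn_eq]
  refine Finset.sum_congr rfl fun i _ => ?_
  rw [un, ← lp.single_smul, smul_eq_mul, mul_one]

theorem one_le_toReal (hp : p ≠ ⊤) : 1 ≤ p.toReal := by
  simpa using ENNReal.toReal_mono hp (Fact.out : 1 ≤ p)

theorem low_est (hp : p ≠ ⊤) (S : Finset ℕ) (π : ℕ → ℕ → ℝ) (h0 : ∀ k i, 0 ≤ π k i)
    (h1 : ∀ i, ∑ k ∈ S, π k i ≤ 1) (z : El p) (y : ℕ → El p) (hy : ∀ k i, y k i = π k i * z i) :
    ∑ k ∈ S, ‖y k‖ ^ p.toReal ≤ ‖z‖ ^ p.toReal := by
  have hq := one_le_toReal hp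
  have hq0 : 0 < p.toReal := by linarith
  refine hasSum_le (fun i => ?_) (hasSum_sum fun k _ => lp.hasSum_norm hq0 (y k)) (lp.hasSum_norm hq0 z)
  calc ∑ k ∈ S, ‖y k i‖ ^ p.toReal ≤ ∑ k ∈ S, π k i * ‖z i‖ ^ p.toReal := by
        refine Finset.sum_le_sum fun k hk => ?_
        rw [hy, norm_mul, Real.mul_rpow (norm_nonneg _) (norm_nonneg _), Real.norm_of_nonneg (h0 k i)]
        refine mul_le_mul_of_nonneg_right ?_ (by positivity)
        exact Real.rpow_le_self_of_le_one (h0 k i)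
          ((Finset.single_le_sum (fun k _ => h0 k i) hk).trans (h1 i)) hq
    _ = (∑ k ∈ S, π k i) * ‖z i‖ ^ p.toReal := by rw [Finset.sum_mul]
    _ ≤ _ := mul_le_of_le_one_left (by positivity) (h1 i)

theorem up_est (hp : p ≠ ⊤) (S : Finset ℕ) (π : ℕ → ℕ → ℝ) (h0 : ∀ k i, 0 ≤ π k i)
    (h1 : ∀ i, ∑ k ∈ S, π k i ≤ 1) (v u : ℕ → El p) (hu : ∀ k i, u k i = π k i * v k i) :
    ‖∑ k ∈ S, u k‖ ^ p.toReal ≤ ∑ k ∈ S, ‖v k‖ ^ p.toReal := by
  have hq := one_le_toReal hp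
  have hq0 : 0 < p.toReal := by linarith
  refine hasSum_le (fun i => ?_) (lp.hasSum_norm hq0 _) (hasSum_sum fun k _ => lp.hasSum_norm hq0 (v k))
  have s0 : 0 ≤ ∑ k ∈ S, π k i * ‖v k i‖ ^ p.toReal :=
    Finset.sum_nonneg fun k _ => mul_nonneg (h0 k i) (by positivity)
  have a1 : ‖(∑ k ∈ S, u k) i‖ ≤ ∑ k ∈ S, π k i * ‖v k i‖ := by
    rw [lp.coeFn_sum, Finset.sum_apply]
    refine norm_sum_le_of_le _ fun k _ => ?_
    rw [hu, norm_mul, Real.norm_of_nonneg (h0 k i)]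
  have a2 := Real.inner_le_weight_mul_Lp_of_nonneg S hq (fun k => π k i) (fun k => ‖v k i‖)
    (fun k => h0 k i) (fun k => norm_nonneg _)
  have a3 : (∑ k ∈ S, π k i) ^ (1 - p.toReal⁻¹) ≤ 1 :=
    Real.rpow_le_one (Finset.sum_nonneg fun k _ => h0 k i) (h1 i)
      (sub_nonneg.2 (inv_le_one_of_one_le₀ hq))
  have a4 : ‖(∑ k ∈ S, u k) i‖ ≤ (∑ k ∈ S, π k i * ‖v k i‖ ^ p.toReal) ^ p.toReal⁻¹ :=
    a1.trans (a2.trans (mul_le_of_le_one_left (by positivity) a3))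
  calc ‖(∑ k ∈ S, u k) i‖ ^ p.toReal
      ≤ ((∑ k ∈ S, π k i * ‖v k i‖ ^ p.toReal) ^ p.toReal⁻¹) ^ p.toReal := by gcongr
    _ = ∑ k ∈ S, π k i * ‖v k i‖ ^ p.toReal := Real.rpow_inv_rpow s0 hq0.ne'
    _ ≤ _ := Finset.sum_le_sum fun k hk => mul_le_of_le_one_left (by positivity)
        ((Finset.single_le_sum (fun k _ => h0 k i) hk).trans (h1 i))

theorem band_sum {x : ℕ → ℝ} (hm : Monotone x) (h0 : 0 ≤ x 0) (h1 : ∀ k, x k ≤ 1) (S : Finset ℕ) :
    ∑ k ∈ S, (x (k + 1) - x k) ≤ 1 := by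
  obtain ⟨n, hn⟩ := S.exists_nat_subset_range
  calc ∑ k ∈ S, (x (k + 1) - x k) ≤ ∑ k ∈ range n, (x (k + 1) - x k) :=
        Finset.sum_le_sum_of_subset_of_nonneg hn fun k _ _ => sub_nonneg.2 (hm (Nat.le_succ k))
    _ = x n - x 0 := Finset.sum_range_sub x n
    _ ≤ 1 := by linarith [h1 n]

theorem one_lt_toReal (hp1 : p ≠ 1) (hp : p ≠ ⊤) : 1 < p.toReal := by
  have h : 1 < p := lt_of_le_of_ne Fact.out hp1.symm
  simpa using (ENNReal.toReal_lt_toReal (by simp) hp).2 h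

variable {X : Type*} [NormedAddCommGroup X] [NormedSpace ℝ X]

theorem shrink (hp1 : p ≠ 1) (hp : p ≠ ⊤) (Φ : (X →L[ℝ] El p) →L[ℝ] ℝ) {ε : ℝ} (hε : 0 < ε) :
    ∃ m, ∀ a b, m ≤ a → a ≤ b → ∀ S : X →L[ℝ] El p, |Φ ((Pn p b - Pn p a).comp S)| ≤ ε * ‖S‖ := by
  by_contra hcon
  push Not at hcon
  have step : ∀ m : ℕ, ∃ y : ℕ × ℕ × (X →L[ℝ] El p), m ≤ y.1 ∧ y.1 ≤ y.2.1 ∧ ‖y.2.2‖ ≤ 1 ∧
      ε ≤ Φ ((Pn p y.2.1 - Pn p y.1).comp y.2.2) := by
    intro m
    obtain ⟨a, b, h1, h2, S, hS⟩ := hcon m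
    have hS0 : S ≠ 0 := by rintro rfl; simp at hS
    have hn : 0 < ‖S‖ := norm_pos_iff.2 hS0
    have key : ∀ c : ℝ, Φ ((Pn p b - Pn p a).comp (c • S)) = c * Φ ((Pn p b - Pn p a).comp S) := by
      intro c; rw [ContinuousLinearMap.comp_smul, map_smul, smul_eq_mul]
    rcases le_total 0 (Φ ((Pn p b - Pn p a).comp S)) with h | h
    · refine ⟨⟨a, b, ‖S‖⁻¹ • S⟩, h1, h2, by simp [norm_smul, hn.ne'], ?_⟩
      rw [abs_of_nonneg h] at hS
      rw [key, le_inv_mul_iff₀ hn]; linarith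
    · refine ⟨⟨a, b, (-‖S‖⁻¹) • S⟩, h1, h2, by simp [norm_smul, hn.ne'], ?_⟩
      rw [abs_of_nonpos h] at hS
      rw [key, neg_mul, ← mul_neg, le_inv_mul_iff₀ hn]; linarith
  obtain ⟨f, hf⟩ := dep_choice (fun _ (y : ℕ × ℕ × (X →L[ℝ] El p)) => y.1 ≤ y.2.1 ∧ ‖y.2.2‖ ≤ 1 ∧
      ε ≤ Φ ((Pn p y.2.1 - Pn p y.1).comp y.2.2)) (fun _ x y => x.2.1 ≤ y.1)
    ((step 0).imp fun _ h => h.2) (fun _ x _ => (step x.2.1).imp fun _ h => ⟨h.2, h.1⟩)
  have hq := one_lt_toReal hp1 hp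
  have hq0 : 0 < p.toReal := by linarith
  have mono : Monotone fun k => (f k).1 := monotone_nat_of_le_succ fun k => (hf k).1.1.trans (hf k).2
  have bound : ∀ N : ℕ, ‖∑ k ∈ range N, (Pn p (f k).2.1 - Pn p (f k).1).comp (f k).2.2‖ ≤
      (N : ℝ) ^ p.toReal⁻¹ := by
    intro N
    refine ContinuousLinearMap.opNorm_le_bound _ (by positivity) fun x => ?_
    have h := up_est hp (range N)
      (fun k i => (if i < (f k).2.1 then (1 : ℝ) else 0) - if i < (f k).1 then 1 else 0)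
      (fun k i => by have := (hf k).1.1; split_ifs <;> first | omega | norm_num)
      (fun i => by
        refine le_trans (Finset.sum_le_sum fun k _ => ?_)
          (band_sum (x := fun k => if i < (f k).1 then (1 : ℝ) else 0) ?_ ?_ ?_ (range N))
        · have := (hf k).2
          refine sub_le_sub_right ?_ _
          split_ifs <;> first | omega | norm_num
        · intro k l hkl
          have := mono hkl
          dsimp only at this ⊢
          split_ifs <;> first | omega | norm_num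
        · split_ifs <;> norm_num
        · intro k; split_ifs <;> norm_num)
      (fun k => (f k).2.2 x) (fun k => (Pn p (f k).2.1 - Pn p (f k).1) ((f k).2.2 x))
      (fun k i => by
        rw [_root_.sub_apply, lp.coeFn_sub, Pi.sub_apply, Pn_apply, Pn_apply]
        split_ifs <;> ring)
    have h2 : ∑ k ∈ range N, ‖(f k).2.2 x‖ ^ p.toReal ≤ ((N : ℝ) ^ p.toReal⁻¹ * ‖x‖) ^ p.toReal := by
      rw [Real.mul_rpow (by positivity) (norm_nonneg _), Real.rpow_inv_rpow (by positivity) hq0.ne']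
      calc _ ≤ ∑ k ∈ range N, ‖x‖ ^ p.toReal := Finset.sum_le_sum fun k _ => by
            gcongr
            exact ((f k).2.2.le_opNorm x).trans (mul_le_of_le_one_left (norm_nonneg _) (hf k).1.2.1)
        _ = _ := by simp
    rw [_root_.sum_apply]
    exact (Real.rpow_le_rpow_iff (norm_nonneg _) (by positivity) hq0).1 (h.trans h2)
  have main : ∀ N : ℕ, 0 < N → ε * (N : ℝ) ^ (1 - p.toReal⁻¹) ≤ ‖Φ‖ := by
    intro N hN
    have hN' : (0 : ℝ) < N := by exact_mod_cast hN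
    have h1 : (N : ℝ) * ε ≤ ‖Φ‖ * (N : ℝ) ^ p.toReal⁻¹ := by
      calc (N : ℝ) * ε = ∑ k ∈ range N, ε := by simp
        _ ≤ ∑ k ∈ range N, Φ ((Pn p (f k).2.1 - Pn p (f k).1).comp (f k).2.2) :=
            Finset.sum_le_sum fun k _ => (hf k).1.2.2
        _ = Φ (∑ k ∈ range N, (Pn p (f k).2.1 - Pn p (f k).1).comp (f k).2.2) := by rw [map_sum]
        _ ≤ _ := (le_abs_self _).trans ((Φ.le_opNorm _).trans (by gcongr; exact bound N))
    rw [Real.rpow_sub hN', Real.rpow_one, ← mul_div_assoc, div_le_iff₀ (by positivity)]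
    linarith
  have lim : Tendsto (fun N : ℕ => ε * (N : ℝ) ^ (1 - p.toReal⁻¹)) atTop atTop :=
    ((tendsto_rpow_atTop (sub_pos.2 (inv_lt_one_of_one_lt₀ hq))).comp
      tendsto_natCast_atTop_atTop).const_mul_atTop hε
  obtain ⟨N, h1, h2⟩ := ((lim.eventually_gt_atTop ‖Φ‖).and (eventually_gt_atTop 0)).exists
  exact absurd (main N h2) (not_le.2 h1)

theorem shrink_dual (hp1 : p ≠ 1) (hp : p ≠ ⊤) (g : El p →L[ℝ] ℝ) :
    Tendsto (fun n => ‖g.comp (1 - Pn p n)‖) atTop (𝓝 0) := by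
  rw [Metric.tendsto_atTop]
  intro ε hε
  obtain ⟨m, hm⟩ := shrink (X := ℝ) hp1 hp (g.comp (ContinuousLinearMap.apply ℝ (El p) (1 : ℝ)))
    (half_pos hε)
  refine ⟨m, fun n hn => ?_⟩
  rw [dist_zero_right, norm_norm]
  refine lt_of_le_of_lt (ContinuousLinearMap.opNorm_le_bound _ (half_pos hε).le fun z => ?_)
    (half_lt_self hε)
  have t : Tendsto (fun b => ‖g (Pn p b z - Pn p n z)‖) atTop (𝓝 ‖g (z - Pn p n z)‖) :=
    ((g.continuous.tendsto _).comp ((Pn_tendsto hp z).sub_const _)).norm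
  refine le_of_tendsto t ?_
  filter_upwards [eventually_ge_atTop n] with b hb
  simpa [ContinuousLinearMap.norm_smulRight_apply] using
    hm n b hn hb ((ContinuousLinearMap.id ℝ ℝ).smulRight z)

theorem ext_dual {Z : Type*} [NormedAddCommGroup Z] [NormedSpace ℝ Z] (ι : X →L[ℝ] Z)
    (hι : ∀ x, ‖ι x‖ = ‖x‖) (f : X →L[ℝ] ℝ) : ∃ g : Z →L[ℝ] ℝ, g.comp ι = f := by
  let L : X →ₗᵢ[ℝ] Z := ⟨(ι : X →ₗ[ℝ] Z), hι⟩
  obtain ⟨g, hg, -⟩ := exists_extension_norm_eq (LinearMap.range L.toLinearMap)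
    (f.comp L.equivRange.symm.toContinuousLinearEquiv.toContinuousLinearMap)
  refine ⟨g, ?_⟩
  ext x
  have := hg (L.equivRange x)
  have e : g (L x) = f x := by simpa using this
  exact e

theorem reflexive (hp1 : p ≠ 1) (hp : p ≠ ⊤) [CompleteSpace X] (ι : X →L[ℝ] El p)
    (hι : ∀ x, ‖ι x‖ = ‖x‖) (Ψ : (X →L[ℝ] ℝ) →L[ℝ] ℝ) : ∃ y : X, ∀ f, Ψ f = f y := by
  have hq0 : 0 < p.toReal := by linarith [one_le_toReal hp]
  let a : ℕ → ℝ := fun i => Ψ ((co p i).comp ι)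
  have key : ∀ (g : El p →L[ℝ] ℝ) n, g (∑ i ∈ range n, a i • un p i) =
      Ψ ((g.comp (Pn p n)).comp ι) := by
    intro g n
    have : (g.comp (Pn p n)).comp ι = ∑ i ∈ range n, g (un p i) • (co p i).comp ι := by
      ext x; simp [Pn_eq, mul_comm]
    rw [this]; simp [a, mul_comm]
  have nb : ∀ n, ‖∑ i ∈ range n, a i • un p i‖ ≤ ‖Ψ‖ := by
    intro n
    refine NormedSpace.norm_le_dual_bound ℝ _ Ψ.opNorm_nonneg fun g => ?_
    rw [key]
    refine (Ψ.le_opNorm _).trans ?_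
    gcongr
    refine ContinuousLinearMap.opNorm_le_bound _ (norm_nonneg _) fun x => ?_
    exact (g.le_opNorm _).trans (by gcongr; exact (norm_Pn_le n _).trans (hι x).le)
  have mem : Memℓp a p := by
    refine memℓp_gen' (C := ‖Ψ‖ ^ p.toReal) fun S => ?_
    obtain ⟨n, hn⟩ := S.exists_nat_subset_range
    calc ∑ i ∈ S, ‖a i‖ ^ p.toReal
        = ∑ i ∈ S, ‖(∑ i ∈ range n, a i • un p i : El p) i‖ ^ p.toReal :=
          Finset.sum_congr rfl fun i hi => by rw [sum_un_apply, if_pos (Finset.mem_range.1 (hn hi))]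
      _ ≤ _ := (lp.sum_rpow_le_norm_rpow hq0 _ S).trans (by gcongr; exact nb n)
  let z : El p := ⟨a, mem⟩
  have hz : ∀ g : El p →L[ℝ] ℝ, g z = Ψ (g.comp ι) := by
    intro g
    refine tendsto_nhds_unique ((g.continuous.tendsto _).comp (Pn_tendsto hp z)) ?_
    have t : Tendsto (fun n => (g.comp (Pn p n)).comp ι) atTop (𝓝 (g.comp ι)) := by
      rw [tendsto_iff_norm_sub_tendsto_zero]
      refine squeeze_zero (fun _ => norm_nonneg _) (fun n => ?_) (shrink_dual hp1 hp g)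
      refine ContinuousLinearMap.opNorm_le_bound _ (norm_nonneg _) fun x => ?_
      have := (g.comp (1 - Pn p n)).le_opNorm (ι x)
      rw [← norm_neg, ← hι x]
      simpa using this
    refine ((Ψ.continuous.tendsto _).comp t).congr fun n => ?_
    simp only [Function.comp, Pn_eq]
    exact (key g n).symm
  have hzY : z ∈ LinearMap.range (ι : X →ₗ[ℝ] El p) := by
    by_contra hn
    have hc : IsClosed (LinearMap.range (ι : X →ₗ[ℝ] El p) : Set (El p)) :=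
      (AddMonoidHomClass.isometry_of_norm ι hι).isClosedEmbedding.isClosed_range
    obtain ⟨g, u, h1, h2⟩ := geometric_hahn_banach_closed_point (Submodule.convex _) hc hn
    have h0 : g.comp ι = 0 := by
      ext x
      by_contra hx
      have := h1 (ι ((u / g (ι x)) • x)) ⟨_, rfl⟩
      rw [map_smul, map_smul, smul_eq_mul, div_mul_cancel₀ _ (by simpa using hx)] at this
      exact lt_irrefl _ this
    have := h1 0 (Submodule.zero_mem _)
    rw [hz, h0] at h2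
    simp only [map_zero] at this h2
    linarith
  obtain ⟨y, hy⟩ := hzY
  refine ⟨y, fun f => ?_⟩
  obtain ⟨g, rfl⟩ := ext_dual ι hι f
  rw [← hz, ← hy]; rfl

end Pool.Agent.MP_7ca887_an.AP
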