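import Pool.Agent.MP_7ca887_an.ap.Rec

/-! Transfer of the ring identities to norm estimates: bounded families modulo small families. -/

set_option autoImplicit false

open Filter Topology

namespace Pool.Agent.MP_7ca887_an.AP

section
universe u v
variable (ι : Type u) (R : Type v) [NormedRing R]

/-- bounded families -/
def Bd : Subring (ι → R) where
  carrier := {a | ∃ C : ℝ, ∀ i, ‖a i‖ ≤ C}
  mul_mem' := by
    rintro a b ⟨C, hC⟩ ⟨D, hD⟩
    exact ⟨C * D, fun i => (norm_mul_le _ _).trans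
      (mul_le_mul (hC i) (hD i) (norm_nonneg _) ((norm_nonneg _).trans (hC i)))⟩
  one_mem' := ⟨‖(1 : R)‖, fun _ => le_rfl⟩
  add_mem' := by
    rintro a b ⟨C, hC⟩ ⟨D, hD⟩
    exact ⟨C + D, fun i => norm_add_le_of_le (hC i) (hD i)⟩
  zero_mem' := ⟨0, fun _ => by simp⟩
  neg_mem' := by
    rintro a ⟨C, hC⟩
    exact ⟨C, fun i => by simpa using hC i⟩

variable {ι R}

/-- evaluation -/
def ev (i : ι) : Bd ι R →+* R := (Pi.evalRingHom (fun _ => R) i).comp (Bd ι R).subtype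

theorem ev_bd (a : Bd ι R) : ∃ C : ℝ, ∀ i, ‖ev i a‖ ≤ C := a.2

variable (R) in
/-- congruence modulo families of order `w` -/
def Sm (w : ι → ℝ) (hw : ∀ i, 0 ≤ w i) : RingCon (Bd ι R) where
  r a b := ∃ C : ℝ, ∀ i, ‖ev i a - ev i b‖ ≤ C * w i
  iseqv :=
    { refl := fun a => ⟨0, fun i => by simp⟩
      symm := fun ⟨C, hC⟩ => ⟨C, fun i => by rw [norm_sub_rev]; exact hC i⟩
      trans := fun ⟨C, hC⟩ ⟨D, hD⟩ => ⟨C + D, fun i => by
        rw [add_mul]; exact (norm_sub_le_norm_sub_add_norm_sub _ _ _).trans (add_le_add (hC i) (hD i))⟩ }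
  add' := by
    rintro a b c d ⟨C, hC⟩ ⟨D, hD⟩
    refine ⟨C + D, fun i => ?_⟩
    rw [map_add, map_add, add_sub_add_comm, add_mul]
    exact norm_add_le_of_le (hC i) (hD i)
  mul' := by
    rintro a b c d ⟨C, hC⟩ ⟨D, hD⟩
    obtain ⟨M, hM⟩ := ev_bd c
    obtain ⟨L, hL⟩ := ev_bd b
    refine ⟨C * M + L * D, fun i => ?_⟩
    have e : ev i (a * c) - ev i (b * d) = (ev i a - ev i b) * ev i c + ev i b * (ev i c - ev i d) := by
      rw [map_mul, map_mul]; noncomm_ring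
    have h1 : ‖(ev i a - ev i b) * ev i c‖ ≤ C * w i * M := (norm_mul_le _ _).trans
      (mul_le_mul (hC i) (hM i) (norm_nonneg _) ((norm_nonneg _).trans (hC i)))
    have h2 : ‖ev i b * (ev i c - ev i d)‖ ≤ L * (D * w i) := (norm_mul_le _ _).trans
      (mul_le_mul (hL i) (hD i) (norm_nonneg _) ((norm_nonneg _).trans (hL i)))
    rw [e]
    exact (norm_add_le_of_le h1 h2).trans (le_of_eq (by ring))

theorem mk_eq {w : ι → ℝ} {hw : ∀ i, 0 ≤ w i} {u v : Bd ι R} (h : ∀ i, ‖ev i u - ev i v‖ ≤ w i) :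
    (Sm R w hw).mk' u = (Sm R w hw).mk' v :=
  (Sm R w hw).eq.2 ⟨1, fun i => by simpa using h i⟩

theorem of_mk_eq {w : ι → ℝ} {hw : ∀ i, 0 ≤ w i} {u v : Bd ι R}
    (h : (Sm R w hw).mk' u = (Sm R w hw).mk' v) : ∃ C : ℝ, ∀ i, ‖ev i u - ev i v‖ ≤ C * w i :=
  (Sm R w hw).eq.1 h

theorem exists_quot (w : ι → ℝ) (hw : ∀ i, 0 ≤ w i) :
    ∃ (A : Type (max u v)) (_ : Ring A) (mk : Bd ι R →+* A),
      (∀ {x y : Bd ι R}, (∀ i, ‖ev i x - ev i y‖ ≤ w i) → mk x = mk y) ∧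
      ∀ {x y : Bd ι R}, mk x = mk y → ∃ C : ℝ, ∀ i, ‖ev i x - ev i y‖ ≤ C * w i :=
  ⟨(Sm R w hw).Quotient, inferInstance, (Sm R w hw).mk', mk_eq, of_mk_eq⟩

/-- a bounded sequence read along a two index family of positions, shifted by `s` -/
def sB (c : ℕ → R) (hc : ∃ C : ℝ, ∀ n, ‖c n‖ ≤ C) (p : ℕ → ℕ → ℕ) (s : ℕ) : Bd (ℕ × ℕ) R :=
  ⟨fun i => c (p i.1 (i.2 + s)), hc.imp fun _ h _ => h _⟩

theorem ev_sB (c : ℕ → R) (hc : ∃ C : ℝ, ∀ n, ‖c n‖ ≤ C) (p : ℕ → ℕ → ℕ) (s : ℕ) (i : ℕ × ℕ) :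
    ev i (sB c hc p s) = c (p i.1 (i.2 + s)) := rfl
end

theorem map_rho {A B : Type*} [Ring A] [Ring B] (f : A →+* B) (th cr jm jn : A) :
    f (rho th cr jm jn) = rho (f th) (f cr) (f jm) (f jn) := by simp [rho]

variable {W : Type*} [NormedAddCommGroup W] [NormedSpace ℝ W] {s : W →L[ℝ] W}

theorem chain {𝒞 : Cuts W s} (h : 𝒞.Sparse) {N k m n : ℕ} (hmn : m = 0 ∨ (m < n ∧ N + k ≤ n)) :
    ‖𝒞.c m * 𝒞.c n - 𝒞.c m‖ ≤ wt N k ∧ ‖𝒞.c n * 𝒞.c m - 𝒞.c m‖ ≤ wt N k := by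
  rcases hmn with rfl | ⟨h1, h2⟩
  · simp [𝒞.c0, (wt_pos N k).le]
  · have e : ((1 : ℝ) / 4) ^ n ≤ wt N k :=
      (pow_le_pow_left₀ (by norm_num) (by norm_num) n).trans
        (pow_le_pow_of_le_one (by norm_num) (by norm_num) h2)
    exact ⟨(h m n h1).1.trans e, (h m n h1).2.trans e⟩

/-- the `i`-th cutoff of level `k` -/
def lv (c : ℕ → W →L[ℝ] W) (f : ℕ → St (W →L[ℝ] W)) (i k : ℕ) : W →L[ℝ] W := c (ix (f k).b i)

/-- the local formula of a run -/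
noncomputable def Dd (c J : ℕ → W →L[ℝ] W) (f : ℕ → St (W →L[ℝ] W)) (k : ℕ) : W →L[ℝ] W :=
  DF (fun k => gOf c J (f k) (f (k + 1))) (fun k => hOf c J (f k) (f (k + 1))) (fun k => J (f k).m) k

/-- the localized pieces of a run -/
noncomputable def aa (c J : ℕ → W →L[ℝ] W) (f : ℕ → St (W →L[ℝ] W)) (k : ℕ) : W →L[ℝ] W :=
  Dd c J f k * dl (lv c f 1) k

theorem local_est {𝒞 : Cuts W s} (hs : 𝒞.Sparse) {J : ℕ → W →L[ℝ] W} {K : ℝ} (hK : ∀ m, ‖J m‖ ≤ K)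
    (F : ℕ → ℕ → St (W →L[ℝ] W))
    (hS : ∀ N k, Inv 𝒞.c J N k (F N k) ∧ Step 𝒞.c J N k (F N k) (F N (k + 1))) :
    ∃ C : ℝ, ∀ N k, ‖Dd 𝒞.c J (F N) k‖ ≤ C ∧
      ‖lv 𝒞.c (F N) 0 (k + 5) * aa 𝒞.c J (F N) (k + 1) - aa 𝒞.c J (F N) (k + 1)‖ ≤ C * wt N k ∧
      ‖lv 𝒞.c (F N) 2 (k + 1) * aa 𝒞.c J (F N) (k + 1)‖ ≤ C * wt N k ∧
      ‖(dl (lv 𝒞.c (F N) 1) k + dl (lv 𝒞.c (F N) 1) (k + 2)) * aa 𝒞.c J (F N) (k + 1) -
        aa 𝒞.c J (F N) (k + 1)‖ ≤ C * wt N k ∧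
      ‖(aa 𝒞.c J (F N) k + aa 𝒞.c J (F N) (k + 2)) * aa 𝒞.c J (F N) (k + 1) -
        dl (lv 𝒞.c (F N) 1) (k + 1)‖ ≤ C * wt N k := by
  obtain ⟨A, _, mk, mk1, mk2⟩ := exists_quot (R := W →L[ℝ] W) (fun i : ℕ × ℕ => wt i.1 i.2)
    (fun i => (wt_pos _ _).le)
  have cB : ∀ p : ℕ → ℕ → ℕ, ∃ x : ℕ → Bd (ℕ × ℕ) (W →L[ℝ] W),
      ∀ i s, ev i (x s) = 𝒞.c (p i.1 (i.2 + s)) := fun p => ⟨sB 𝒞.c ⟨2, 𝒞.bd⟩ p, fun _ _ => rfl⟩
  have jB : ∀ p : ℕ → ℕ → ℕ, ∃ x : ℕ → Bd (ℕ × ℕ) (W →L[ℝ] W),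
      ∀ i s, ev i (x s) = J (p i.1 (i.2 + s)) := fun p => ⟨sB J ⟨K, hK⟩ p, fun _ _ => rfl⟩
  choose L eL using fun a => cB fun N k => ix (F N k).b a
  obtain ⟨j, ej⟩ := jB fun N k => (F N k).m
  obtain ⟨t, et⟩ := cB fun N k => (F N (k + 1)).t
  obtain ⟨u, eu⟩ := cB fun N k => (F N (k + 1)).u
  obtain ⟨r, er⟩ := cB fun N k => (F N (k + 1)).r
  obtain ⟨jm, em⟩ := jB fun N k => (F N (k + 1)).mu
  obtain ⟨jn, en⟩ := jB fun N k => (F N (k + 1)).nu
  obtain ⟨g, hg⟩ : ∃ g : ℕ → Bd (ℕ × ℕ) (W →L[ℝ] W), ∀ s, g s =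
    gF (j s) (j (s + 1)) (L 3 s) (L 4 s) (L 5 s) (u s) (r s) (jm s) (jn s) := ⟨_, fun _ => rfl⟩
  obtain ⟨h, hh⟩ : ∃ h : ℕ → Bd (ℕ × ℕ) (W →L[ℝ] W), ∀ s, h s =
    hF (j s) (j (s + 1)) (L 3 s) (L 4 s) (L 5 s) (u s) (r s) (jm s) (jn s) := ⟨_, fun _ => rfl⟩
  have evg : ∀ i s, ev i (g s) = gOf 𝒞.c J (F i.1 (i.2 + s)) (F i.1 (i.2 + s + 1)) := by
    intro i s
    rw [hg, map_gF, ej, ej, eL, eL, eL, eu, er, em, en]; rfl
  have evh : ∀ i s, ev i (h s) = hOf 𝒞.c J (F i.1 (i.2 + s)) (F i.1 (i.2 + s + 1)) := by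
    intro i s
    rw [hh, map_hF, ej, ej, eL, eL, eL, eu, er, em, en]; rfl
  have E : ∀ {x y : Bd (ℕ × ℕ) (W →L[ℝ] W)} (s : ℕ),
      (∀ i : ℕ × ℕ, ‖ev i x - ev i y‖ ≤ wt i.1 (i.2 + s)) → mk x = mk y :=
    fun s hh => mk1 fun i => (hh i).trans (wt_anti _ (Nat.le_add_right _ _))
  have AbE : ∀ {x y : Bd (ℕ × ℕ) (W →L[ℝ] W)} (s : ℕ), (∀ i : ℕ × ℕ,
      ‖ev i x * ev i y - ev i x‖ ≤ wt i.1 (i.2 + s) ∧ ‖ev i y * ev i x - ev i x‖ ≤ wt i.1 (i.2 + s)) →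
      Ab (mk x) (mk y) := by
    intro x y s hh
    constructor
    · rw [← map_mul]; exact E s fun i => by rw [map_mul]; exact (hh i).1
    · rw [← map_mul]; exact E s fun i => by rw [map_mul]; exact (hh i).2
  have big : ∀ N k, (F N k).b ≠ 0 → N + k ≤ (F N k).b := by
    intro N k hb
    by_cases hk : k ≤ 3
    · exact absurd ((hS N k).1.2.1 hk).1 hb
    · exact (hS N k).1.2.2.1 (by omega)
  have lev : ∀ a b s, a < b → Ab (mk (L a s)) (mk (L b s)) := by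
    intro a b s hab
    refine AbE s fun i => ?_
    rw [eL, eL]
    refine chain hs ?_
    by_cases hb : (F i.1 (i.2 + s)).b = 0
    · left; simp [ix, hb]
    · right; have := big _ _ hb; simp only [ix, hb, if_false]; omega
  have nxt : ∀ s, Ab (mk (L 5 s)) (mk (L 0 (s + 1))) := by
    intro s
    refine AbE s fun i => ?_
    rw [eL, eL]
    refine chain hs ?_
    by_cases hb : (F i.1 (i.2 + s)).b = 0
    · left; simp [ix, hb]
    · right
      have h1 := big _ _ hb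
      have h2 : (F i.1 (i.2 + s + 1)).b ≠ 0 := fun h => hb ((hS _ _).2.2.2.1 h)
      have h3 := (hS _ _).2.2.2.2.1 h2
      change ix (F i.1 (i.2 + s)).b 5 < ix (F i.1 (i.2 + s + 1)).b 0 ∧
        i.1 + (i.2 + s) ≤ ix (F i.1 (i.2 + s + 1)).b 0
      simp only [ix, hb, h2, if_false]; omega
  have htt : ∀ s, Ab (mk (L 5 s)) (mk (t s)) := by
    intro s
    refine AbE s fun i => ?_
    rw [eL, et]
    refine chain hs ?_
    have h1 := (hS i.1 (i.2 + s)).2.1.1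
    right
    unfold ix; split_ifs <;> omega
  have htu : ∀ s, Ab (mk (t s)) (mk (u s)) := by
    intro s
    refine AbE s fun i => ?_
    rw [et, eu]
    refine chain hs ?_
    have h1 := (hS i.1 (i.2 + s)).2.1.1
    have h2 := (hS i.1 (i.2 + s)).2.1.2.1
    right
    omega
  have R3 : ∀ s, Ab (mk (L 5 s)) (mk (j s) * mk (j s)) := by
    intro s
    rw [← map_mul]
    refine AbE s fun i => ?_
    rw [map_mul, eL, ej]
    exact ⟨(hS _ _).1.2.2.2.1, (hS _ _).1.2.2.2.2.1⟩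
  have R4l : ∀ s, mk (L 0 (s + 1)) * (mk (j s) * mk (L 5 s)) = mk (j s) * mk (L 5 s) := by
    intro s
    simp only [← map_mul]
    refine E s fun i => ?_
    simp only [map_mul, eL, ej, et, eu, er, em, en]
    exact (hS _ _).2.2.2.2.2.1
  have R4r : ∀ s, mk (L 5 s) * mk (j s) * mk (L 0 (s + 1)) = mk (L 5 s) * mk (j s) := by
    intro s
    simp only [← map_mul]
    refine E s fun i => ?_
    simp only [map_mul, eL, ej, et, eu, er, em, en]
    exact (hS _ _).2.2.2.2.2.2.1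
  have R5 : ∀ s, Ab (mk (g s) - 1) (mk (L 0 (s + 2))) := by
    intro s
    rw [← map_one mk, ← map_sub]
    refine AbE (s + 1) fun i => ?_
    rw [map_sub, map_one, evg, eL, ← (hS i.1 (i.2 + s)).2.2.1]
    exact (hS i.1 (i.2 + s + 1)).2.2.2.2.2.2.2
  have G : ∀ s, mk (g s) * mk (h s) = 1 ∧ mk (h s) * mk (g s) = 1 ∧
      mk (g s) * (mk (j (s + 1)) * mk (j s)) * mk (L 2 s) = mk (L 2 s) ∧
      mk (L 2 s) * (mk (j s) * mk (j (s + 1))) = mk (L 2 s) * mk (g s) := by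
    intro s
    rw [hg, hh, map_gF, map_hF]
    refine gamma_alg (t := mk (t s)) (lev 2 3 s (by norm_num)) (lev 3 4 s (by norm_num))
      (lev 4 5 s (by norm_num)) (htt s) (htu s) ?_ ?_ ?_ ?_ ?_ ?_ ?_
    · have a1 := ((lev 0 5 (s + 1) (by norm_num)).trans (R3 (s + 1))).2
      calc mk (j s) * mk (j (s + 1)) * (mk (j (s + 1)) * mk (j s)) * mk (L 5 s)
          = mk (j s) * (mk (j (s + 1)) * mk (j (s + 1)) * (mk (j s) * mk (L 5 s))) := by
            simp only [mul_assoc]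
        _ = mk (j s) * (mk (j s) * mk (L 5 s)) := by
            rw [← R4l s, ← mul_assoc _ (mk (L 0 (s + 1))), a1]
        _ = _ := by rw [← mul_assoc, (R3 s).2]
    · simp only [← map_mul]
      refine E s fun i => ?_
      simp only [map_mul, eL, ej, et, eu, er, em, en]
      exact (hS _ _).2.1.2.2.1
    · simp only [← map_mul]
      refine E s fun i => ?_
      simp only [map_mul, eL, ej, et, eu, er, em, en]
      exact (hS _ _).2.1.2.2.2.1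
    · simp only [← map_mul]
      refine E s fun i => ?_
      simp only [map_mul, eL, ej, et, eu, er, em, en]
      exact (hS _ _).2.1.2.2.2.2.1
    · simp only [← map_mul]
      refine E s fun i => ?_
      simp only [map_mul, eL, ej, et, eu, er, em, en]
      exact (hS _ _).2.1.2.2.2.2.2.1
    · rw [← map_rho mk, ← map_mul, ← map_zero mk]
      refine E s fun i => ?_
      simp only [map_mul, map_rho, map_zero, eL, eu, er, em, en]
      exact (hS _ _).2.1.2.2.2.2.2.2.1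
    · rw [← map_rho mk, ← map_one mk, ← map_sub]
      simp only [← map_mul]
      refine E s fun i => ?_
      simp only [map_mul, map_rho, map_sub, map_one, eL, er, em, en]
      exact (hS _ _).2.1.2.2.2.2.2.2.2
  have e25 : ∀ s, Ab (mk (L 2 s)) (mk (L 5 s)) := fun s => lev 2 5 s (by norm_num)
  obtain ⟨M1, M2, M3, M4⟩ := main_alg (fun s => mk (g s)) (fun s => mk (h s)) (fun s => mk (j s))
    (fun s => mk (L 0 s)) (fun s => mk (L 1 s)) (fun s => mk (L 2 s))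
    (fun s => (G s).1) (fun s => (G s).2.1) (fun s => (G s).2.2.1) (fun s => (G s).2.2.2)
    (fun s => (e25 s).trans (R3 s))
    (fun s => by
      rw [← (e25 s).2, ← mul_assoc (mk (j s)), ← mul_assoc, R4l])
    (fun s => by
      rw [← (e25 s).1, mul_assoc (mk (L 2 s)), mul_assoc (mk (L 2 s)), R4r])
    R5 (fun s => lev 0 1 s (by norm_num)) (fun s => lev 1 2 s (by norm_num))
    (fun s => (e25 s).trans (nxt s)) 0
  have mD : ∀ s, DF (fun s => mk (g s)) (fun s => mk (h s)) (fun s => mk (j s)) s =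
      mk (DF g h j s) := fun s => by simp only [DF, map_mul]
  have md : ∀ s, dl (fun s => mk (L 1 s)) s = mk (dl (L 1) s) := fun s => by simp only [dl, map_sub]
  have eD : ∀ i s, ev i (DF g h j s) = Dd 𝒞.c J (F i.1) (i.2 + s) := fun i s => by
    simp only [DF, Dd, map_mul, evg, evh, ej]; rfl
  have ed : ∀ i s, ev i (dl (L 1) s) = dl (lv 𝒞.c (F i.1) 1) (i.2 + s) := fun i s => by
    simp only [dl, map_sub, eL]; rfl
  simp only [mD, md, ← map_mul, ← map_add] at M1 M2 M3 M4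
  rw [← map_zero mk] at M2
  obtain ⟨C0, h0⟩ := ev_bd (DF g h j 0)
  obtain ⟨C1, h1⟩ := mk2 M1
  obtain ⟨C2, h2⟩ := mk2 M2
  obtain ⟨C3, h3⟩ := mk2 M3
  obtain ⟨C4, h4⟩ := mk2 M4
  simp only [map_mul, map_add, map_zero, sub_zero, eD, ed, eL, zero_add, add_zero] at h0 h1 h2 h3 h4
  refine ⟨|C0| + |C1| + |C2| + |C3| + |C4|, fun N k => ?_⟩
  have up : ∀ {x C : ℝ}, x ≤ C * wt N k → |C| ≤ |C0| + |C1| + |C2| + |C3| + |C4| →
      x ≤ (|C0| + |C1| + |C2| + |C3| + |C4|) * wt N k := fun hx hC =>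
    hx.trans (mul_le_mul_of_nonneg_right ((le_abs_self _).trans hC) (wt_pos _ _).le)
  have p0 := abs_nonneg C0
  have p1 := abs_nonneg C1
  have p2 := abs_nonneg C2
  have p3 := abs_nonneg C3
  have p4 := abs_nonneg C4
  unfold aa
  refine ⟨(h0 (N, k)).trans ((le_abs_self _).trans (by linarith)), ?_, ?_, ?_, ?_⟩
  · have := h1 (N, k)
    dsimp only at this
    refine up (C := C1) ?_ (by linarith)
    generalize Dd 𝒞.c J (F N) (k + 1) = D at this ⊢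
    generalize dl (lv 𝒞.c (F N) 1) (k + 1) = d at this ⊢
    exact this
  · exact up (h2 (N, k)) (by linarith)
  · have := h3 (N, k)
    dsimp only at this
    refine up (C := C3) ?_ (by linarith)
    generalize Dd 𝒞.c J (F N) (k + 1) = D at this ⊢
    generalize dl (lv 𝒞.c (F N) 1) = d at this ⊢
    exact this
  · have := h4 (N, k)
    dsimp only at this
    refine up (C := C4) ?_ (by linarith)
    generalize Dd 𝒞.c J (F N) = D at this ⊢
    generalize dl (lv 𝒞.c (F N) 1) = d at this ⊢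
    exact this

end Pool.Agent.MP_7ca887_an.AP
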