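import Pool.Agent.MP_7ca887_an.ap.Cat

/-! The recursive choice of levels, local inverses and catalysts. -/

set_option autoImplicit false

open Filter Topology

namespace Pool.Agent.MP_7ca887_an.AP

variable {W : Type*} [NormedAddCommGroup W] [NormedSpace ℝ W] {s : W →L[ℝ] W}

/-- index of the `i`-th cutoff of the level with base `b` -/
def ix (b i : ℕ) : ℕ := if b = 0 then 0 else b + i

/-- state of the recursion -/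
structure St (R : Type*) where
  b : ℕ
  m : ℕ
  t : ℕ
  u : ℕ
  r : ℕ
  mu : ℕ
  nu : ℕ
  o : R

/-- accuracy -/
noncomputable def wt (N k : ℕ) : ℝ := (1 / 2) ^ (N + k)

theorem wt_pos (N k : ℕ) : 0 < wt N k := by unfold wt; positivity

theorem wt_anti (N : ℕ) {k l : ℕ} (h : k ≤ l) : wt N l ≤ wt N k :=
  pow_le_pow_of_le_one (by norm_num) (by norm_num) (by omega)

/-- the correcting operator of a step -/
noncomputable def gOf (c J : ℕ → W →L[ℝ] W) (x y : St (W →L[ℝ] W)) : W →L[ℝ] W :=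
  gF (J x.m) (J y.m) (c (ix x.b 3)) (c (ix x.b 4)) (c (ix x.b 5)) (c y.u) (c y.r) (J y.mu) (J y.nu)

/-- its approximate inverse -/
noncomputable def hOf (c J : ℕ → W →L[ℝ] W) (x y : St (W →L[ℝ] W)) : W →L[ℝ] W :=
  hF (J x.m) (J y.m) (c (ix x.b 3)) (c (ix x.b 4)) (c (ix x.b 5)) (c y.u) (c y.r) (J y.mu) (J y.nu)

/-- invariant -/
def Inv (c J : ℕ → W →L[ℝ] W) (N k : ℕ) (x : St (W →L[ℝ] W)) : Prop :=
  x.o ∈ FR W W ∧ (k ≤ 3 → x.b = 0 ∧ x.o = 0) ∧ (3 < k → N + k ≤ x.b) ∧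
  ‖c (ix x.b 5) * (J x.m * J x.m) - c (ix x.b 5)‖ ≤ wt N k ∧
  ‖J x.m * J x.m * c (ix x.b 5) - c (ix x.b 5)‖ ≤ wt N k ∧
  ∀ᶠ m in (hyperfilter ℕ : Filter ℕ), ∃ t u r μ ν,
    Atom c J (c (ix x.b 5)) (J x.m) (J m) (x.b + 5 + N + k) (wt N k) t u r μ ν

/-- step relation -/
def Step (c J : ℕ → W →L[ℝ] W) (N k : ℕ) (x y : St (W →L[ℝ] W)) : Prop :=
  Atom c J (c (ix x.b 5)) (J x.m) (J y.m) (x.b + 5 + N + k) (wt N k) y.t y.u y.r y.mu y.nu ∧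
  y.o = gOf c J x y - 1 ∧ (y.b = 0 → x.b = 0) ∧ (y.b ≠ 0 → x.b + 5 < y.b) ∧
  ‖c (ix y.b 0) * (J x.m * c (ix x.b 5)) - J x.m * c (ix x.b 5)‖ ≤ wt N k ∧
  ‖c (ix x.b 5) * J x.m * c (ix y.b 0) - c (ix x.b 5) * J x.m‖ ≤ wt N k ∧
  ‖x.o * c (ix y.b 0) - x.o‖ ≤ wt N k ∧ ‖c (ix y.b 0) * x.o - x.o‖ ≤ wt N k

theorem sys_exists (𝒞 : Cuts W s) {J : ℕ → W →L[ℝ] W} {K : ℝ} (hK : ∀ m, ‖J m‖ ≤ K)
    (sot : ∀ w, Tendsto (fun m => J m (J m w)) atTop (𝓝 w))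
    (adj : ∀ f : W →L[ℝ] ℝ, Tendsto (fun m => ‖f.comp (1 - J m * J m)‖) atTop (𝓝 0)) (N : ℕ) :
    ∃ f : ℕ → St (W →L[ℝ] W), ∀ k, Inv 𝒞.c J N k (f k) ∧ Step 𝒞.c J N k (f k) (f (k + 1)) := by
  have hU : (hyperfilter ℕ : Filter ℕ) ≤ atTop := Nat.hyperfilter_le_atTop
  have good : ∀ b k : ℕ, ∀ᶠ n in (hyperfilter ℕ : Filter ℕ),
      ‖𝒞.c (ix b 5) * (J n * J n) - 𝒞.c (ix b 5)‖ ≤ wt N k ∧
      ‖J n * J n * 𝒞.c (ix b 5) - 𝒞.c (ix b 5)‖ ≤ wt N k ∧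
      ∀ᶠ m in (hyperfilter ℕ : Filter ℕ), ∃ t u r μ ν,
        Atom 𝒞.c J (𝒞.c (ix b 5)) (J n) (J m) (b + 5 + N + k) (wt N k) t u r μ ν := by
    intro b k
    have h1 : Tendsto (fun n => ‖𝒞.c (ix b 5) * (J n * J n) - 𝒞.c (ix b 5)‖) atTop (𝓝 0) := by
      refine (FR.tendsto_right (T := fun m => 1 - J m * J m) adj (𝒞.fin (ix b 5))).congr fun n => ?_
      change ‖𝒞.c (ix b 5) * (1 - J n * J n)‖ = _
      rw [mul_sub, mul_one, norm_sub_rev]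
    exact ((h1.eventually (ge_mem_nhds (wt_pos N k))).filter_mono hU).and
      ((((sq_left sot (𝒞.fin _)).eventually (ge_mem_nhds (wt_pos N k))).filter_mono hU).and
        (cat_exists 𝒞 hK sot (𝒞.fin _) _ (wt_pos N k)))
  refine dep_choice _ _ ?_ ?_
  · obtain ⟨n, hn⟩ := (good 0 0).exists
    exact ⟨⟨0, n, 0, 0, 0, 0, 0, 0⟩, zero_mem _, fun _ => ⟨rfl, rfl⟩, fun h => by omega, hn⟩
  · rintro k x ⟨ho, hz, hb, -, -, hc⟩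
    have hw := wt_pos N k
    have pick : ∃ b : ℕ, (k + 1 ≤ 3 → b = 0) ∧ (3 < k + 1 → N + (k + 1) ≤ b) ∧ (b = 0 → x.b = 0) ∧
        (b ≠ 0 → x.b + 5 < b) ∧
        ‖𝒞.c (ix b 0) * (J x.m * 𝒞.c (ix x.b 5)) - J x.m * 𝒞.c (ix x.b 5)‖ ≤ wt N k ∧
        ‖𝒞.c (ix x.b 5) * J x.m * 𝒞.c (ix b 0) - 𝒞.c (ix x.b 5) * J x.m‖ ≤ wt N k ∧
        ‖x.o * 𝒞.c (ix b 0) - x.o‖ ≤ wt N k ∧ ‖𝒞.c (ix b 0) * x.o - x.o‖ ≤ wt N k := by
      by_cases hk : k + 1 ≤ 3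
      · obtain ⟨h1, h2⟩ := hz (by omega)
        refine ⟨0, fun _ => rfl, fun h => by omega, fun _ => h1, fun h => absurd rfl h, ?_⟩
        simp [h1, h2, ix, 𝒞.c0, hw.le]
      · have e1 := (𝒞.absl (FR.mul_left (J x.m) (𝒞.fin (ix x.b 5)))).eventually (ge_mem_nhds hw)
        have e2 := (𝒞.absr (FR.mul_right (J x.m) (𝒞.fin (ix x.b 5)))).eventually (ge_mem_nhds hw)
        have e3 := (𝒞.absr ho).eventually (ge_mem_nhds hw)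
        have e4 := (𝒞.absl ho).eventually (ge_mem_nhds hw)
        obtain ⟨b, hb1, hb2⟩ := ((e1.and (e2.and (e3.and e4))).and
          (eventually_gt_atTop (x.b + 5 + N + k + 1))).exists
        have hb0 : b ≠ 0 := by omega
        have hi : ix b 0 = b := by simp [ix, hb0]
        refine ⟨b, fun h => absurd h hk, fun _ => by omega, fun h => absurd h hb0,
          fun _ => by omega, ?_⟩
        rw [hi]; exact hb1
    obtain ⟨b, p1, p2, p3, p4, p5⟩ := pick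
    obtain ⟨n, hn, t, u, r, μ, ν, hat⟩ := ((good b (k + 1)).and hc).exists
    refine ⟨⟨b, n, t, u, r, μ, ν, gOf 𝒞.c J x ⟨b, n, t, u, r, μ, ν, 0⟩ - 1⟩,
      ⟨gF_fin (𝒞.fin _) (𝒞.fin _) (𝒞.fin _), fun h => ⟨p1 h, ?_⟩, p2, hn⟩, hat, rfl, p3, p4, p5⟩
    have h1 := (hz (by omega)).1
    simp [gOf, h1, ix, 𝒞.c0, gF_zero]

end Pool.Agent.MP_7ca887_an.AP
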